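import Pool.Agent.H86.AP.Df
import Pool.Agent.H57.GP.Wdf
import Pool.Agent.H19.AB.Jf
import Pool.Agent.H24.RK.Brf
import Pool.Agent.H77.WE.Defs

/-!
# H19-A2-DF2: definitions of AP2 (main term of Malle's conjecture, all classes, stage 2; MP_b39724_nt, think 1616)

`P` a finite `p`-group, `c : CL p N P` representatives of some classes of elements of order `p`, `rP : P →* Qg` onto, `rP.ker` the normal closure of the `c.g i`. `q : P →* G` onto,
`rG : G →* Qg`, `rG ∘ q = rP`. `(b, w)` a state (`Sta` of H86/AP/Df). `Γ = Gal(Ω/K)`, `φ₁ : Γ →* P` of finite type (only its types at `S0` matter).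
`wt`: a weight on the homomorphisms `Γ →* Qg` (norm at most `1`, zero on those which are not onto).
`k`: all finite groups have exponent dividing `p ^ k`; inertia outside `S0` has order dividing `p ^ k`.
* `Tmk k`, `LfK k`: inertia of order dividing `p ^ k`; pull-backs of normalised 2-cochains of such groups. `TS1`: the sum of the tori.
* `rs D Q B`: the restriction of the family `B` to the decomposition groups at `S0`. `FnR`: the relative functional (it is zero on the coboundaries at `S0`).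
* `cjf rP φ₁ a`: the family of the conjugates of `φ₁` (`a` a function on `S0` with values in `rP.ker`). `JR`: the value of the functional. No base point.
* `XS2`: the homomorphisms `Γ →* G` of finite type, unramified outside `S0 ∪ T`, with the types `τ v` at `S0`. `HS2`: without the condition at `S0`.
* `BB2`: the sum over all `a` and `XS2` of `wt (rG ∘ φ)`, `e(JR)` and the product over `T` of the `Vg`.
* `Ev2`, `Mn2`: values `F (Θ (F_u))`, and the functions which are of this form with mean values zero.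
-/

set_option autoImplicit false
set_option linter.dupNamespace false

open scoped NumberField ComplexConjugate
open IsDedekindDomain
open scoped Classical

noncomputable section

namespace Pool.Agent.H19.A2

open H63.MA H38.BB H38.BG H57.PC H57.BRA H57.GP H77.PC3 H77.WD Pool.Agent.H19.NF
  Pool.Agent.H19.AB H86.AP H77.WE

variable {K : Type} [Field K] [NumberField K] {Ω : Type} [Field Ω] [Algebra K Ω]
  {p m N : ℕ} {ζ : K}

/-- inertia of order dividing `p ^ k` outside `S0` -/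
def Tmk (k : ℕ) {D : RD0 K p ζ} (L : LDs D Ω) {R : Type} [Group R] (ρ : Gal(Ω/K) →* R) : Prop :=
  ∀ v, v ∉ D.S0 → ∀ τ ∈ inr L v, ρ τ ^ p ^ k = 1

/-- pull-back of a normalised 2-cochain of a finite group with inertia of order dividing `p ^ k` -/
def LfK (k : ℕ) {D : RD0 K p ζ} (L : LDs D Ω) {M : Type} [AddCommGroup M]
    (Ψ : Gal(Ω/K) → Gal(Ω/K) → M) : Prop :=
  ∃ (R : Type) (_ : Group R) (_ : Finite R) (ρ : Gal(Ω/K) →* R) (ψ : R → R → M),
    Tmk k L ρ ∧ H38.ML.FT ρ ∧ (∀ r, ψ 1 r = 0) ∧ (∀ r, ψ r 1 = 0) ∧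
      ∀ σ τ, Ψ σ τ = ψ (ρ σ) (ρ τ)

/-- the sum of the tori (weights `1`) -/
def TS1 {D : RD0 K p ζ} (L : LDs D Ω) (Fr : FR L) {M : Type} [AddCommGroup M]
    (Ψ : Gal(Ω/K) → Gal(Ω/K) → M) : M := ∑ᶠ v, br Ψ (L.t v) (Fr.F v)

/-- the restriction to the decomposition groups at `S0` -/
def rs (D : RD0 K p ζ) (Q : DP K Ω) {M : Type} [AddCommGroup M]
    (B : Pl K → Gal(Ω/K) → Gal(Ω/K) → M) (v : Pl K) (σ τ : Gal(Ω/K)) : M :=
  if v ∈ D.S0 ∧ σ ∈ dec (K := K) (Q.P v) ∧ τ ∈ dec (K := K) (Q.P v) then B v σ τ else 0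

/-- the relative functional -/
def FnR (p k m : ℕ) [NeZero (p ^ m)] {ζ : K} (D : RD0 K p ζ) (L : LDs D Ω) (Q : DP K Ω)
    (Fr : FR L) (I : ((Gal(Ω/K) → Gal(Ω/K) → Gal(Ω/K) → ZMod (p ^ m)) ×
      (Pl K → Gal(Ω/K) → Gal(Ω/K) → ZMod (p ^ m))) →+ AddCircle (1 : ℝ)) : Prop :=
  ∀ (Ψ : Gal(Ω/K) → Gal(Ω/K) → ZMod (p ^ m)) (η : Pl K → Gal(Ω/K) → ZMod (p ^ m)),
    LfK k L Ψ → (∀ v, Lev (η v)) →
      I (d2 Ψ, rs D Q fun v σ τ => Ψ σ τ - d1 (η v) σ τ) = ZMod.toAddCircle (TS1 L Fr Ψ)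

section gal

variable {D : RD0 K p ζ} {P G Qg : Type} [Group P] [Group G] [Group Qg]

/-- the conjugates of `φ₁` -/
def cjf (D : RD0 K p ζ) (rP : P →* Qg) (φ₁ : Gal(Ω/K) →* P) (a : {v // v ∈ D.S0} → rP.ker)
    (v : Pl K) : Gal(Ω/K) →* P :=
  if h : v ∈ D.S0 then (MulAut.conj (a ⟨v, h⟩ : P)).toMonoidHom.comp φ₁ else φ₁

/-- homomorphisms with the types `τ v` at `S0` -/
def XT2 (L : LDs D Ω) (Q : DP K Ω)
    (τ : Pl K → Gal(Ω/K) →* G) (T : Finset (Pl K)) : Set (Gal(Ω/K) →* G) :=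
  {φ | Unz L T φ ∧ ∀ v ∈ D.S0, ∀ σ ∈ dec (K := K) (Q.P v), φ σ = τ v σ}

/-- the finite set `XT2` -/
def XS2 (L : LDs D Ω) (Q : DP K Ω)
    (τ : Pl K → Gal(Ω/K) →* G) (T : Finset (Pl K)) : Finset (Gal(Ω/K) →* G) :=
  if h : (XT2 L Q τ T).Finite then h.toFinset else ∅

/-- homomorphisms of finite type, unramified outside `S0 ∪ T` -/
def HS2 (L : LDs D Ω) (H : Type) [Group H] (T : Finset (Pl K)) : Finset (Gal(Ω/K) →* H) :=
  if h : {φ : Gal(Ω/K) →* H | Unz L T φ}.Finite then h.toFinset else ∅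

/-- the value of the functional -/
def JR (D : RD0 K p ζ) (Q : DP K Ω) (I : ((Gal(Ω/K) → Gal(Ω/K) → Gal(Ω/K) → ZMod (p ^ m)) ×
      (Pl K → Gal(Ω/K) → Gal(Ω/K) → ZMod (p ^ m))) →+ AddCircle (1 : ℝ))
    (b : P → P → ZMod (p ^ m)) (w : G → G → G → ZMod (p ^ m)) (τ : Pl K → Gal(Ω/K) →* P)
    (φ : Gal(Ω/K) →* G) : AddCircle (1 : ℝ) :=
  I (pl3 w φ, rs D Q fun v => pl2 b (τ v))

/-- one summand: the sum over `XS2` for a family `τ` of types -/
def B1 [Fintype P] [NeZero (p ^ m)] (L : LDs D Ω) (Q : DP K Ω) (Fr : FR L)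
    (I : ((Gal(Ω/K) → Gal(Ω/K) → Gal(Ω/K) → ZMod (p ^ m)) ×
      (Pl K → Gal(Ω/K) → Gal(Ω/K) → ZMod (p ^ m))) →+ AddCircle (1 : ℝ))
    (rG : G →* Qg) (wt : (Gal(Ω/K) →* Qg) → ℂ) (τ : Pl K → Gal(Ω/K) →* P) (q : P →* G)
    (b : P → P → ZMod (p ^ m)) (w : G → G → G → ZMod (p ^ m)) (T : Finset (Pl K))
    (γ : Pl K → P) : ℂ :=
  ∑ φ ∈ XS2 L Q (fun v => q.comp (τ v)) T, wt (rG.comp φ) * (ec (JR D Q I b w τ φ) *
    ∏ v ∈ T, Vg q b (γ v) (φ (L.t v)) (φ (Fr.F v)))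

/-- the sum over the homomorphisms with given ramification, labels `γ v` at `v ∈ T` -/
def BB2 [Fintype P] [NeZero (p ^ m)] (L : LDs D Ω) (Q : DP K Ω) (Fr : FR L)
    (I : ((Gal(Ω/K) → Gal(Ω/K) → Gal(Ω/K) → ZMod (p ^ m)) ×
      (Pl K → Gal(Ω/K) → Gal(Ω/K) → ZMod (p ^ m))) →+ AddCircle (1 : ℝ))
    (rP : P →* Qg) (rG : G →* Qg) (wt : (Gal(Ω/K) →* Qg) → ℂ) (φ₁ : Gal(Ω/K) →* P) (q : P →* G)
    (b : P → P → ZMod (p ^ m)) (w : G → G → G → ZMod (p ^ m)) (T : Finset (Pl K))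
    (γ : Pl K → P) : ℂ :=
  ∑ a : {v // v ∈ D.S0} → rP.ker, B1 L Q Fr I rG wt (cjf D rP φ₁ a) q b w T γ

end gal

/-- the values of `F` at the Frobenius elements -/
def Ev2 {D : RD0 K p ζ} (L : LDs D Ω) (Fr : FR L) (H : Type) [Group H] (F : H → ℂ)
    (T : Finset (Pl K)) (co : (Gal(Ω/K) →* H) → ℂ) (u : Pl K) : ℂ :=
  ∑ Θ ∈ HS2 L H T, co Θ * F (Θ (Fr.F u))

/-- the functions with mean values zero -/
def Mn2 (k : ℕ) {D : RD0 K p ζ} (L : LDs D Ω) (Fr : FR L) {P : Type} [Group P] (c : CL p N P)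
    (j₀ : Fin N) (X : Finset (Pl K) → (Pl K → P) → ℂ) : Prop :=
  ∃ (H : Type) (_ : Group H) (_ : Fintype H) (F : H → ℂ) (C : ℝ), (∀ h : H, h ^ p ^ k = 1) ∧
    (∀ g h : H, F (g * h * g⁻¹) = F h) ∧ 1 ≤ C ∧
    ∀ (T : Finset (Pl K)) (γ : Pl K → P), (∀ v ∈ T, v ∉ D.S0) →
      ∃ co : (Gal(Ω/K) →* H) → ℂ, (∀ Θ, ‖co Θ‖ ≤ C ^ (T.card + 1)) ∧
        (∀ Θ, co Θ ≠ 0 → (∀ j, j ≠ j₀ → ∃ v ∈ T, γ v = c.g j) → mr Θ F = 0) ∧
        ∀ u, D.Gd u → u ∉ T →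
          X (insert u T) (Function.update γ u (c.g j₀)) = Ev2 L Fr H F T co u

end Pool.Agent.H19.A2
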