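import Pool.Agent.H19.A2.Ff
import Pool.Agent.H19.ST.Grp

/-!
# H19-A2-JR: basic lemmas for AP2

`lfk_pl2`, `ts1_sum`, `ts1_pl`: pull-backs, the sum of the tori. `fnr_rel`, `fnr_cob`: consequences of `FnR`. `jr_d`: the value of `JR` on a coboundary. `jr_sub`, `jr_inf`.
`mem_xs2`, `mem_hs2`, `unz_fin`: finiteness.
-/

set_option autoImplicit false
set_option linter.dupNamespace false

open scoped NumberField ComplexConjugate
open IsDedekindDomain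
open scoped Classical

noncomputable section

namespace Pool.Agent.H19.A2

open H63.MA H38.BB H38.BG H57.PC H57.BRA H57.GP H77.PC3 H77.WD Pool.Agent.H19.NF
  Pool.Agent.H19.AB H86.AP H77.WE

variable {K : Type} [Field K] [NumberField K] {Ω : Type} [Field Ω] [Algebra K Ω]
  {p m k : ℕ} {ζ : K}

section tmk

variable {D : RD0 K p ζ} {L : LDs D Ω} {G H : Type} [Group G] [Group H]

theorem lfk_pl2 {M : Type} [AddCommGroup M] [Finite G] {ρ : Gal(Ω/K) →* G} (hR : Tmk k L ρ)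
    (hρ : H38.ML.FT ρ) {c : G → G → M} (hc : Nr2 c) : LfK k L (pl2 c ρ) :=
  ⟨G, inferInstance, inferInstance, ρ, c, hR, hρ, hc.l, hc.r, fun _ _ => rfl⟩

theorem tmk_exp (hG : ∀ g : G, g ^ p ^ k = 1) (φ : Gal(Ω/K) →* G) : Tmk k L φ :=
  fun _ _ _ _ => hG _

theorem pow_mono {k₀ : ℕ} (hk : k₀ ≤ k) (hG : ∀ g : G, g ^ p ^ k₀ = 1) (g : G) :
    g ^ p ^ k = 1 := by
  obtain ⟨j, rfl⟩ := Nat.exists_eq_add_of_le hk
  rw [pow_add, pow_mul, hG, one_pow]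

theorem pow_surj {q : G →* H} (hq : Function.Surjective q) (hG : ∀ g : G, g ^ p ^ k = 1)
    (h : H) : h ^ p ^ k = 1 := by
  obtain ⟨g, rfl⟩ := hq h
  rw [← map_pow, hG, map_one]

end tmk

section ts

variable {D : RD0 K p ζ} (L : LDs D Ω) (Fr : FR L)

theorem ts1_sum {M : Type} [AddCommGroup M] {Ψ : Gal(Ω/K) → Gal(Ω/K) → M} (T : Finset (Pl K))
    (h : ∀ v, v ∉ T → br Ψ (L.t v) (Fr.F v) = 0) :
    TS1 L Fr Ψ = ∑ v ∈ T, br Ψ (L.t v) (Fr.F v) := by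
  unfold TS1
  refine finsum_eq_sum_of_support_subset _ fun v hv => ?_
  by_contra hT
  exact hv (h v (fun h' => hT (Finset.mem_coe.2 h')))

theorem ts1_pl {M : Type} [AddCommGroup M] {G : Type} [Group G] {c : G → G → M} (hc : Nr2 c)
    (φ : Gal(Ω/K) →* G) (T : Finset (Pl K)) (h : ∀ v, v ∉ D.S0 → v ∉ T → φ (L.t v) = 1) :
    TS1 L Fr (pl2 c φ) = ∑ v ∈ T, br c (φ (L.t v)) (φ (Fr.F v)) := by
  refine ts1_sum L Fr T fun v hv => ?_
  have h1 : φ (L.t v) = 1 := by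
    by_cases hS : v ∈ D.S0
    · rw [t_S0 L hS, map_one]
    · exact h v hS hv
  rw [br_pl2, h1]
  unfold br
  rw [hc.l, hc.r, sub_zero]

end ts

section fn

variable [NeZero (p ^ m)] {D : RD0 K p ζ} {L : LDs D Ω} {Q : DP K Ω} {Fr : FR L}
  {I : ((Gal(Ω/K) → Gal(Ω/K) → Gal(Ω/K) → ZMod (p ^ m)) ×
      (Pl K → Gal(Ω/K) → Gal(Ω/K) → ZMod (p ^ m))) →+ AddCircle (1 : ℝ)}

theorem lev_const {X : Type} (x : X) : Lev (fun _ : Gal(Ω/K) => x) :=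
  ⟨⊥, inferInstance, fun _ _ _ => rfl⟩

theorem fnr_rs (hI : FnR p k m D L Q Fr I) {Ψ : Gal(Ω/K) → Gal(Ω/K) → ZMod (p ^ m)}
    (h : LfK k L Ψ) : I (d2 Ψ, rs D Q fun _ => Ψ) = ZMod.toAddCircle (TS1 L Fr Ψ) := by
  rw [← hI Ψ (fun _ _ => 0) h fun v => lev_const 0]
  congr 2
  funext v σ τ
  congr 1
  funext v σ τ
  show Ψ σ τ = Ψ σ τ - (0 - 0 + 0)
  ring

theorem fnr_rel (hI : FnR p k m D L Q Fr I) {Ψ : Gal(Ω/K) → Gal(Ω/K) → ZMod (p ^ m)}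
    (h : LfK k L Ψ) (hr : Rel D Q Ψ) : I (d2 Ψ, 0) = ZMod.toAddCircle (TS1 L Fr Ψ) := by
  rw [← fnr_rs hI h]
  congr 2
  funext v σ τ
  unfold rs
  split_ifs with h1
  · exact (hr v h1.1 σ h1.2.1 τ h1.2.2).symm
  · rfl

theorem fnr_cob (hI : FnR p k m D L Q Fr I) (η : Pl K → Gal(Ω/K) → ZMod (p ^ m))
    (hη : ∀ v, Lev (η v)) : I (0, rs D Q fun v σ τ => d1 (η v) σ τ) = 0 := by
  have h0 : LfK k L (fun _ _ => (0 : ZMod (p ^ m))) := by
    refine ⟨Unit, inferInstance, inferInstance, 1, fun _ _ => 0, fun v hv τ hτ => rfl, ?_,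
      fun _ => rfl, fun _ => rfl, fun _ _ => rfl⟩
    exact ⟨⊥, inferInstance, fun u _ => MonoidHom.mem_ker.2 rfl⟩
  have h1 := hI (fun _ _ => 0) η h0 hη
  have h2 : TS1 L Fr (fun _ _ => (0 : ZMod (p ^ m))) = 0 := by
    unfold TS1 br
    rw [← finsum_zero (α := Pl K)]
    refine finsum_congr fun v => ?_
    rw [sub_self]
  rw [h2, map_zero] at h1
  have h3 : (d2 (fun _ _ : Gal(Ω/K) => (0 : ZMod (p ^ m))), rs D Q fun v σ τ =>
      (0 : ZMod (p ^ m)) - d1 (η v) σ τ) = -(0, rs D Q fun v σ τ => d1 (η v) σ τ) := by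
    rw [Prod.neg_mk, neg_zero]
    refine Prod.ext ?_ ?_
    · funext σ τ υ
      show (0 : ZMod (p ^ m)) - 0 + 0 - 0 = 0
      ring
    · funext v σ τ
      simp only [Pi.neg_apply, rs]
      split_ifs
      · ring
      · rw [neg_zero]
  rw [h3, map_neg, neg_eq_zero] at h1
  exact h1

variable {P G Qg : Type} [Group P] [Group G] [Group Qg]

/-- the value on a coboundary -/
theorem jr_d (hI : FnR p k m D L Q Fr I) [Finite G] (q : P →* G) {c : G → G → ZMod (p ^ m)}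
    (hc : Nr2 c) {τ : Pl K → Gal(Ω/K) →* P} {φ : Gal(Ω/K) →* G} (h : H38.ML.FT φ)
    (ht : Tmk k L φ) (hT : ∀ v ∈ D.S0, ∀ σ ∈ dec (K := K) (Q.P v), φ σ = q (τ v σ)) :
    JR D Q I (fun x y => c (q x) (q y)) (d2 c) τ φ =
      ZMod.toAddCircle (TS1 L Fr (pl2 c φ)) := by
  rw [← fnr_rs hI (lfk_pl2 ht h hc)]
  unfold JR
  congr 1
  refine Prod.ext ?_ ?_
  · exact (d2_pl2 c φ).symm
  · funext v σ τ'
    simp only [rs]
    split_ifs with h1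
    · show c (q (τ v σ)) (q (τ v τ')) = c (φ σ) (φ τ')
      rw [hT v h1.1 σ h1.2.1, hT v h1.1 τ' h1.2.2]
    · rfl

omit [NeZero (p ^ m)] in
theorem jr_sub (b b' : P → P → ZMod (p ^ m)) (w w' : G → G → G → ZMod (p ^ m))
    (τ : Pl K → Gal(Ω/K) →* P) (φ : Gal(Ω/K) →* G) :
    JR D Q I (fun x y => b x y - b' x y) (fun x y z => w x y z - w' x y z) τ φ =
      JR D Q I b w τ φ - JR D Q I b' w' τ φ := by
  unfold JR
  rw [← map_sub]
  congr 1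
  refine Prod.ext rfl ?_
  funext v σ τ'
  simp only [Prod.snd_sub, Pi.sub_apply, rs]
  split_ifs
  · rfl
  · rw [sub_zero]

omit [NeZero (p ^ m)] in
theorem jr_inf {H : Type} [Group H] (π : G →* H) (b : P → P → ZMod (p ^ m))
    (w : H → H → H → ZMod (p ^ m)) (τ : Pl K → Gal(Ω/K) →* P) (φ : Gal(Ω/K) →* G) :
    JR D Q I b (fun x y z => w (π x) (π y) (π z)) τ φ = JR D Q I b w τ (π.comp φ) := rfl

end fn

section fin

variable [IsAlgClosure K Ω] {D : RD0 K p ζ} {G : Type} [Group G] [Finite G]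

theorem unz_fin (hp : p.Prime) (hζ : IsPrimitiveRoot ζ p) (L : LDs D Ω)
    (hG : ∀ x : G, x ^ p ^ k = 1) (T : Finset (Pl K)) :
    {φ : Gal(Ω/K) →* G | Unz L T φ}.Finite := by
  obtain ⟨A⟩ := gs_exists hp hζ D Ω
  refine (hon_finU hp hζ L A T G).subset fun φ h => ⟨h, ?_⟩
  rintro ⟨x, hx⟩
  exact ⟨k, Subtype.ext (hG x)⟩

theorem mem_xs2 (hp : p.Prime) (hζ : IsPrimitiveRoot ζ p) (L : LDs D Ω) (Q : DP K Ω)
    (hG : ∀ x : G, x ^ p ^ k = 1)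
    (τ : Pl K → Gal(Ω/K) →* G) (T : Finset (Pl K)) (φ : Gal(Ω/K) →* G) :
    φ ∈ XS2 L Q τ T ↔ Unz L T φ ∧
      ∀ v ∈ D.S0, ∀ σ ∈ dec (K := K) (Q.P v), φ σ = τ v σ := by
  have hfin : (XT2 L Q τ T).Finite := (unz_fin hp hζ L hG T).subset fun φ h => h.1
  unfold XS2
  rw [dif_pos hfin, Set.Finite.mem_toFinset]
  rfl

theorem mem_hs2 (hp : p.Prime) (hζ : IsPrimitiveRoot ζ p) (L : LDs D Ω)
    (hG : ∀ x : G, x ^ p ^ k = 1) (T : Finset (Pl K))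
    (φ : Gal(Ω/K) →* G) : φ ∈ HS2 L G T ↔ Unz L T φ := by
  have hfin := unz_fin hp hζ L hG T
  unfold HS2
  rw [dif_pos hfin, Set.Finite.mem_toFinset]
  rfl

end fin

end Pool.Agent.H19.A2
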