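import Pool.Agent.H19.A2.Df2
import Pool.Agent.H19.ST.Tz

/-!
# H19-A2-FF: the form of (F) which is used in the step theorem (chapter (F): helper82)

`FF`: if a class on `R` pulled back by `ρ` has zero tori outside `S0`, and the functional `I` vanishes on its restriction to every decomposition group at `S0`, then it is zero.
-/

set_option autoImplicit false
set_option linter.dupNamespace false

open scoped NumberField
open IsDedekindDomain
open scoped Classical

noncomputable section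

namespace Pool.Agent.H19.A2

open H63.MA H38.BB H38.BG H57.PC H57.BRA H57.GP H77.PC3 H77.WD Pool.Agent.H19.NF
  Pool.Agent.H19.AB H86.AP H77.WE

variable {K : Type} [Field K] [NumberField K] {Ω : Type} [Field Ω] [Algebra K Ω]

/-- the cochain `θ e` at the place `v` only -/
def at1 {p m : ℕ} {R : Type} [Group R] (e : R → R → ZMod p) (ρ : Gal(Ω/K) →* R) (v v' : Pl K)
    (σ τ : Gal(Ω/K)) : ZMod (p ^ m) := if v' = v then ST.tz p m (e (ρ σ) (ρ τ)) else 0

/-- (F) -/
def FF (p k m : ℕ) [NeZero (p ^ m)] {ζ : K} (D : RD0 K p ζ) (L : LDs D Ω) (Q : DP K Ω)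
    (Fr : FR L) (I : ((Gal(Ω/K) → Gal(Ω/K) → Gal(Ω/K) → ZMod (p ^ m)) ×
      (Pl K → Gal(Ω/K) → Gal(Ω/K) → ZMod (p ^ m))) →+ AddCircle (1 : ℝ)) : Prop :=
  ∀ (R : Type) [Group R] [Finite R] (e : R → R → ZMod p) (_ : Coc p e) (ρ : Gal(Ω/K) →* R),
    (∀ r : R, r ^ p ^ k = 1) → H38.ML.FT ρ →
    (∀ v, v ∉ D.S0 → iv e (ρ (Fr.F v)) (ρ (L.t v)) = 0) →
    (∀ v ∈ D.S0, I (0, rs D Q (at1 e ρ v)) = 0) → Tv (pb e ρ)

end Pool.Agent.H19.A2
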