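import Pool.Agent.H19.A2.Fib2

/-!
# H19-A2-BET2: the homomorphisms of `H`

`β : H → ZMod p` a homomorphism. `jbet2`: the value of `JR` for `(β ∪ et) ∘ q`, computed with the lift for a product of uniformisers at good primes outside `T`.
`bet2`: the coefficient `Af` of the character `-β ∘ φ'`.
-/

set_option autoImplicit false
set_option linter.dupNamespace false

open scoped NumberField
open IsDedekindDomain
open scoped Classical

noncomputable section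

namespace Pool.Agent.H19.A2

open H63.MA H38.BB H38.BG H57.PC H57.BRA H57.GP H77.PC3 H77.WD H89.BRG H48.MF
  Pool.Agent.H19.NF Pool.Agent.H19.AB H86.AP H77.WE H24.RK

private theorem ac_sum {A : Type*} [AddCommMonoid A] (ψ : AddChar A ℂ) {ι : Type*} (s : Finset ι)
    (f : ι → A) : ψ (∑ i ∈ s, f i) = ∏ i ∈ s, ψ (f i) := by
  induction s using Finset.induction_on with
  | empty => rw [Finset.sum_empty, Finset.prod_empty, AddChar.map_zero_eq_one]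
  | insert a s ha ih =>
    rw [Finset.sum_insert ha, Finset.prod_insert ha, AddChar.map_add_eq_mul, ih]

variable {K : Type} [Field K] [NumberField K] {Ω : Type} [Field Ω] [Algebra K Ω]
  [IsAlgClosure K Ω] {p k m : ℕ} {ζ : K} {P G H : Type} [Group P] [Group G] [Group H]

/-- the values of the lifts at the `t_v` -/
theorem lr2_tb (E : CE p G H) (hp : p.Prime) (hζ : IsPrimitiveRoot ζ p) {D : RD0 K p ζ}
    {L : LDs D Ω} {Q : DP K Ω} {τ : Pl K → Gal(Ω/K) →* G} {φ' : Gal(Ω/K) →* H} {s : Pl K → G}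
    {c : Fin D.r → ZMod p} {ρ : Gal(Ω/K) →* G} (h : LR2 E L Q τ φ' s c ρ) (T₀ : Finset (Pl K))
    (hT₀ : ∀ w ∈ T₀, w ∉ D.S0) (α : Pl K → ZMod p) {v : Pl K} (hv : v ∉ D.S0) :
    tw E ρ (kc p ζ Ω (pT D T₀ α)) (L.t v) = E.i (if v ∈ T₀ then α v else 0) * s v := by
  rw [tw_apply, kk_kc, h.t v hv, pT_kk hp hζ]
  congr 2
  have e1 : ∀ w ∈ T₀, α w * kk p ζ (D.pi w) (L.t v) = if v = w then α w else 0 := by
    intro w hw
    by_cases hvw : v = w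
    · rw [if_pos hvw, (kk_pi hp hζ D L w v (hT₀ w hw) hv).1 hvw.symm, mul_one]
    · rw [if_neg hvw, (kk_pi hp hζ D L w v (hT₀ w hw) hv).2 (fun h => hvw h.symm), mul_zero]
  rw [Finset.sum_congr rfl e1, Finset.sum_ite_eq]

/-- the value of `JR` for `(β ∪ et) ∘ q` -/
theorem jbet2 (E : CE p G H) (hp : p.Prime) (hζ : IsPrimitiveRoot ζ p) {D : RD0 K p ζ}
    {L : LDs D Ω} {Q : DP K Ω} {Fr : FR L} [NeZero (p ^ m)]
    {I : ((Gal(Ω/K) → Gal(Ω/K) → Gal(Ω/K) → ZMod (p ^ m)) ×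
      (Pl K → Gal(Ω/K) → Gal(Ω/K) → ZMod (p ^ m))) →+ AddCircle (1 : ℝ)}
    (hI : FnR p k m D L Q Fr I) [Finite G] (hG : ∀ x : G, x ^ p ^ k = 1) (q : P →* G)
    {τ : Pl K → Gal(Ω/K) →* P} {φ' : Gal(Ω/K) →* H} {s : Pl K → G}
    {c : Fin D.r → ZMod p} {ρ : Gal(Ω/K) →* G}
    (h : LR2 E L Q (fun v => q.comp (τ v)) φ' s c ρ) {T : Finset (Pl K)}
    (hT : ∀ v ∈ T, v ∉ D.S0) (hs1 : ∀ v, v ∉ D.S0 → v ∉ T → s v = 1) {T₀ : Finset (Pl K)}
    (hT₀ : ∀ w ∈ T₀, D.Gd w ∧ w ∉ T) {α : Pl K → ZMod p}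
    (hq : ∑ w ∈ T₀, α w • D.q w = c) (θ : ZMod p →+ ZMod (p ^ m)) {β : H → ZMod p}
    (hβ : ∀ x y, β (x * y) = β x + β y) :
    JR D Q I (fun x y => be θ E β (q x) (q y)) (fun x y z => -θ (β x * E.ee y z)) τ φ' =
      ∑ v ∈ T, ZMod.toAddCircle (θ
          (bb E β (s v) (tw E ρ (kc p ζ Ω (pT D T₀ α)) (Fr.F v)))) -
        ZMod.toAddCircle (θ (∑ w ∈ T₀, α w * β (φ' (Fr.F w)))) := by
  have hF : Fact p.Prime := ⟨hp⟩
  have hT₀' : ∀ w ∈ T₀, w ∉ D.S0 := fun w hw => (hT₀ w hw).1.1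
  set φ := tw E ρ (kc p ζ Ω (pT D T₀ α)) with hφ
  have hft : H38.ML.FT φ := tw_ft E h.ft (kc_ft hp hζ _)
  have hte : TeF D.S0 Q φ fun v => q.comp (τ v) := by
    have h2 := h.teq (pT D T₀ α) (by rw [pT_qs hp D T₀ hT₀' α, hq])
    rwa [pT_pf D T₀ hT₀' α] at h2
  have h2 := jr_d hI q (be_nr θ E hβ) hft (tmk_exp hG φ) hte
  have h3 : JR D Q I (fun x y => be θ E β (q x) (q y)) (d2 (be θ E β)) τ φ =
      JR D Q I (fun x y => be θ E β (q x) (q y)) (fun x y z => -θ (β x * E.ee y z)) τ φ' := by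
    have e1 : d2 (be θ E β) = fun x y z => (fun x y z => -θ (β x * E.ee y z))
        (E.pi x) (E.pi y) (E.pi z) := by
      funext x y z
      exact cup_beta E hβ x y z
    rw [e1, jr_inf E.pi _ (fun x y z => -θ (β x * E.ee y z)), hφ,
      lr2_pi E h (kc p ζ Ω (pT D T₀ α))]
  have h4 : TS1 L Fr (pl2 (be θ E β) φ) =
      ∑ v ∈ T, θ (bb E β (s v) (φ (Fr.F v))) -
        θ (∑ w ∈ T₀, α w * β (φ' (Fr.F w))) := by
    have hdis : Disjoint T T₀ := by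
      rw [Finset.disjoint_left]
      intro v hv hv0
      exact (hT₀ v hv0).2 hv
    rw [ts1_pl L Fr (be_nr θ E hβ) φ (T ∪ T₀), Finset.sum_union hdis]
    · rw [sub_eq_add_neg]
      congr 1
      · refine Finset.sum_congr rfl fun v hv => ?_
        have hv0 : v ∉ T₀ := fun h' => (hT₀ v h').2 hv
        rw [br_be, hφ, lr2_tb E hp hζ h T₀ hT₀' α (hT v hv), if_neg hv0, E.i_zero, one_mul]
      · rw [← map_neg, ← Finset.sum_neg_distrib, map_sum]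
        refine Finset.sum_congr rfl fun w hw => ?_
        rw [br_be]
        congr 1
        have e2 : φ (L.t w) = E.i (α w) := by
          rw [hφ, lr2_tb E hp hζ h T₀ hT₀' α (hT₀' w hw), if_pos hw, hs1 w (hT₀' w hw) (hT₀ w hw).2,
            mul_one]
        have e3 : E.pi (φ (Fr.F w)) = φ' (Fr.F w) :=
          DFunLike.congr_fun (lr2_pi E h (kc p ζ Ω (pT D T₀ α))) (Fr.F w)
        have h0 : β 1 = 0 := by
          have h := hβ 1 1
          rw [mul_one] at h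
          exact left_eq_add.1 h
        unfold bb
        rw [e2, E.pi_i, h0, zero_mul, e3, E.et_i', zero_sub, mul_comm]
    · intro v hv hvT
      rw [Finset.mem_union, not_or] at hvT
      rw [hφ, lr2_tb E hp hζ h T₀ hT₀' α hv, if_neg hvT.2, hs1 v hv hvT.1, E.i_zero, one_mul]
  rw [← h3, h2, h4, map_sub, map_sum]

/-- the coefficient of `-β ∘ φ'` -/
theorem bet2 [NeZero p] (E : CE p G H) (hp : p.Prime) (hp2 : MOne p K) (hζ : IsPrimitiveRoot ζ p)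
    {D : RD K p ζ} (hl1 : ∀ v, v ∉ D.S0 → D.lam v = 1)
    (Xi : (Fin D.r → ZMod p) → (Gal(Ω/K) →* Multiplicative (ZMod p)))
    {L : LDs D.toRD0 Ω} {Q : DP K Ω} {Fr : FR L}
    (hXt : ∀ κ v, v ∉ D.S0 → Xi κ (L.t v) = 1)
    (hXi : ∀ κ w, D.Gd w → Multiplicative.toAdd (Xi κ (Fr.F w)) = ∑ i, κ i * D.q w i)
    [NeZero (p ^ m)]
    {I : ((Gal(Ω/K) → Gal(Ω/K) → Gal(Ω/K) → ZMod (p ^ m)) ×
      (Pl K → Gal(Ω/K) → Gal(Ω/K) → ZMod (p ^ m))) →+ AddCircle (1 : ℝ)}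
    (hI : FnR p k m D.toRD0 L Q Fr I) [Finite G] (hG : ∀ x : G, x ^ p ^ k = 1) (q : P →* G)
    {τ : Pl K → Gal(Ω/K) →* P} {φ' : Gal(Ω/K) →* H}
    {s : Pl K → G} {c : Fin D.r → ZMod p} {ρ : Gal(Ω/K) →* G}
    (h : LR2 E L Q (fun v => q.comp (τ v)) φ' s c ρ)
    {T : Finset (Pl K)} (hT : ∀ v ∈ T, v ∉ D.S0)
    (hs1 : ∀ v, v ∉ D.S0 → v ∉ T → s v = 1)
    {ψ : AddChar (ZMod p) ℂ} {e : AddChar (AddCircle (1 : ℝ)) ℂ}
    {θ : ZMod p →+ ZMod (p ^ m)} (hθ : ∀ a, e (ZMod.toAddCircle (θ a)) = ψ a)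
    (g : Pl K → G → ℂ) {β : H → ZMod p} (hβ : ∀ x y, β (x * y) = β x + β y)
    {k : T → ZMod p} {κ : Fin D.r → ZMod p}
    (hL : ∀ σ, Multiplicative.toAdd (Lam D Xi T k κ σ) = -β (φ' σ)) :
    Af D ψ E Fr c ρ g T k κ = ((p : ℂ) ^ D.r)⁻¹ *
      e (-JR D.toRD0 Q I (fun x y => be θ E β (q x) (q y)) (fun x y z => -θ (β x * E.ee y z)) τ
        φ') *
      ∏ v ∈ T, ((p : ℂ)⁻¹ * ∑ a : ZMod p, g v (E.i a * ρ (Fr.F v)) *
        ψ (bb E β (s v) (E.i a * ρ (Fr.F v)))) := by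
  have hF : Fact p.Prime := ⟨hp⟩
  obtain ⟨T₀, hT₀, hsp⟩ := spn hp D.toRD0 T
  obtain ⟨α, hα⟩ := hsp c
  have hl : ∀ v, v ∉ D.S0 → D.lam v ≠ 0 := fun v hv => by
    rw [hl1 v hv]
    exact one_ne_zero
  have hk : ∀ v : T, k v = -(D.lam v.1 * β (E.pi (s v.1))) := by
    intro v
    have h2 := lam_t D Xi hp hζ L hXt hT k κ (hT v.1 v.2)
    rw [dif_pos v.2, hL] at h2
    have h3 : φ' (L.t v.1) = E.pi (s v.1) := by
      rw [← h.t v.1 (hT v.1 v.2)]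
      exact (DFunLike.congr_fun h.pi (L.t v.1)).symm
    rw [h3] at h2
    have h4 := hl v.1 (hT v.1 v.2)
    field_simp at h2
    linear_combination -h2
  have e1 : ∀ v ∈ T, (p : ℂ)⁻¹ * ∑ a : ZMod p, g v (E.i a * ρ (Fr.F v)) *
        ψ (bb E β (s v) (E.i a * ρ (Fr.F v))) =
      fh ψ E (g v) (ρ (Fr.F v)) (-(D.lam v * β (E.pi (s v)))) *
        ψ (D.lam v * bb E β (s v) (ρ (Fr.F v))) := by
    intro v hv
    rw [hl1 v (hT v hv), one_mul, one_mul]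
    unfold fh
    rw [mul_assoc, Finset.sum_mul]
    congr 1
    refine Finset.sum_congr rfl fun a _ => ?_
    rw [bb_i, AddChar.map_add_eq_mul, neg_mul, neg_neg]
    ring
  rw [Finset.prod_congr rfl e1, jbet2 E hp hζ hI hG q h hT hs1 hT₀ hα.symm θ hβ, neg_sub,
    sub_eq_add_neg, AddChar.map_add_eq_mul, hθ, ← Finset.sum_neg_distrib, ac_sum e]
  have e3 : ∀ v ∈ T, e (-ZMod.toAddCircle (θ (bb E β (s v)
      (tw E ρ (kc p ζ Ω (pT D.toRD0 T₀ α)) (Fr.F v))))) =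
      ψ (-(D.lam v * β (E.pi (s v)) * kk p ζ (pT D.toRD0 T₀ α) (Fr.F v))) *
        ψ (-(D.lam v * bb E β (s v) (ρ (Fr.F v)))) := by
    intro v hv
    rw [← map_neg, ← map_neg, hθ, tw_apply, kk_kc, bb_i, neg_add,
      AddChar.map_add_eq_mul, hl1 v (hT v hv), one_mul, one_mul]
  rw [Finset.prod_congr rfl e3, mul_assoc, mul_assoc (ψ _), ← Finset.prod_mul_distrib]
  have e7 : ∀ v ∈ T, kk p ζ (pT D.toRD0 T₀ α) (Fr.F v) =
      (D.lam v)⁻¹ * ∑ w ∈ T₀, α w * kk p ζ (D.pi v) (Fr.F w) + ev D c v := by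
    intro v hv
    rw [pT_kk hp hζ, hα, ← ev_sum, Finset.mul_sum, ← Finset.sum_add_distrib]
    refine Finset.sum_congr rfl fun w hw => ?_
    rw [ll_sym hp hp2 hζ Q Fr (hT v hv) (hT₀ w hw).1]
    ring
  have e4 : ∀ v ∈ T, ψ (-(D.lam v * β (E.pi (s v)) * kk p ζ (pT D.toRD0 T₀ α) (Fr.F v))) *
      ψ (-(D.lam v * bb E β (s v) (ρ (Fr.F v)))) *
      (fh ψ E (g v) (ρ (Fr.F v)) (-(D.lam v * β (E.pi (s v)))) *
        ψ (D.lam v * bb E β (s v) (ρ (Fr.F v)))) =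
      (fh ψ E (g v) (ρ (Fr.F v)) (-(D.lam v * β (E.pi (s v)))) *
        ψ (-(D.lam v * β (E.pi (s v))) * ev D c v)) *
        ψ (-(D.lam v * β (E.pi (s v))) * (D.lam v)⁻¹ *
          ∑ w ∈ T₀, α w * kk p ζ (D.pi v) (Fr.F w)) := by
    intro v hv
    have h3 : ψ (-(D.lam v * bb E β (s v) (ρ (Fr.F v)))) *
        ψ (D.lam v * bb E β (s v) (ρ (Fr.F v))) = 1 := by
      rw [← AddChar.map_add_eq_mul, neg_add_cancel, AddChar.map_zero_eq_one]
    have h4 : ψ (-(D.lam v * β (E.pi (s v)) * kk p ζ (pT D.toRD0 T₀ α) (Fr.F v))) =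
        ψ (-(D.lam v * β (E.pi (s v))) * ev D c v) *
          ψ (-(D.lam v * β (E.pi (s v))) * (D.lam v)⁻¹ *
            ∑ w ∈ T₀, α w * kk p ζ (D.pi v) (Fr.F w)) := by
      rw [← AddChar.map_add_eq_mul, e7 v hv]
      congr 1
      ring
    rw [h4]
    linear_combination (ψ (-(D.lam v * β (E.pi (s v))) * ev D c v) *
      ψ (-(D.lam v * β (E.pi (s v))) * (D.lam v)⁻¹ *
        ∑ w ∈ T₀, α w * kk p ζ (D.pi v) (Fr.F w)) *
      fh ψ E (g v) (ρ (Fr.F v)) (-(D.lam v * β (E.pi (s v))))) * h3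
  rw [Finset.prod_congr rfl e4, Finset.prod_mul_distrib]
  unfold Af
  rw [mul_assoc]
  congr 1
  have e5 : ∏ v : T, (fh ψ E (g v.1) (ρ (Fr.F v.1)) (k v) * ψ (k v * ev D c v.1)) =
      ∏ v ∈ T, (fh ψ E (g v) (ρ (Fr.F v)) (-(D.lam v * β (E.pi (s v)))) *
        ψ (-(D.lam v * β (E.pi (s v))) * ev D c v)) := by
    rw [← Finset.prod_coe_sort T]
    refine Finset.prod_congr rfl fun v _ => ?_
    rw [hk v]
  have e6 : -∑ i, κ i * c i = ∑ w ∈ T₀, α w * β (φ' (Fr.F w)) + ∑ v ∈ T,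
      -(D.lam v * β (E.pi (s v))) * (D.lam v)⁻¹ *
        ∑ w ∈ T₀, α w * kk p ζ (D.pi v) (Fr.F w) := by
    have h3 : ∀ w ∈ T₀, ∑ v ∈ T, -(D.lam v * β (E.pi (s v))) * (D.lam v)⁻¹ *
        kk p ζ (D.pi v) (Fr.F w) + ∑ i, κ i * D.q w i = -β (φ' (Fr.F w)) := by
      intro w hw
      rw [← hL (Fr.F w), lam_toAdd D Xi hp hζ, hXi κ w (hT₀ w hw).1, ← Finset.sum_coe_sort T]
      congr 1
      refine Finset.sum_congr rfl fun v _ => ?_
      rw [hk v]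
    have h4 : ∑ i, κ i * c i = ∑ w ∈ T₀, α w * ∑ i, κ i * D.q w i := by
      rw [hα]
      simp only [Finset.sum_apply, Pi.smul_apply, smul_eq_mul, Finset.mul_sum]
      rw [Finset.sum_comm]
      refine Finset.sum_congr rfl fun w _ => Finset.sum_congr rfl fun i _ => ?_
      ring
    have h5 : ∑ v ∈ T, -(D.lam v * β (E.pi (s v))) * (D.lam v)⁻¹ *
        ∑ w ∈ T₀, α w * kk p ζ (D.pi v) (Fr.F w) =
        ∑ w ∈ T₀, α w * ∑ v ∈ T, -(D.lam v * β (E.pi (s v))) * (D.lam v)⁻¹ *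
          kk p ζ (D.pi v) (Fr.F w) := by
      simp only [Finset.mul_sum]
      rw [Finset.sum_comm]
      refine Finset.sum_congr rfl fun w _ => Finset.sum_congr rfl fun i _ => ?_
      ring
    rw [h4, h5, ← Finset.sum_neg_distrib, ← Finset.sum_add_distrib]
    refine Finset.sum_congr rfl fun w hw => ?_
    linear_combination (-(α w)) * h3 w hw
  rw [e5, e6, AddChar.map_add_eq_mul, ac_sum ψ T]
  ring

end Pool.Agent.H19.A2
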