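import Pool.Agent.H19.A2.Bet2
import Pool.Agent.H19.ST.Cau

/-!
# [H19 A2 CAU2] the dependence of JR on the new prime (single version of H19/ST/Cau)

`w = κ ∘ π + θ (ν ∪ et)`, `(ρ, c)` a record of lifts of `φ'`, and the pull-back of `ν` by `φ'` is a coboundary of finite level (`Tv`). Then `JR` at `φ^u` (`u` good, `D.q u = c`) is a
constant plus `θ` of the central coordinate of a homomorphism `R` to the extension `Xt ν` at `F_u`.
PROOF (as in H19/ST/Cau): `hTv` gives `l` of finite level with `l (σ τ) = l σ + l τ + ν (φ' σ) (φ' τ)`; `R₀ σ = ⟨φ' σ, l σ⟩`; twist by the Kummer character of a product of powers of the `D.pi v`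
to get `(R t_v).z = 0` for all `v ∉ S0` (finite support: `ts_supp`; as in the correction of `lift_one2`, H19/A2/Lif2). If there is no good `w₀` with `D.q w₀ = c` take `C0 = 0`. Otherwise fix one,
`y = D.pi u / D.pi w₀`, `Ψ σ τ = θ ((R σ).z * kk y τ)`: `pl3 w φ^u - pl3 w φ^(w₀) = - d2 Ψ`, `Ψ` is zero on the decomposition groups at `S0` (both lifts have type `τ v` there: `hR.teqw`),
`fnr_rel` (H19/A2/Jr) gives `I (d2 Ψ, 0) = TS1 Ψ = - θ (R F_u).z + θ (R F_(w₀)).z` (`ts1_sum`). The second components of `JR` are equal (they do not depend on the homomorphism).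
`LfK`: `hG`, the exponent `p ^ k` of `Xt ν` is `hX`.
-/

set_option autoImplicit false
set_option linter.dupNamespace false

open scoped NumberField ComplexConjugate
open IsDedekindDomain
open scoped Classical

noncomputable section

namespace Pool.Agent.H19.A2

open H63.MA H38.BB H38.BG H57.PC H57.BRA H57.GP H77.PC3 H77.WD H89.BRG H48.MF
  Pool.Agent.H19.NF Pool.Agent.H19.AB H86.AP H77.WE H24.RK Pool.Agent.H19.ST

variable {K : Type} [Field K] [NumberField K] {Ω : Type} [Field Ω] [Algebra K Ω]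
  [IsAlgClosure K Ω] {p k m : ℕ} {ζ : K} {P G H : Type} [Group P] [Group G] [Group H]

theorem cau2 [NeZero p] (E : CE p G H) (hk : 0 < k) (hp : p.Prime) (hp2 : MOne p K)
    (hζ : IsPrimitiveRoot ζ p) {D : RD0 K p ζ} {L : LDs D Ω} {Q : DP K Ω} {Fr : FR L}
    [NeZero (p ^ m)]
    {I : ((Gal(Ω/K) → Gal(Ω/K) → Gal(Ω/K) → ZMod (p ^ m)) ×
      (Pl K → Gal(Ω/K) → Gal(Ω/K) → ZMod (p ^ m))) →+ AddCircle (1 : ℝ)}
    (hI : FnR p k m D L Q Fr I) [Finite H] {q : P →* G} {τ : Pl K → Gal(Ω/K) →* P}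
    {φ' : Gal(Ω/K) →* H} (h' : H38.ML.FT φ') {s : Pl K → G} {c : Fin D.r → ZMod p}
    {ρ : Gal(Ω/K) →* G} (hR : LR2 E L Q (fun v => q.comp (τ v)) φ' s c ρ)
    {ν : H → H → ZMod p} (hν : Coc p ν) (hX : ∀ x : Xt ν hν, x ^ p ^ k = 1)
    (hTv : Tv (pb ν φ')) {b : P → P → ZMod (p ^ m)} {w : G → G → G → ZMod (p ^ m)}
    {κ : H → H → H → ZMod (p ^ m)} {θ : ZMod p →+ ZMod (p ^ m)}
    (hw : ∀ x y z, w x y z = κ (E.pi x) (E.pi y) (E.pi z) +
      θ (ν (E.pi x) (E.pi y) * E.et z)) :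
    ∃ (R : Gal(Ω/K) →* Xt ν hν) (C0 : AddCircle (1 : ℝ)), H38.ML.FT R ∧
      (∀ σ, (R σ).r = φ' σ) ∧ (∀ v, v ∉ D.S0 → (R (L.t v)).z = 0) ∧
      ∀ u, D.Gd u → D.q u = c →
        JR D Q I b w τ (tw E ρ (kc p ζ Ω (D.pi u))) =
          C0 + ZMod.toAddCircle (θ (R (Fr.F u)).z) := by
  have hF : Fact p.Prime := ⟨hp⟩
  obtain ⟨l, ⟨F, hF1, hl1⟩, hl2⟩ := hTv
  have hl2' : ∀ σ τ, l (σ * τ) = l σ + l τ + ν (φ' σ) (φ' τ) := hl2
  have hl0 : l 1 = 0 := by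
    have h1 := hl2' 1 1
    rw [map_one, hν.l1, add_zero, mul_one] at h1
    linear_combination -h1
  let R₀ : Gal(Ω/K) →* Xt ν hν := MonoidHom.mk' (fun σ => ⟨φ' σ, l σ⟩) (by
    intro σ τ
    rw [Xt.ext_iff]
    refine ⟨?_, hl2' σ τ⟩
    show φ' (σ * τ) = φ' σ * φ' τ
    rw [map_mul])
  have hR₀ft : H38.ML.FT R₀ := by
    obtain ⟨F', hF', h2⟩ := h'
    refine ⟨F ⊔ F', IntermediateField.finiteDimensional_sup _ _, fun u hu => ?_⟩
    have h3 : u ∈ F.fixingSubgroup := IntermediateField.fixingSubgroup_antitone le_sup_left hu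
    have h4 : φ' u = 1 := MonoidHom.mem_ker.1
      (h2 (IntermediateField.fixingSubgroup_antitone le_sup_right hu))
    have h5 : l u = 0 := by
      have := hl1 1 u h3
      rw [one_mul] at this
      rw [this, hl0]
    rw [MonoidHom.mem_ker, Xt.ext_iff]
    exact ⟨h4, h5⟩
  obtain ⟨T₂, hT₂1, hT₂2⟩ := ts_supp hp L hR₀ft
  set x : Kˣ := pT D T₂ fun v => l (L.t v) with hx
  have hxt : ∀ v, v ∉ D.S0 → kk p ζ x (L.t v) = l (L.t v) := by
    intro v hv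
    rw [hx, pT_kk hp hζ]
    have e1 : ∀ w ∈ T₂, l (L.t w) * kk p ζ (D.pi w) (L.t v) = if v = w then l (L.t w) else 0 := by
      intro w hw
      by_cases hvw : v = w
      · rw [if_pos hvw, (kk_pi hp hζ D L w v (hT₂1 w hw) hv).1 hvw.symm, mul_one]
      · rw [if_neg hvw, (kk_pi hp hζ D L w v (hT₂1 w hw) hv).2 (fun h => hvw h.symm), mul_zero]
    rw [Finset.sum_congr rfl e1, Finset.sum_ite_eq]
    by_cases hvT : v ∈ T₂
    · rw [if_pos hvT]
    · rw [if_neg hvT]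
      exact (congrArg Xt.z (hT₂2 v hv hvT)).symm
  have hkm : ∀ (y : Kˣ) (σ τ : Gal(Ω/K)), kk p ζ y (σ * τ) = kk p ζ y σ + kk p ζ y τ := by
    intro y σ τ
    rw [← kk_kc, map_mul, toAdd_mul, kk_kc, kk_kc]
  have hk1 : ∀ y : Kˣ, kk p ζ y (1 : Gal(Ω/K)) = 0 := by
    intro y
    rw [← kk_kc, map_one, toAdd_one]
  let R : Gal(Ω/K) →* Xt ν hν := MonoidHom.mk' (fun σ => ⟨φ' σ, l σ - kk p ζ x σ⟩) (by
    intro σ τ
    rw [Xt.ext_iff]
    refine ⟨?_, ?_⟩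
    · show φ' (σ * τ) = φ' σ * φ' τ
      rw [map_mul]
    · show l (σ * τ) - kk p ζ x (σ * τ) = (l σ - kk p ζ x σ) + (l τ - kk p ζ x τ) +
        ν (φ' σ) (φ' τ)
      rw [hl2', hkm]
      ring)
  have hRz : ∀ σ, (R σ).z = l σ - kk p ζ x σ := fun _ => rfl
  have hRr : ∀ σ, (R σ).r = φ' σ := fun _ => rfl
  have hRft : H38.ML.FT R := by
    obtain ⟨F', hF', h2⟩ := ft_prod hR₀ft (kc_ft (Ω := Ω) hp hζ x)
    refine ⟨F', hF', fun u hu => ?_⟩
    have h3 : (R₀.prod (kc p ζ Ω x)) u = 1 := MonoidHom.mem_ker.1 (h2 hu)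
    have h4 : R₀ u = 1 := congrArg Prod.fst h3
    have h5 : kk p ζ x u = 0 := congrArg (fun y => Multiplicative.toAdd y.2) h3
    have h6 : (R₀ u).r = 1 := congrArg Xt.r h4
    have h7 : (R₀ u).z = 0 := congrArg Xt.z h4
    rw [MonoidHom.mem_ker, Xt.ext_iff]
    refine ⟨h6, ?_⟩
    rw [hRz, h5, sub_zero]
    exact h7
  have hRt : ∀ v, v ∉ D.S0 → (R (L.t v)).z = 0 := fun v hv => by
    rw [hRz, hxt v hv, sub_self]
  have hR1 : (R 1).z = 0 := by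
    rw [hRz, hl0, hk1, sub_zero]
  have hRm : ∀ σ τ, (R (σ * τ)).z = (R σ).z + (R τ).z + ν (φ' σ) (φ' τ) := by
    intro σ τ
    rw [map_mul]
    rfl
  by_cases hex : ∃ w₀, D.Gd w₀ ∧ D.q w₀ = c
  swap
  · exact ⟨R, 0, hRft, hRr, hRt, fun u hu hq => absurd ⟨u, hu, hq⟩ hex⟩
  obtain ⟨w₀, hw₀, hq₀⟩ := hex
  refine ⟨R, JR D Q I b w τ (tw E ρ (kc p ζ Ω (D.pi w₀))) -
    ZMod.toAddCircle (θ (R (Fr.F w₀)).z), hRft, hRr, hRt, fun u hu hq => ?_⟩
  by_cases huw : u = w₀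
  · rw [huw, sub_add_cancel]
  -- the difference
  set y : Kˣ := D.pi u * (D.pi w₀)⁻¹ with hy
  have hyk : ∀ σ : Gal(Ω/K), kk p ζ y σ = kk p ζ (D.pi u) σ - kk p ζ (D.pi w₀) σ := by
    intro σ
    rw [hy, ← zpow_neg_one (D.pi w₀), kk_mul_arg hp hζ, kk_zpow_arg hp hζ, Int.cast_neg,
      Int.cast_one, neg_one_mul, sub_eq_add_neg]
  let Ψ : Gal(Ω/K) → Gal(Ω/K) → ZMod (p ^ m) := fun σ τ => θ ((R σ).z * kk p ζ y τ)
  have hd : ∀ σ τ υ, d2 Ψ σ τ υ = -θ (ν (φ' σ) (φ' τ) * kk p ζ y υ) := by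
    intro σ τ υ
    show θ ((R τ).z * kk p ζ y υ) - θ ((R (σ * τ)).z * kk p ζ y υ) +
      θ ((R σ).z * kk p ζ y (τ * υ)) - θ ((R σ).z * kk p ζ y τ) = _
    rw [hRm, hkm, ← map_sub, ← map_add, ← map_sub, ← map_neg]
    congr 1
    ring
  have e1 : ∀ σ τ υ,
      w (tw E ρ (kc p ζ Ω (D.pi u)) σ) (tw E ρ (kc p ζ Ω (D.pi u)) τ)
        (tw E ρ (kc p ζ Ω (D.pi u)) υ) -
      w (tw E ρ (kc p ζ Ω (D.pi w₀)) σ) (tw E ρ (kc p ζ Ω (D.pi w₀)) τ)
        (tw E ρ (kc p ζ Ω (D.pi w₀)) υ) = θ (ν (φ' σ) (φ' τ) * kk p ζ y υ) := by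
    intro σ τ υ
    have h1 : ∀ (v : Pl K) (σ : Gal(Ω/K)), E.pi (tw E ρ (kc p ζ Ω (D.pi v)) σ) = φ' σ := by
      intro v σ
      rw [← hR.pi]
      exact DFunLike.congr_fun (tw_pi E ρ (kc p ζ Ω (D.pi v))) σ
    have h2 : ∀ (v : Pl K) (σ : Gal(Ω/K)), E.et (tw E ρ (kc p ζ Ω (D.pi v)) σ) =
        kk p ζ (D.pi v) σ + E.et (ρ σ) := by
      intro v σ
      rw [tw_apply, E.et_i, kk_kc]
    rw [hw, hw, h1, h1, h1, h1, h1, h1, h2, h2, add_sub_add_left_eq_sub, ← map_sub, hyk]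
    congr 1
    ring
  have e2' : JR D Q I b w τ (tw E ρ (kc p ζ Ω (D.pi u))) -
      JR D Q I b w τ (tw E ρ (kc p ζ Ω (D.pi w₀))) = -I (d2 Ψ, 0) := by
    unfold JR
    rw [← map_sub, ← map_neg]
    congr 1
    refine Prod.ext ?_ ?_
    · funext σ τ υ
      have h1 := e1 σ τ υ
      simp only [Prod.fst_sub, Prod.fst_neg, Pi.sub_apply, Pi.neg_apply]
      rw [hd, neg_neg]
      exact h1
    · simp
  have hm1 : ∀ x : Multiplicative (ZMod p), x ^ p ^ k = 1 := by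
    intro x
    obtain ⟨j, rfl⟩ : ∃ j, k = j + 1 := ⟨k - 1, by omega⟩
    have h1 : x ^ p = 1 := by
      apply Multiplicative.toAdd.injective
      rw [toAdd_pow, toAdd_one, nsmul_eq_mul, CharP.cast_eq_zero, zero_mul]
    rw [pow_succ', pow_mul, h1, one_pow]
  have hXf : Finite (Xt ν hν) := xt_fin _ _
  have hL : LfK k L Ψ := by
    refine ⟨Xt ν hν × Multiplicative (ZMod p), inferInstance, inferInstance,
      R.prod (kc p ζ Ω y), fun a b => θ (a.1.z * Multiplicative.toAdd b.2), fun v _ τ _ => ?_,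
      ft_prod hRft (kc_ft hp hζ y), fun r => ?_, fun r => ?_, fun σ τ => rfl⟩
    · exact Prod.ext (hX _) (hm1 _)
    · show θ ((1 : Xt ν hν).z * _) = 0
      have : (1 : Xt ν hν).z = 0 := rfl
      rw [this, zero_mul, map_zero]
    · show θ (r.1.z * Multiplicative.toAdd (1 : Multiplicative (ZMod p))) = 0
      rw [toAdd_one, mul_zero, map_zero]
  have hrel : Rel D Q Ψ := by
    intro v hv σ _ τ hτ
    show θ ((R σ).z * kk p ζ y τ) = 0
    have h1 := hR.teqw hu.1 hq v hv τ hτ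
    have h2 := hR.teqw hw₀.1 hq₀ v hv τ hτ
    rw [tw_apply] at h1 h2
    have h3 : E.i (kk p ζ (D.pi u) τ) * ρ τ = E.i (kk p ζ (D.pi w₀) τ) * ρ τ := h1.trans h2.symm
    rw [mul_left_inj] at h3
    rw [hyk, i_inj E h3, sub_self, mul_zero, map_zero]
  have hyt : ∀ v, v ∉ D.S0 → kk p ζ y (L.t v) =
      (if v = u then 1 else 0) - (if v = w₀ then 1 else 0) := by
    intro v hv
    rw [hyk]
    congr 1
    · by_cases h1 : v = u
      · rw [if_pos h1, (kk_pi hp hζ D L u v hu.1 hv).1 h1.symm]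
      · rw [if_neg h1, (kk_pi hp hζ D L u v hu.1 hv).2 (fun h => h1 h.symm)]
    · by_cases h1 : v = w₀
      · rw [if_pos h1, (kk_pi hp hζ D L w₀ v hw₀.1 hv).1 h1.symm]
      · rw [if_neg h1, (kk_pi hp hζ D L w₀ v hw₀.1 hv).2 (fun h => h1 h.symm)]
  have hTS : TS1 L Fr Ψ = -θ (R (Fr.F u)).z + θ (R (Fr.F w₀)).z := by
    rw [ts1_sum L Fr {u, w₀}]
    · rw [Finset.sum_pair huw]
      congr 1
      · show θ ((R (L.t u)).z * kk p ζ y (Fr.F u)) - θ ((R (Fr.F u)).z * kk p ζ y (L.t u)) = _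
        rw [hRt u hu.1, zero_mul, map_zero, zero_sub, hyt u hu.1, if_pos rfl, if_neg huw, sub_zero,
          mul_one]
      · show θ ((R (L.t w₀)).z * kk p ζ y (Fr.F w₀)) - θ ((R (Fr.F w₀)).z * kk p ζ y (L.t w₀)) = _
        rw [hRt w₀ hw₀.1, zero_mul, map_zero, zero_sub, hyt w₀ hw₀.1, if_neg (Ne.symm huw),
          if_pos rfl, zero_sub, mul_neg, mul_one, map_neg, neg_neg]
    · intro v hv
      rw [Finset.mem_insert, Finset.mem_singleton, not_or] at hv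
      show θ ((R (L.t v)).z * kk p ζ y (Fr.F v)) - θ ((R (Fr.F v)).z * kk p ζ y (L.t v)) = 0
      by_cases hS : v ∈ D.S0
      · rw [t_S0 L hS, hR1, hk1, zero_mul, mul_zero, sub_self]
      · rw [hRt v hS, hyt v hS, if_neg hv.1, if_neg hv.2, sub_self, zero_mul, mul_zero, sub_self]
  rw [fnr_rel hI hL hrel, hTS, map_add, map_neg] at e2'
  have h5 : ∀ a b c d : AddCircle (1 : ℝ), a - b = -(-c + d) → a = b - d + c := by
    intro a b c d h
    rw [sub_eq_iff_eq_add] at h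
    rw [h]
    abel
  exact h5 _ _ _ _ e2'

end Pool.Agent.H19.A2
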