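import Pool.Agent.H19.A2.Jr
import Pool.Agent.H4.AP.Va

/-!
# H19-A2-CHG2: change of state

`chg2`: `B1` for `(b, w)` and for `(b - c ∘ q, w - d c)` are equal. `chg2'`: the same for `BB2`.
-/

set_option autoImplicit false
set_option linter.dupNamespace false

open scoped NumberField ComplexConjugate
open IsDedekindDomain
open scoped Classical

noncomputable section

namespace Pool.Agent.H19.A2

open H63.MA H38.BB H38.BG H57.PC H57.BRA H57.GP H77.PC3 H77.WD Pool.Agent.H19.NF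
  Pool.Agent.H19.AB H86.AP H77.WE

variable {K : Type} [Field K] [NumberField K] {Ω : Type} [Field Ω] [Algebra K Ω]
  [IsAlgClosure K Ω] {p m k : ℕ} {ζ : K}

private theorem chg_pr {ι : Type} [NeZero (p ^ m)] (T : Finset ι) (f : ι → ZMod (p ^ m)) :
    ∏ v ∈ T, ec (ZMod.toAddCircle (f v)) = ec (ZMod.toAddCircle (∑ v ∈ T, f v)) := by
  induction T using Finset.induction_on with
  | empty => rw [Finset.prod_empty, Finset.sum_empty, map_zero, AddChar.map_zero_eq_one]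
  | insert v T hv ih => rw [Finset.prod_insert hv, Finset.sum_insert hv, map_add,
      AddChar.map_add_eq_mul, ih]

variable {P G Qg : Type} [Group P] [Fintype P] [Group G] [Finite G] [Group Qg]

theorem chg2 [NeZero (p ^ m)] (hp : p.Prime) (hζ : IsPrimitiveRoot ζ p) {D : RD0 K p ζ}
    {L : LDs D Ω} {Q : DP K Ω} {Fr : FR L}
    {I : ((Gal(Ω/K) → Gal(Ω/K) → Gal(Ω/K) → ZMod (p ^ m)) ×
      (Pl K → Gal(Ω/K) → Gal(Ω/K) → ZMod (p ^ m))) →+ AddCircle (1 : ℝ)}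
    (hI : FnR p k m D L Q Fr I) (hG : ∀ x : G, x ^ p ^ k = 1) (rG : G →* Qg)
    (wt : (Gal(Ω/K) →* Qg) → ℂ) (τ : Pl K → Gal(Ω/K) →* P) (q : P →* G)
    (b : P → P → ZMod (p ^ m)) (w : G → G → G → ZMod (p ^ m)) {c : G → G → ZMod (p ^ m)}
    (hc : Nr2 c) (T : Finset (Pl K)) (γ : Pl K → P) :
    B1 L Q Fr I rG wt τ q b w T γ = B1 L Q Fr I rG wt τ q (fun x y => b x y - c (q x) (q y))
      (fun x y z => w x y z - d2 c x y z) T γ := by
  unfold B1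
  refine Finset.sum_congr rfl fun φ hφ => ?_
  obtain ⟨h1, h2⟩ := (mem_xs2 hp hζ L Q hG _ T φ).1 hφ
  have hj := jr_d hI q hc h1.1 (tmk_exp hG φ) h2
  have hV : ∀ v ∈ T, Vg q (fun x y => b x y - c (q x) (q y)) (γ v) (φ (L.t v))
      (φ (Fr.F v)) = Vg q b (γ v) (φ (L.t v)) (φ (Fr.F v)) *
        ec (ZMod.toAddCircle (br c (φ (L.t v)) (φ (Fr.F v)))) := fun v _ =>
    _root_.H4.AP.vb_sub q b c _ _ _
  rw [Finset.prod_congr rfl hV, Finset.prod_mul_distrib, chg_pr,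
    ← ts1_pl L Fr hc φ T fun v hv hvT => h1.2 v hv hvT, jr_sub, hj]
  have he : ∀ x y : AddCircle (1 : ℝ), ec x = ec (x - y) * ec y := by
    intro x y
    rw [← AddChar.map_add_eq_mul, sub_add_cancel]
  rw [he (JR D Q I b w τ φ) (ZMod.toAddCircle (TS1 L Fr (pl2 c φ)))]
  ring

theorem chg2' [NeZero (p ^ m)] (hp : p.Prime) (hζ : IsPrimitiveRoot ζ p) {D : RD0 K p ζ}
    {L : LDs D Ω} {Q : DP K Ω} {Fr : FR L}
    {I : ((Gal(Ω/K) → Gal(Ω/K) → Gal(Ω/K) → ZMod (p ^ m)) ×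
      (Pl K → Gal(Ω/K) → Gal(Ω/K) → ZMod (p ^ m))) →+ AddCircle (1 : ℝ)}
    (hI : FnR p k m D L Q Fr I) (hG : ∀ x : G, x ^ p ^ k = 1) (rP : P →* Qg) (rG : G →* Qg)
    (wt : (Gal(Ω/K) →* Qg) → ℂ) (φ₁ : Gal(Ω/K) →* P) (q : P →* G)
    (b : P → P → ZMod (p ^ m)) (w : G → G → G → ZMod (p ^ m)) {c : G → G → ZMod (p ^ m)}
    (hc : Nr2 c) (T : Finset (Pl K)) (γ : Pl K → P) :
    BB2 L Q Fr I rP rG wt φ₁ q b w T γ = BB2 L Q Fr I rP rG wt φ₁ q
      (fun x y => b x y - c (q x) (q y)) (fun x y z => w x y z - d2 c x y z) T γ := by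
  unfold BB2
  exact Finset.sum_congr rfl fun a _ => chg2 hp hζ hI hG rG wt _ q b w hc T γ

end Pool.Agent.H19.A2
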