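import Pool.Agent.H19.A2.Lif2
import Pool.Agent.H19.AB.Bet
import Pool.Agent.H19.ST.Fib

/-!
# H19-A2-FIB2: fibre decomposition of XS2 (T u {u}) over XS2 T for the quotient

As H19/ST/Fib, for a family `τ` of types, groups of exponent dividing `p ^ k`. `com2`: Frobenius and inertia commute.
-/

set_option autoImplicit false
set_option linter.dupNamespace false

open scoped NumberField ComplexConjugate
open IsDedekindDomain
open scoped Classical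

noncomputable section

namespace Pool.Agent.H19.A2

open H63.MA H38.BB H38.BG H57.PC H57.BRA H57.GP H77.PC3 H77.WD Pool.Agent.H19.NF
  Pool.Agent.H19.AB H86.AP H77.WE H24.RK Pool.Agent.H19.ST

variable {K : Type} [Field K] [NumberField K] {Ω : Type} [Field Ω] [Algebra K Ω]
  [IsAlgClosure K Ω] {p k : ℕ} {ζ : K} {G H : Type} [Group G] [Group H]

/-- the values of the lifts at the `t_v` -/
theorem lr2_t (E : CE p G H) (hp : p.Prime) (hζ : IsPrimitiveRoot ζ p) {D : RD0 K p ζ}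
    {L : LDs D Ω} {Q : DP K Ω} {τ : Pl K → Gal(Ω/K) →* G} {φ' : Gal(Ω/K) →* H} {s : Pl K → G}
    {c : Fin D.r → ZMod p} {ρ : Gal(Ω/K) →* G} (h : LR2 E L Q τ φ' s c ρ) {w : Pl K}
    (hw : w ∉ D.S0) {v : Pl K} (hv : v ∉ D.S0) :
    tw E ρ (kc p ζ Ω (D.pi w)) (L.t v) = if v = w then E.i 1 * s v else s v := by
  rw [tw_apply, kk_kc, h.t v hv]
  by_cases hvw : v = w
  · rw [if_pos hvw, (kk_pi hp hζ D L w v hw hv).1 hvw.symm]
  · rw [if_neg hvw, (kk_pi hp hζ D L w v hw hv).2 (fun h => hvw h.symm), E.i_zero, one_mul]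

omit [IsAlgClosure K Ω] in
theorem lr2_pi (E : CE p G H) {D : RD0 K p ζ}
    {L : LDs D Ω} {Q : DP K Ω} {τ : Pl K → Gal(Ω/K) →* G} {φ' : Gal(Ω/K) →* H} {s : Pl K → G}
    {c : Fin D.r → ZMod p} {ρ : Gal(Ω/K) →* G} (h : LR2 E L Q τ φ' s c ρ)
    (χ : Gal(Ω/K) →* Multiplicative (ZMod p)) : E.pi.comp (tw E ρ χ) = φ' := by
  rw [tw_pi, h.pi]

/-- Frobenius and inertia commute -/
theorem com2 (hp : p.Prime) (hζ : IsPrimitiveRoot ζ p) (hz : Zn p (k + 1) K) {D : RD0 K p ζ}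
    {L : LDs D Ω} (Fr : FR L) [Finite G] (hG : ∀ x : G, x ^ p ^ k = 1) {φ : Gal(Ω/K) →* G}
    (hφ : H38.ML.FT φ) {v : Pl K} (hv : v ∉ D.S0) :
    φ (Fr.F v) * φ (L.t v) = φ (L.t v) * φ (Fr.F v) := by
  have h3 : L.t v = (L.ld v hv).t := dif_pos hv
  rw [h3]
  exact comk hp hζ hz (fun h => hv (D.above v h)) (D.pi_self v hv) (L.ld v hv) (Fr.fr v hv) φ hφ
    fun τ _ => by rw [pow_succ, pow_mul, hG, one_pow]

theorem fib2 [NeZero p] (E : CE p G H) (hk : 0 < k) (hp : p.Prime) (hp2 : MOne p K)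
    (hζ : IsPrimitiveRoot ζ p) (hz : Zn p (k + 1) K) {D : RD0 K p ζ} (L : LDs D Ω) (Q : DP K Ω)
    (Fr : FR L) [Finite G] (hG : ∀ x : G, x ^ p ^ k = 1) (τ : Pl K → Gal(Ω/K) →* G)
    (h₁ : ∀ v, H38.ML.FT (τ v)) (T : Finset (Pl K)) (hT : ∀ v ∈ T, v ∉ D.S0) :
    ∃ (cR : (Gal(Ω/K) →* H) → (T → ZMod p) → Fin D.r → ZMod p)
      (ρR : (Gal(Ω/K) →* H) → (T → ZMod p) → (Gal(Ω/K) →* G)),
      (∀ φ' ∈ XS2 L Q (fun v => E.pi.comp (τ v)) T, Lc E L Fr T φ' → ∀ a,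
        LR2 E L Q τ φ' (sv E L φ' T a) (cR φ' a) (ρR φ' a)) ∧
      ∀ u, u ∉ D.S0 → u ∉ T → ∀ X : (Gal(Ω/K) →* G) → ℂ,
        (∀ φ ∈ XS2 L Q τ (insert u T), X φ ≠ 0 → φ (L.t u) = E.i 1) →
        ∑ φ ∈ XS2 L Q τ (insert u T), X φ =
          ∑ φ' ∈ XS2 L Q (fun v => E.pi.comp (τ v)) T, ∑ a : T → ZMod p,
            if Lc E L Fr T φ' ∧ D.q u = cR φ' a then
              X (tw E (ρR φ' a) (kc p ζ Ω (D.pi u))) else 0 := by
  have hFH : Finite H := fin_H E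
  have hH : ∀ x : H, x ^ p ^ k = 1 := pow_surj (fun h => ⟨E.s h, E.pi_s h⟩) hG
  have key : ∀ (φ' : Gal(Ω/K) →* H), φ' ∈ XS2 L Q (fun v => E.pi.comp (τ v)) T → Lc E L Fr T φ' →
      ∀ a : T → ZMod p,
      ∃ (c : Fin D.r → ZMod p) (ρ : Gal(Ω/K) →* G), LR2 E L Q τ φ' (sv E L φ' T a) c ρ ∧
      ∀ w, w ∉ D.S0 → w ∉ T → ∀ φ : Gal(Ω/K) →* G, H38.ML.FT φ → E.pi.comp φ = φ' →
        (∀ v, v ∉ D.S0 → v ≠ w → φ (L.t v) = sv E L φ' T a v) → φ (L.t w) = E.i 1 →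
          TeF D.S0 Q φ τ → D.q w = c ∧ φ = tw E ρ (kc p ζ Ω (D.pi w)) := by
    intro φ' hφ' hLc a
    rw [mem_xs2 hp hζ L Q hH] at hφ'
    obtain ⟨⟨h1, h2⟩, h3⟩ := hφ'
    refine lr_ex2 E hk hp hp2 hζ hz Q Fr h₁ h1 (tmk_exp hH φ') h3 T _ ?_ ?_ hLc
    · intro v hv
      unfold sv
      split_ifs with h
      · rw [E.pi_mul, E.pi_s]
      · rw [map_one, h2 v hv h]
    · intro v hv hvT
      unfold sv
      rw [dif_neg hvT]
  choose c0 ρ0 hLR huni using key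
  set cR : (Gal(Ω/K) →* H) → (T → ZMod p) → Fin D.r → ZMod p := fun φ' a =>
    if h : φ' ∈ XS2 L Q (fun v => E.pi.comp (τ v)) T ∧ Lc E L Fr T φ' then c0 φ' h.1 h.2 a else 0 with hcR
  set ρR : (Gal(Ω/K) →* H) → (T → ZMod p) → (Gal(Ω/K) →* G) := fun φ' a =>
    if h : φ' ∈ XS2 L Q (fun v => E.pi.comp (τ v)) T ∧ Lc E L Fr T φ' then ρ0 φ' h.1 h.2 a else 1 with hρR
  have ec : ∀ φ' (h1 : φ' ∈ XS2 L Q (fun v => E.pi.comp (τ v)) T) (h2 : Lc E L Fr T φ') a,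
      cR φ' a = c0 φ' h1 h2 a := fun φ' h1 h2 a => by
    rw [hcR]
    exact dif_pos ⟨h1, h2⟩
  have er : ∀ φ' (h1 : φ' ∈ XS2 L Q (fun v => E.pi.comp (τ v)) T) (h2 : Lc E L Fr T φ') a,
      ρR φ' a = ρ0 φ' h1 h2 a := fun φ' h1 h2 a => by
    rw [hρR]
    exact dif_pos ⟨h1, h2⟩
  refine ⟨cR, ρR, ?_, ?_⟩
  · intro φ' h1 h2 a
    rw [ec φ' h1 h2, er φ' h1 h2]
    exact hLR φ' h1 h2 a
  · intro u hu huT X hX
    rw [← Finset.sum_filter_of_ne hX, ← Finset.sum_product' (f := fun φ' a =>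
      if Lc E L Fr T φ' ∧ D.q u = cR φ' a then
              X (tw E (ρR φ' a) (kc p ζ Ω (D.pi u))) else 0), ← Finset.sum_filter]
    symm
    have hi1 : E.pi (E.i 1) = 1 := E.pi_i 1
    refine Finset.sum_bij (fun y _ => tw E (ρR y.1 y.2) (kc p ζ Ω (D.pi u))) ?_ ?_ ?_ ?_
    · rintro ⟨φ', a⟩ hy
      rw [Finset.mem_filter, Finset.mem_product] at hy
      obtain ⟨⟨h1, -⟩, h2, h3⟩ := hy
      dsimp only at h1 h2 h3 ⊢
      rw [ec φ' h1 h2] at h3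
      rw [er φ' h1 h2]
      have hlr := hLR φ' h1 h2 a
      rw [Finset.mem_filter, mem_xs2 hp hζ L Q hG]
      refine ⟨⟨⟨tw_ft E hlr.ft (kc_ft hp hζ _), fun v hv hvT => ?_⟩,
        hlr.teqw hu h3⟩, ?_⟩
      · rw [Finset.mem_insert, not_or] at hvT
        rw [lr2_t E hp hζ hlr hu hv, if_neg hvT.1]
        unfold sv
        rw [dif_neg hvT.2]
      · rw [lr2_t E hp hζ hlr hu hu, if_pos rfl]
        unfold sv
        rw [dif_neg huT, mul_one]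
    · rintro ⟨φ', a⟩ hy ⟨φ'', a'⟩ hy' he
      rw [Finset.mem_filter, Finset.mem_product] at hy hy'
      obtain ⟨⟨h1, -⟩, h2, h3⟩ := hy
      obtain ⟨⟨h1', -⟩, h2', h3'⟩ := hy'
      dsimp only at h1 h2 h3 h1' h2' h3' he
      rw [er φ' h1 h2, er φ'' h1' h2'] at he
      have hlr := hLR φ' h1 h2 a
      have hlr' := hLR φ'' h1' h2' a'
      have e1 : φ' = φ'' := by
        rw [← lr2_pi E hlr (kc p ζ Ω (D.pi u)), he, lr2_pi E hlr']
      subst e1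
      have e2 : a = a' := by
        funext v
        have hv : v.1 ∉ D.S0 := hT v.1 v.2
        have hvu : v.1 ≠ u := fun h => huT (h ▸ v.2)
        have h4 := DFunLike.congr_fun he (L.t v.1)
        rw [lr2_t E hp hζ hlr hu hv, lr2_t E hp hζ hlr' hu hv, if_neg hvu, if_neg hvu] at h4
        unfold sv at h4
        rw [dif_pos v.2, dif_pos v.2] at h4
        exact i_inj E (mul_right_cancel h4)
      rw [e2]
    · intro φ hφ
      rw [Finset.mem_filter, mem_xs2 hp hζ L Q hG] at hφ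
      obtain ⟨⟨⟨h1, h2⟩, h3⟩, h4⟩ := hφ
      have hm : E.pi.comp φ ∈ XS2 L Q (fun v => E.pi.comp (τ v)) T := by
        rw [mem_xs2 hp hζ L Q hH]
        refine ⟨⟨H38.ML.ft_comp _ _ h1, fun v hv hvT => ?_⟩, fun v hv σ hσ => ?_⟩
        · rw [MonoidHom.comp_apply]
          by_cases hvu : v = u
          · rw [hvu, h4, hi1]
          · rw [h2 v hv (by rw [Finset.mem_insert, not_or]; exact ⟨hvu, hvT⟩), map_one]
        · rw [MonoidHom.comp_apply, MonoidHom.comp_apply, h3 v hv σ hσ]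
      have hL : Lc E L Fr T (E.pi.comp φ) := by
        intro v hvT
        have h5 := com2 hp hζ hz Fr hG h1 (hT v hvT)
        unfold br
        rw [MonoidHom.comp_apply, MonoidHom.comp_apply, ← E.d1_et, ← E.d1_et]
        unfold d1
        rw [h5]
        ring
      have hsv : ∀ v, v ∉ D.S0 → v ≠ u → φ (L.t v) =
          sv E L (E.pi.comp φ) T (fun v => E.et (φ (L.t v.1))) v := by
        intro v hv hvu
        unfold sv
        by_cases hvT : v ∈ T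
        · rw [dif_pos hvT]
          exact E.dec _
        · rw [dif_neg hvT, h2 v hv (by rw [Finset.mem_insert, not_or]; exact ⟨hvu, hvT⟩)]
      obtain ⟨h6, h7⟩ := huni (E.pi.comp φ) hm hL (fun v => E.et (φ (L.t v.1))) u hu huT φ h1 rfl
        hsv h4 h3
      refine ⟨(E.pi.comp φ, fun v => E.et (φ (L.t v.1))), ?_, ?_⟩
      · rw [Finset.mem_filter, Finset.mem_product]
        refine ⟨⟨hm, Finset.mem_univ _⟩, hL, ?_⟩
        dsimp only
        rw [ec _ hm hL]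
        exact h6
      · dsimp only
        rw [er _ hm hL]
        exact h7.symm
    · intro y _
      rfl

/-- the homomorphisms with trivial value at one more prime -/
theorem xs2_triv (hp : p.Prime) (hζ : IsPrimitiveRoot ζ p) {D : RD0 K p ζ} (L : LDs D Ω)
    (Q : DP K Ω) [Finite G] (hG : ∀ x : G, x ^ p ^ k = 1)
    (τ : Pl K → Gal(Ω/K) →* G) (T : Finset (Pl K))
    {u : Pl K} (X : (Gal(Ω/K) →* G) → ℂ)
    (hX : ∀ φ ∈ XS2 L Q τ (insert u T), X φ ≠ 0 → φ (L.t u) = 1) :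
    ∑ φ ∈ XS2 L Q τ (insert u T), X φ = ∑ φ ∈ XS2 L Q τ T, X φ := by
  symm
  refine Finset.sum_subset (fun φ hφ => ?_) fun φ hφ hφ' => ?_
  · rw [mem_xs2 hp hζ L Q hG] at hφ ⊢
    exact ⟨⟨hφ.1.1, fun v hv hvT => hφ.1.2 v hv fun h => hvT (Finset.mem_insert_of_mem h)⟩, hφ.2⟩
  · by_contra h
    have h1 := hX φ hφ h
    apply hφ'
    rw [mem_xs2 hp hζ L Q hG] at hφ ⊢
    refine ⟨⟨hφ.1.1, fun v hv hvT => ?_⟩, hφ.2⟩
    by_cases hvu : v = u
    · rw [hvu, h1]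
    · exact hφ.1.2 v hv (by rw [Finset.mem_insert, not_or]; exact ⟨hvu, hvT⟩)

end Pool.Agent.H19.A2
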