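import Pool.Agent.H19.A2.Chg2
import Pool.Agent.H19.A2.Fib2
import Pool.Agent.H19.ST.Exq

/-!
# H19-A2-EXQ2: the sum B1 over T and a new prime u

State `(b, w)`, `w = κ ∘ π + θ (ν ∪ et)` (`ν = 0` in the main case), a family `τ` of types. As H19/ST/Exq.
-/

set_option autoImplicit false
set_option linter.dupNamespace false

open scoped NumberField ComplexConjugate
open IsDedekindDomain
open scoped Classical

noncomputable section

namespace Pool.Agent.H19.A2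

open H63.MA H38.BG H57.PC H57.BRA H57.GP H77.PC3 H77.WD Pool.Agent.H19.NF
  Pool.Agent.H19.AB H86.AP H4.AP H77.WE H24.RK Pool.Agent.H19.ST

variable {K : Type} [Field K] [NumberField K] {Ω : Type} [Field Ω] [Algebra K Ω]
  [IsAlgClosure K Ω] {p m k : ℕ} {ζ : K} {P G H Qg : Type} [Group P] [Fintype P] [Group G]
  [Group H] [Group Qg]

/-- the value at one prime: the function of `x ∈ G` at `v ∈ T` -/
def gw2 [NeZero (p ^ m)] (E : CE p G H) (q : P →* G) (b : P → P → ZMod (p ^ m)) {D : RD0 K p ζ}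
    (L : LDs D Ω) (γ : Pl K → P) (φ' : Gal(Ω/K) →* H) (T : Finset (Pl K))
    (a : T → ZMod p) (v : Pl K) (x : G) : ℂ :=
  Vg q b (γ v) (sv E L φ' T a v) x

theorem exq2 [NeZero p] [NeZero (p ^ m)] [Finite G] (E : CE p G H) (hk : 0 < k) (hp : p.Prime)
    (hp2 : MOne p K) (hζ : IsPrimitiveRoot ζ p) (hz : Zn p (k + 1) K) (D : RD0 K p ζ)
    (L : LDs D Ω) (Q : DP K Ω) (Fr : FR L)
    (I : ((Gal(Ω/K) → Gal(Ω/K) → Gal(Ω/K) → ZMod (p ^ m)) ×
      (Pl K → Gal(Ω/K) → Gal(Ω/K) → ZMod (p ^ m))) →+ AddCircle (1 : ℝ))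
    (hG : ∀ x : G, x ^ p ^ k = 1) {rG : G →* Qg} {rH : H →* Qg} (hr : rH.comp E.pi = rG)
    (wt : (Gal(Ω/K) →* Qg) → ℂ) (q : P →* G) {τ : Pl K → Gal(Ω/K) →* P}
    (h₁ : ∀ v, H38.ML.FT (τ v)) {t : P} (hj : q t = E.i 1) (hq : Function.Surjective q)
    {b : P → P → ZMod (p ^ m)} {w : G → G → G → ZMod (p ^ m)}
    {κ : H → H → H → ZMod (p ^ m)} {ν : H → H → ZMod p} {θ : ZMod p →+ ZMod (p ^ m)}
    (hb : ∀ x y z, d2 b x y z = w (q x) (q y) (q z))
    (hw : ∀ x y z, w x y z = κ (E.pi x) (E.pi y) (E.pi z) +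
      θ (ν (E.pi x) (E.pi y) * E.et z)) (hκ : Nr3 κ) (hν : Nr2 ν)
    (T : Finset (Pl K)) (hT : ∀ v ∈ T, v ∉ D.S0) :
    ∃ (cR : (Gal(Ω/K) →* H) → (T → ZMod p) → Fin D.r → ZMod p)
      (ρR : (Gal(Ω/K) →* H) → (T → ZMod p) → (Gal(Ω/K) →* G)),
      (∀ φ' ∈ XS2 L Q (fun v => E.pi.comp (q.comp (τ v))) T, Lc E L Fr T φ' → ∀ a,
        LR2 E L Q (fun v => q.comp (τ v)) φ' (sv E L φ' T a) (cR φ' a) (ρR φ' a)) ∧
      ∀ (γ : Pl K → P) (u : Pl K), D.Gd u → u ∉ T →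
        B1 L Q Fr I rG wt τ q b w (insert u T) (Function.update γ u t) =
          ∑ φ' ∈ XS2 L Q (fun v => E.pi.comp (q.comp (τ v))) T, ∑ a : T → ZMod p,
            if Lc E L Fr T φ' ∧ D.q u = cR φ' a then
              wt (rH.comp φ') * (ec (JR D Q I b w τ (tw E (ρR φ' a) (kc p ζ Ω (D.pi u)))) *
                V2 E q b t (φ' (Fr.F u)) *
                ∏ v ∈ T, gw2 E q b L γ φ' T a v
                  (tw E (ρR φ' a) (kc p ζ Ω (D.pi u)) (Fr.F v))) else 0 := by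
  have hft : ∀ v, H38.ML.FT (q.comp (τ v)) := fun v => H38.ML.ft_comp _ _ (h₁ v)
  obtain ⟨cR, ρR, hLR, hfib⟩ := fib2 E hk hp hp2 hζ hz L Q Fr hG
    (fun v => q.comp (τ v)) hft T hT
  refine ⟨cR, ρR, hLR, fun γ u hu huT => ?_⟩
  have hcent : ∀ g : P, q g * E.i 1 = E.i 1 * q g := fun g => (E.cent 1 (q g)).symm
  unfold B1
  rw [hfib u hu.1 huT _ fun φ hφ hne => ?_]
  · refine Finset.sum_congr rfl fun φ' hφ' => Finset.sum_congr rfl fun a _ => ?_
    by_cases hc : Lc E L Fr T φ' ∧ D.q u = cR φ' a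
    · have hR := hLR φ' hφ' hc.1 a
      rw [if_pos hc, if_pos hc, ← hr, MonoidHom.comp_assoc, lr2_pi E hR, mul_assoc]
      congr 2
      rw [Finset.prod_insert huT]
      congr 1
      · rw [Function.update_self, lr2_t E hp hζ hR hu.1 hu.1, if_pos rfl]
        have e1 : sv E L φ' T a u = 1 := dif_neg huT
        rw [e1, mul_one, v2_eq E q hb hw hκ hν]
        congr 1
        exact DFunLike.congr_fun (lr2_pi E hR (kc p ζ Ω (D.pi u))) (Fr.F u)
      · refine Finset.prod_congr rfl fun v hv => ?_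
        have hvu : v ≠ u := fun h => huT (h ▸ hv)
        rw [Function.update_of_ne hvu, lr2_t E hp hζ hR hu.1 (hT v hv), if_neg hvu]
        rfl
    · rw [if_neg hc, if_neg hc]
  · have h1 : Vg q b (Function.update γ u t u) (φ (L.t u)) (φ (Fr.F u)) ≠ 0 :=
      Finset.prod_ne_zero_iff.1 (right_ne_zero_of_mul (right_ne_zero_of_mul hne)) u
        (Finset.mem_insert_self u T)
    rw [Function.update_self] at h1
    exact vb_j0 q hcent hj h1

end Pool.Agent.H19.A2
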