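import Pool.Agent.H19.A2.Mdt
import Pool.Agent.H19.ST.Cof

/-!
# H19-A2-GRP2: groups

* `onto2g`: a homomorphism to `H` which is onto modulo the images of the labels and meets the classes of all labels is onto.
* `xt_exp2`: the exponent of the extension. `Fx`: the function on the extension `Xt ν`; `fx_cls`, `fx_cent`.
* `cas2`: the two cases (as H19/ST/Cas, for a label `t` with `t ^ p = 1`).
-/

set_option autoImplicit false
set_option linter.dupNamespace false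

open scoped NumberField ComplexConjugate
open IsDedekindDomain
open scoped Classical

noncomputable section

namespace Pool.Agent.H19.A2

open H63.MA H38.BB H38.BG H57.PC H57.BRA H57.GP H77.PC3 H77.WD Pool.Agent.H19.NF
  Pool.Agent.H19.AB H86.AP H4.AP H77.WE Pool.Agent.H19.ST

theorem onto2g {p k N : ℕ} (hp : p.Prime) {Γ P H Qg : Type} [Group Γ] [Group P] [Group H]
    [Finite H] [Group Qg] (hH : ∀ x : H, x ^ p ^ k = 1) {q' : P →* H}
    (hq : Function.Surjective q') {rP : P →* Qg} {rH : H →* Qg} (hr : rH.comp q' = rP)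
    {g : Fin N → P} (hgen : ∀ S : Subgroup P, S.Normal → (∀ i, g i ∈ S) → rP.ker ≤ S)
    {φ : Γ →* H} (hs : Function.Surjective (rH.comp φ)) (h : ∀ j, ∃ σ, IsConj (φ σ) (q' (g j))) :
    Function.Surjective φ := by
  rw [← MonoidHom.range_eq_top]
  by_contra hR
  obtain ⟨f, hf, hfR⟩ := pg_char hp (fun x => ⟨k, hH x⟩ : IsPGroup p H) φ.range hR
  apply hf
  have h1 : rP.ker ≤ (f.comp q').ker := by
    refine hgen _ inferInstance fun i => ?_
    obtain ⟨σ, hσ⟩ := h i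
    obtain ⟨a, ha⟩ := isConj_iff.1 hσ
    rw [MonoidHom.mem_ker, MonoidHom.comp_apply, ← ha, map_mul, map_mul, map_inv,
      hfR _ ⟨σ, rfl⟩, mul_one, mul_inv_cancel]
  ext x
  obtain ⟨y, rfl⟩ := hq x
  obtain ⟨σ, hσ⟩ := hs (rP y)
  obtain ⟨z, hz⟩ := hq (φ σ)
  have h2 : rP z = rP y := by
    rw [← hσ, MonoidHom.comp_apply, ← hz, ← MonoidHom.comp_apply, hr]
  have h3 : y * z⁻¹ ∈ (f.comp q').ker := h1 (by
    rw [MonoidHom.mem_ker, map_mul, map_inv, h2, mul_inv_cancel])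
  rw [MonoidHom.mem_ker, MonoidHom.comp_apply, map_mul, map_mul, map_inv, map_inv, hz,
    hfR _ ⟨σ, rfl⟩, inv_one, mul_one] at h3
  rw [h3]
  rfl

theorem xt_exp2 {p k₀ : ℕ} {R : Type} [Group R] {e : R → R → ZMod p} (he : Coc p e)
    (hR : ∀ r : R, r ^ p ^ k₀ = 1) (x : Xt e he) : x ^ p ^ (k₀ + 1) = 1 := by
  rw [pow_succ, pow_mul]
  have h1 : (x ^ p ^ k₀).r = 1 := by
    rw [show x = ⟨x.r, x.z⟩ from rfl, pw_lift he x.r x.z]
    exact hR _
  have h2 : x ^ p ^ k₀ = ⟨1, (x ^ p ^ k₀).z⟩ := Xt.ext h1 rfl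
  rw [h2, pw_lift he 1 _ p]
  rw [Xt.ext_iff]
  refine ⟨one_pow p, ?_⟩
  show (p : ZMod p) * _ + ∑ k ∈ Finset.range p, e (1 ^ k) 1 = 0
  rw [Finset.sum_eq_zero (fun k _ => he.r1 _), add_zero, CharP.cast_eq_zero, zero_mul]

section fx

variable {p m : ℕ} {P G H : Type} [Group P] [Fintype P] [Group G] [Group H] [NeZero p]
  [NeZero (p ^ m)]

/-- the function on the extension -/
def Fx (E : CE p G H) (q : P →* G) (b : P → P → ZMod (p ^ m)) (t : P) {ν : H → H → ZMod p}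
    (he : Coc p ν) (x : Xt ν he) : ℂ := V2 E q b t x.r * ch p x.z

theorem fx_cls (E : CE p G H) (hp : p.Prime) (hm : 1 ≤ m) {q : P →* G}
    (hq : Function.Surjective q) {b : P → P → ZMod (p ^ m)}
    {w : G → G → G → ZMod (p ^ m)} {κ : H → H → H → ZMod (p ^ m)} {ν : H → H → ZMod p}
    (hb : ∀ x y z, d2 b x y z = w (q x) (q y) (q z))
    (hw : ∀ x y z, w x y z = κ (E.pi x) (E.pi y) (E.pi z) +
      tz p m (ν (E.pi x) (E.pi y) * E.et z)) (hκ : Nr3 κ) (hν : Coc p ν) (t : P)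
    (g x : Xt ν hν) : Fx E q b t hν (g * x * g⁻¹) = Fx E q b t hν x := by
  obtain ⟨h1, h2⟩ := xt_conj hν g x
  unfold Fx
  rw [h1, h2, v2_conj E hp hm hq hb hw hκ hν, mul_assoc, ← AddChar.map_add_eq_mul]
  congr 2
  ring

omit [NeZero (p ^ m)] in
theorem fx_cent [NeZero (p ^ m)] (E : CE p G H) (q : P →* G) (b : P → P → ZMod (p ^ m)) (t : P)
    {ν : H → H → ZMod p} (he : Coc p ν) (x : Xt ν he) (a : ZMod p) :
    Fx E q b t he (⟨1, a⟩ * x) = ch p a * Fx E q b t he x := by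
  have h1 : (⟨1, a⟩ * x : Xt ν he) = ⟨x.r, a + x.z⟩ := by
    rw [Xt.ext_iff]
    refine ⟨one_mul _, ?_⟩
    show a + x.z + ν 1 x.r = a + x.z
    rw [he.l1, add_zero]
  rw [h1]
  unfold Fx
  rw [AddChar.map_add_eq_mul]
  ring

end fx

end Pool.Agent.H19.A2
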