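import Pool.Agent.H19.A2.Jr
import Pool.Agent.H19.AB.Mf

/-!
# H19-A2-LIF2: lifts over a central extension by `ZMod p`, the types at `S0` given by a family `τ`

As H19/AB/Lif: `lift_one2`, `lift_ex2`, the record `LR2`, `lr_ex2`.
-/

set_option autoImplicit false
set_option linter.dupNamespace false

open scoped NumberField
open IsDedekindDomain
open scoped Classical

noncomputable section

namespace Pool.Agent.H19.A2

open H63.MA H38.BB H38.BG H57.PC H57.BRA H89.BRG H48.MF H24.RK Pool.Agent.H19.NF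
  Pool.Agent.H19.AB

variable {K : Type} [Field K] [NumberField K] {Ω : Type} [Field Ω] [Algebra K Ω]
  [IsAlgClosure K Ω] {p k : ℕ} {ζ : K} {G H : Type} [Group G] [Group H] (E : CE p G H)

/-- the types at `S` are given by the family `τ` -/
def TeF (S : Finset (Pl K)) (Q : DP K Ω) (φ : Gal(Ω/K) →* G) (τ : Pl K → Gal(Ω/K) →* G) : Prop :=
  ∀ v ∈ S, ∀ σ ∈ dec (K := K) (Q.P v), φ σ = τ v σ

/-- a lift with given values at the `t_v` -/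
theorem lift_one2 (hk : 0 < k) (hp : p.Prime) (hp2 : MOne p K) (hζ : IsPrimitiveRoot ζ p)
    (hz : Zn p (k + 1) K)
    {D : RD0 K p ζ} {L : LDs D Ω} (Q : DP K Ω) (Fr : FR L) [Finite G]
    {τ : Pl K → Gal(Ω/K) →* G} (h₁ : ∀ v, H38.ML.FT (τ v)) {φ' : Gal(Ω/K) →* H}
    (h' : H38.ML.FT φ') (ht' : Tmk k L φ') (hT : TeF D.S0 Q φ' fun v => E.pi.comp (τ v)) (T : Finset (Pl K)) (s : Pl K → G)
    (hs : ∀ v, v ∉ D.S0 → E.pi (s v) = φ' (L.t v)) (hs1 : ∀ v, v ∉ D.S0 → v ∉ T → s v = 1)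
    (hbr : ∀ v ∈ T, br E.ee (φ' (L.t v)) (φ' (Fr.F v)) = 0) :
    ∃ ρ : Gal(Ω/K) →* G, H38.ML.FT ρ ∧ E.pi.comp ρ = φ' ∧ ∀ v, v ∉ D.S0 → ρ (L.t v) = s v := by
  have hH : Finite H := fin_H E
  have hTv : Tv (pb E.ee φ') := by
    refine brg1K hk hp hp2 hζ hz (L := L) Q Fr (ee_coc E) h' (fun v hv => ?_)
      ht' (fun v hv => ?_)
    · obtain ⟨F, hF, h1⟩ := h₁ v
      refine ⟨fun σ => -E.et (τ v σ), ⟨F, hF, fun σ u hu => ?_⟩, fun σ hσ υ hυ => ?_⟩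
      · have h2 : τ v u = 1 := MonoidHom.mem_ker.1 (h1 hu)
        show -E.et (τ v (σ * u)) = -E.et (τ v σ)
        rw [map_mul, h2, mul_one]
      · show -E.et (τ v (σ * υ)) = -E.et (τ v σ) + -E.et (τ v υ) + E.ee (φ' σ) (φ' υ)
        rw [hT v hv σ hσ, hT v hv υ hυ, map_mul, MonoidHom.comp_apply, MonoidHom.comp_apply,
          ← E.d1_et]
        unfold d1
        ring
    · unfold iv
      by_cases hvT : v ∈ T
      · have h2 := hbr v hvT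
        unfold br at h2
        linear_combination -h2
      · rw [← hs v hv, hs1 v hv hvT, map_one, (ee_coc E).l1, (ee_coc E).r1, sub_zero]
  obtain ⟨l, ⟨F, hF, hl1⟩, hl2⟩ := hTv
  have hl2' : ∀ σ τ, l (σ * τ) = l σ + l τ + E.ee (φ' σ) (φ' τ) := hl2
  have hl0 : l 1 = 0 := by
    have h := hl2' 1 1
    rw [map_one, (ee_coc E).l1, add_zero, mul_one] at h
    linear_combination -h
  let ρ₀ : Gal(Ω/K) →* G := MonoidHom.mk' (fun σ => E.i (-l σ) * E.s (φ' σ)) (by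
    intro σ τ
    rw [hl2', map_mul, mul_assoc, ← mul_assoc (E.s _), ← E.cent, mul_assoc, s_mul, ← mul_assoc,
      ← mul_assoc, ← E.i_add, ← E.i_add]
    congr 2
    ring)
  have hρ₀ : ∀ σ, ρ₀ σ = E.i (-l σ) * E.s (φ' σ) := fun _ => rfl
  have hπ : E.pi.comp ρ₀ = φ' := by
    ext σ
    rw [MonoidHom.comp_apply, hρ₀, E.pi_mul, E.pi_s]
  have hft : H38.ML.FT ρ₀ := by
    obtain ⟨F', hF', h1⟩ := h'
    refine ⟨F ⊔ F', IntermediateField.finiteDimensional_sup _ _, fun u hu => ?_⟩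
    have h2 : u ∈ F.fixingSubgroup := IntermediateField.fixingSubgroup_antitone le_sup_left hu
    have h3 : φ' u = 1 := MonoidHom.mem_ker.1
      (h1 (IntermediateField.fixingSubgroup_antitone le_sup_right hu))
    have h4 : l u = 0 := by
      have := hl1 1 u h2
      rw [one_mul] at this
      rw [this, hl0]
    rw [MonoidHom.mem_ker, hρ₀, h3, h4, neg_zero, E.i_zero, E.s_one, one_mul]
  -- correction
  obtain ⟨T', hT'1, hT'2⟩ := ts_supp hp L hft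
  have hn : ∀ v, v ∉ D.S0 → s v = E.i (E.et (s v) - E.et (ρ₀ (L.t v))) * ρ₀ (L.t v) := by
    intro v hv
    refine pi_eq E ?_
    rw [hs v hv]
    exact (DFunLike.congr_fun hπ (L.t v)).symm
  set n : Pl K → ZMod p := fun v => E.et (s v) - E.et (ρ₀ (L.t v)) with hndef
  have hn0 : ∀ v, v ∉ D.S0 → v ∉ T ∪ T' → n v = 0 := by
    intro v hv hvT
    rw [Finset.mem_union, not_or] at hvT
    show E.et (s v) - E.et (ρ₀ (L.t v)) = 0
    rw [hs1 v hv hvT.1, hT'2 v hv hvT.2, sub_self]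
  set T'' := (T ∪ T').filter fun v => v ∉ D.S0 with hT''
  set b : Kˣ := ∏ v ∈ T'', D.pi v ^ (n v).val with hb
  have hp0 : NeZero p := ⟨hp.ne_zero⟩
  have hkb : ∀ v, v ∉ D.S0 → kk p ζ b (L.t v) = n v := by
    intro v hv
    rw [hb, kk_prod_arg hp hζ]
    have h5 : ∀ u ∈ T'', kk p ζ (D.pi u ^ (n u).val) (L.t v) = if u = v then n v else 0 := by
      intro u hu
      have hu0 : u ∉ D.S0 := (Finset.mem_filter.1 hu).2
      rw [← zpow_natCast, kk_zpow_arg hp hζ, Int.cast_natCast, ZMod.natCast_zmod_val]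
      by_cases huv : u = v
      · rw [if_pos huv, (kk_pi hp hζ D L u v hu0 hv).1 huv, mul_one, huv]
      · rw [if_neg huv, (kk_pi hp hζ D L u v hu0 hv).2 huv, mul_zero]
    rw [Finset.sum_congr rfl h5, Finset.sum_ite_eq']
    by_cases hvT : v ∈ T''
    · rw [if_pos hvT]
    · rw [if_neg hvT]
      symm
      refine hn0 v hv fun h6 => hvT ?_
      rw [hT'', Finset.mem_filter]
      exact ⟨h6, hv⟩
  refine ⟨tw E ρ₀ (kc p ζ Ω b), tw_ft E hft (kc_ft hp hζ b), by rw [tw_pi, hπ], fun v hv => ?_⟩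
  rw [tw_apply]
  have h7 : Multiplicative.toAdd (kc p ζ Ω b (L.t v)) = n v := hkb v hv
  rw [h7]
  exact (hn v hv).symm

theorem lift_ex2 (hk : 0 < k) (hp : p.Prime) (hp2 : MOne p K) (hζ : IsPrimitiveRoot ζ p)
    (hz : Zn p (k + 1) K)
    {D : RD0 K p ζ} {L : LDs D Ω} (Q : DP K Ω) (Fr : FR L) [Finite G]
    {τ : Pl K → Gal(Ω/K) →* G} (h₁ : ∀ v, H38.ML.FT (τ v)) {φ' : Gal(Ω/K) →* H}
    (h' : H38.ML.FT φ') (ht' : Tmk k L φ') (hT : TeF D.S0 Q φ' fun v => E.pi.comp (τ v)) (T : Finset (Pl K)) (s : Pl K → G)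
    (hs : ∀ v, v ∉ D.S0 → E.pi (s v) = φ' (L.t v)) (hs1 : ∀ v, v ∉ D.S0 → v ∉ T → s v = 1)
    (hbr : ∀ v ∈ T, br E.ee (φ' (L.t v)) (φ' (Fr.F v)) = 0) :
    ∃ (c : Fin D.r → ZMod p) (ρ : Gal(Ω/K) →* G), H38.ML.FT ρ ∧ E.pi.comp ρ = φ' ∧
      (∀ v, v ∉ D.S0 → ρ (L.t v) = s v) ∧
      (∀ x : Kˣ, qs D x = c → TeF D.S0 Q (tw E ρ (kc p ζ Ω (pf D x))) τ) ∧
      ∀ w, w ∉ D.S0 → w ∉ T → ∀ φ : Gal(Ω/K) →* G, H38.ML.FT φ → E.pi.comp φ = φ' →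
        (∀ v, v ∉ D.S0 → v ≠ w → φ (L.t v) = s v) → φ (L.t w) = E.i 1 → TeF D.S0 Q φ τ →
          D.q w = c ∧ φ = tw E ρ (kc p ζ Ω (D.pi w)) := by
  obtain ⟨ρ₁, r1, r2, r3⟩ := lift_one2 E hk hp hp2 hζ hz Q Fr h₁ h' ht' hT T s hs hs1 hbr
  have hπ₁ : ∀ v ∈ D.S0, ∀ σ ∈ dec (K := K) (Q.P v), E.pi (τ v σ) = E.pi (ρ₁ σ) := by
    intro v hv σ hσ
    have h2 := hT v hv σ hσ
    rw [← r2] at h2
    exact h2.symm
  let δ : (v : Pl K) → dec (K := K) (Q.P v) →* Multiplicative (ZMod p) := fun v =>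
    if hv : v ∈ D.S0 then dif E ((τ v).comp (Subgroup.subtype _)) (ρ₁.comp (Subgroup.subtype _))
      (fun σ => hπ₁ v hv σ.1 σ.2) else 1
  have hδ : ∀ v (hv : v ∈ D.S0) (u : dec (K := K) (Q.P v)),
      Multiplicative.toAdd (δ v u) = E.et (τ v u.1) - E.et (ρ₁ u.1) := by
    intro v hv u
    show Multiplicative.toAdd ((if hv : v ∈ D.S0 then _ else 1 :
      dec (K := K) (Q.P v) →* Multiplicative (ZMod p)) u) = _
    rw [dif_pos hv]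
    rfl
  obtain ⟨b, hb⟩ := lock hp hζ D.S0 Q δ (fun v hv => by
    obtain ⟨F, hF, h1⟩ := ft_prod (h₁ v) r1
    refine ⟨F, hF, fun u hu => ?_⟩
    have h2 : ((τ v).prod ρ₁) u.1 = 1 := MonoidHom.mem_ker.1 (h1 hu)
    have h3 : τ v u.1 = 1 := congrArg Prod.fst h2
    have h4 : ρ₁ u.1 = 1 := congrArg Prod.snd h2
    have h5 := hδ v hv u
    rw [h3, h4, sub_self] at h5
    exact Multiplicative.toAdd.injective h5)
  have hb' : ∀ v ∈ D.S0, ∀ σ ∈ dec (K := K) (Q.P v), τ v σ = E.i (kk p ζ b σ) * ρ₁ σ := by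
    intro v hv σ hσ
    have h2 := hb v hv ⟨σ, hσ⟩
    rw [hδ v hv] at h2
    show τ v σ = E.i (kk p ζ b σ) * ρ₁ σ
    have h3 : kk p ζ b σ = E.et (τ v σ) - E.et (ρ₁ σ) := h2
    rw [h3]
    exact pi_eq E (hπ₁ v hv σ hσ)
  -- the unit
  set ε : Kˣ := b * (pf D b)⁻¹ with hε
  have hεo : ∀ v, v ∉ D.S0 → ord v ε = 0 := by
    intro v hv
    rw [hε, ord_mul, ord_inv, ord_pf D b hv, add_neg_cancel]
  set ρ : Gal(Ω/K) →* G := tw E ρ₁ (kc p ζ Ω ε) with hρ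
  have hρa : ∀ σ, ρ σ = E.i (kk p ζ ε σ) * ρ₁ σ := fun σ => rfl
  have hρft : H38.ML.FT ρ := tw_ft E r1 (kc_ft hp hζ ε)
  have hρt : ∀ v, v ∉ D.S0 → ρ (L.t v) = s v := by
    intro v hv
    rw [hρa, kk_t hp hζ L hv, hεo v hv, Int.cast_zero, E.i_zero, one_mul, r3 v hv]
  have hexx : ∀ x : Kˣ, qs D x = qs D b → TeF D.S0 Q (tw E ρ (kc p ζ Ω (pf D x))) τ := by
    intro x hq v hv σ hσ
    have h2 : qs D (x * b⁻¹) = 0 := by
      rw [qs_mul, qs_inv, hq, add_neg_cancel]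
    have h3 := ps_triv hp hp2 hζ D Q _ (ps_pf D h2) v hv σ hσ
    rw [pf_mul, pf_inv] at h3
    have h4 : pf D x * ε = b * (pf D x * (pf D b)⁻¹) := by
      rw [hε, mul_left_comm]
    have h5 : kk p ζ (pf D x) σ + kk p ζ ε σ = kk p ζ b σ := by
      rw [← kk_mul_arg hp hζ, h4, kk_mul_arg hp hζ, h3, add_zero]
    rw [hb' v hv σ hσ, tw_apply, hρa, ← mul_assoc, ← E.i_add, ← h5]
    rfl
  have hex : ∀ w, w ∉ D.S0 → D.q w = qs D b → TeF D.S0 Q (tw E ρ (kc p ζ Ω (D.pi w))) τ := by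
    intro w hw hq
    have h2 := hexx (D.pi w) (by rw [qs_pi D hw, hq])
    rwa [pf_pi D hw] at h2
  refine ⟨qs D b, ρ, hρft, by rw [hρ, tw_pi, r2], hρt, hexx, ?_⟩
  intro w hw hwT φ hφ hφπ hφt hφw hφT
  have hπ : ∀ σ, E.pi (φ σ) = E.pi (ρ σ) := by
    intro σ
    have h2 : E.pi.comp φ = E.pi.comp ρ := by rw [hφπ, hρ, tw_pi, r2]
    exact DFunLike.congr_fun h2 σ
  obtain ⟨a, ha⟩ := kc_all hp hζ (dif E φ ρ hπ) (dif_ft E hφ hρft hπ)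
  have hφa : ∀ σ, φ σ = E.i (kk p ζ a σ) * ρ σ := by
    intro σ
    have h2 := DFunLike.congr_fun (dif_tw E φ ρ hπ) σ
    rw [ha] at h2
    exact h2
  have hao : ∀ v, v ∉ D.S0 → (ord v a : ZMod p) = if v = w then 1 else 0 := by
    intro v hv
    rw [← kk_t hp hζ L hv]
    have h2 := hφa (L.t v)
    rw [hρt v hv] at h2
    apply i_inj E
    by_cases hvw : v = w
    · rw [if_pos hvw]
      rw [hvw] at h2 ⊢
      rw [hφw, hs1 w hw hwT, mul_one] at h2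
      exact h2.symm
    · rw [if_neg hvw, E.i_zero]
      rw [hφt v hv hvw] at h2
      exact (right_eq_mul.1 h2)
  have hq : D.q w = qs D b := by
    have h2 : qs D (a * ε * b⁻¹) = 0 := by
      refine q0 hp hζ D Q _ fun v hv σ hσ => ?_
      have h3 := hφT v hv σ hσ
      rw [hφa, hρa, hb' v hv σ hσ, ← mul_assoc, ← E.i_add, mul_left_inj] at h3
      have h4 := i_inj E h3
      have h5 : kk p ζ (a * ε) σ = kk p ζ (a * ε * b⁻¹) σ + kk p ζ b σ := by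
        rw [← kk_mul_arg hp hζ, inv_mul_cancel_right]
      rw [kk_mul_arg hp hζ, h4] at h5
      linear_combination -h5
    rw [qs_mul, qs_mul, qs_inv, qs_single D hao hw,
      qs_unit D (x := ε) (fun v hv => by rw [hεo v hv, Int.cast_zero]), add_zero] at h2
    exact eq_of_sub_eq_zero (by rw [sub_eq_add_neg]; exact h2)
  refine ⟨hq, lift_uni E hp hζ L Q hφ (tw_ft E hρft (kc_ft hp hζ _)) (fun σ => ?_) (fun v hv => ?_)
    (fun v hv σ hσ => ?_)⟩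
  · rw [hπ]
    exact (DFunLike.congr_fun (tw_pi E ρ (kc p ζ Ω (D.pi w))) σ).symm
  · rw [hφa, tw_apply]
    congr 2
    show kk p ζ a (L.t v) = kk p ζ (D.pi w) (L.t v)
    rw [kk_t hp hζ L hv, kk_t hp hζ L hv, hao v hv]
    by_cases hvw : v = w
    · rw [if_pos hvw, hvw, D.pi_self w hw, Int.cast_one]
    · rw [if_neg hvw, D.pi_ne w v hw hv hvw, Int.cast_zero]
  · rw [hφT v hv σ hσ, hex w hw hq v hv σ hσ]

/-- the record of the lifts of `φ'` with the values `s` -/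
structure LR2 {D : RD0 K p ζ} (E : CE p G H) (L : LDs D Ω) (Q : DP K Ω)
    (τ : Pl K → Gal(Ω/K) →* G) (φ' : Gal(Ω/K) →* H) (s : Pl K → G) (c : Fin D.r → ZMod p)
    (ρ : Gal(Ω/K) →* G) : Prop where
  ft : H38.ML.FT ρ
  pi : E.pi.comp ρ = φ'
  t : ∀ v, v ∉ D.S0 → ρ (L.t v) = s v
  teq : ∀ x : Kˣ, qs D x = c → TeF D.S0 Q (tw E ρ (kc p ζ Ω (pf D x))) τ

omit [IsAlgClosure K Ω] in
variable {E} in
theorem LR2.teqw {D : RD0 K p ζ} {L : LDs D Ω} {Q : DP K Ω}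
    {τ : Pl K → Gal(Ω/K) →* G} {φ' : Gal(Ω/K) →* H} {s : Pl K → G} {c : Fin D.r → ZMod p}
    {ρ : Gal(Ω/K) →* G} (h : LR2 E L Q τ φ' s c ρ) {w : Pl K} (hw : w ∉ D.S0) (hq : D.q w = c) :
    TeF D.S0 Q (tw E ρ (kc p ζ Ω (D.pi w))) τ := by
  have h2 := h.teq (D.pi w) (by rw [qs_pi D hw, hq])
  rwa [pf_pi D hw] at h2

theorem lr_ex2 (hk : 0 < k) (hp : p.Prime) (hp2 : MOne p K) (hζ : IsPrimitiveRoot ζ p)
    (hz : Zn p (k + 1) K) {D : RD0 K p ζ} {L : LDs D Ω} (Q : DP K Ω) (Fr : FR L) [Finite G]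
    {τ : Pl K → Gal(Ω/K) →* G} (h₁ : ∀ v, H38.ML.FT (τ v)) {φ' : Gal(Ω/K) →* H}
    (h' : H38.ML.FT φ') (ht' : Tmk k L φ') (hT : TeF D.S0 Q φ' fun v => E.pi.comp (τ v))
    (T : Finset (Pl K)) (s : Pl K → G)
    (hs : ∀ v, v ∉ D.S0 → E.pi (s v) = φ' (L.t v)) (hs1 : ∀ v, v ∉ D.S0 → v ∉ T → s v = 1)
    (hbr : ∀ v ∈ T, br E.ee (φ' (L.t v)) (φ' (Fr.F v)) = 0) :
    ∃ (c : Fin D.r → ZMod p) (ρ : Gal(Ω/K) →* G), LR2 E L Q τ φ' s c ρ ∧
      ∀ w, w ∉ D.S0 → w ∉ T → ∀ φ : Gal(Ω/K) →* G, H38.ML.FT φ → E.pi.comp φ = φ' →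
        (∀ v, v ∉ D.S0 → v ≠ w → φ (L.t v) = s v) → φ (L.t w) = E.i 1 → TeF D.S0 Q φ τ →
          D.q w = c ∧ φ = tw E ρ (kc p ζ Ω (D.pi w)) := by
  obtain ⟨c, ρ, h1, h2, h3, h4, h5⟩ :=
    lift_ex2 E hk hp hp2 hζ hz Q Fr h₁ h' ht' hT T s hs hs1 hbr
  exact ⟨c, ρ, ⟨h1, h2, h3, h4⟩, h5⟩

end Pool.Agent.H19.A2
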