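import Pool.Agent.H57.RQ.Rec
import Pool.Agent.H19.AB.Leq

/-!
# H19-A2-LO: the constants of the reciprocity law are `1`

`Ro p` (the law of order `p` with weights `1`, H57/RQ) gives `D.lam v = 1` for all `v ∉ D.S0`, for every `D : RD K p ζ` (hypothesis `hl1` of the step theorem of AP2).
`prim_pk`: an element which is locally primary above `p` is a local `p`-th power to any precision (`p` odd; `dp_pk`, weak approximation).
-/

set_option autoImplicit false
set_option linter.dupNamespace false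

open scoped NumberField
open IsDedekindDomain
open scoped Classical

noncomputable section

namespace Pool.Agent.H19.A2

open H63.MA H38.BB H38.BG H57.PC H57.BRA H57.RQ Pool.Agent.H19.AB

variable {K : Type} [Field K] [NumberField K] {p : ℕ} {ζ : K}

theorem prim_pk (hp : p.Prime) (hp2 : p ≠ 2) {c : Kˣ} (h : Prim p c) : Pk p 1 c := by
  have hpK : (p : K) ≠ 0 := by exact_mod_cast hp.ne_zero
  choose! y hy using h
  obtain ⟨x, hx⟩ := weak_approx ((finite_above (K := K) hp.ne_zero).toFinset) y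
    (fun v => v.valuation K ((p : K) ^ 2)) (by
      intro v _
      rw [Valuation.ne_zero_iff]
      exact pow_ne_zero 2 hpK)
  have hd : Dp p (1 + 1) (c * (x ^ p)⁻¹) := by
    intro v hv
    have h1 := hx v (by rwa [Set.Finite.mem_toFinset])
    have h2 := hy v hv
    have h3 : v.valuation K ((p : K) ^ 2) ≤ 1 := by
      rw [map_pow]
      exact pow_le_one₀ zero_le' ((above_iff p v).1 hv).le
    have key : ∀ a b : Kˣ, v.valuation K ((a : K) - 1) < v.valuation K ((p : K) ^ 2) →
        v.valuation K ((b : K) - 1) < v.valuation K ((p : K) ^ 2) →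
        v.valuation K (((a * b⁻¹ : Kˣ) : K) - 1) < v.valuation K ((p : K) ^ 2) := by
      intro a b ha hb
      have hb1 : v.valuation K (b : K) = 1 := by
        have h4 : v.valuation K (1 : K) = 1 := map_one _
        have h5 : (b : K) = 1 + ((b : K) - 1) := by ring
        rw [h5, Valuation.map_add_eq_of_lt_left _ (by rw [h4]; exact lt_of_lt_of_le hb h3), h4]
      have h6 : ((a * b⁻¹ : Kˣ) : K) - 1 = (((a : K) - 1) - ((b : K) - 1)) * (b : K)⁻¹ := by
        rw [Units.val_mul, Units.val_inv_eq_inv_val]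
        have := b.ne_zero
        field_simp
        ring
      rw [h6, map_mul, map_inv₀, hb1, inv_one, mul_one]
      exact lt_of_le_of_lt (Valuation.map_sub _ _ _) (max_lt ha hb)
    have hpw : ∀ (n : ℕ) (a : Kˣ), v.valuation K ((a : K) - 1) < v.valuation K ((p : K) ^ 2) →
        v.valuation K (((a ^ n : Kˣ) : K) - 1) < v.valuation K ((p : K) ^ 2) := by
      intro n a ha
      have hinv : v.valuation K (((a⁻¹ : Kˣ) : K) - 1) < v.valuation K ((p : K) ^ 2) := by
        have h7 := key 1 a (by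
          rw [Units.val_one, sub_self, map_zero]
          rw [zero_lt_iff]
          rw [Valuation.ne_zero_iff]
          exact pow_ne_zero 2 hpK) ha
        rwa [one_mul] at h7
      induction n with
      | zero =>
        rw [pow_zero, Units.val_one, sub_self, map_zero, zero_lt_iff, Valuation.ne_zero_iff]
        exact pow_ne_zero 2 hpK
      | succ n ih =>
        have h8 := key (a ^ n) a⁻¹ ih hinv
        rwa [inv_inv, ← pow_succ] at h8
    have h9 := key _ _ h2 (hpw p _ h1)
    have h10 : c * (y v ^ p)⁻¹ * ((x * (y v)⁻¹) ^ p)⁻¹ = c * (x ^ p)⁻¹ := by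
      rw [mul_pow, mul_inv, inv_pow, inv_inv]
      rw [mul_assoc, mul_comm (x ^ p)⁻¹, inv_mul_cancel_left]
    rw [h10] at h9
    exact h9
  have h1 := dp_pk hp hp2 hd
  intro v hv n
  obtain ⟨z, hz⟩ := h1 v hv n
  refine ⟨x * z, ?_⟩
  have h11 : c * ((x * z) ^ p ^ 1)⁻¹ = c * (x ^ p)⁻¹ * (z ^ p ^ 1)⁻¹ := by
    rw [pow_one, mul_pow, mul_inv, mul_assoc]
  rw [h11]
  exact hz

theorem isrec_one (hp : p.Prime) (hM : MOne p K) (hζ : IsPrimitiveRoot ζ p) (hR : Ro p)
    (hPk : ∀ c : Kˣ, Prim p c → Pk p 1 c) :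
    IsRec p ζ fun v : Pl K => if Above p v then 0 else 1 := by
  obtain ⟨lam, hlam, -⟩ := exists_rec_one K hp hM hζ
  refine ⟨fun v hv => if_pos hv, fun c hc x => ?_, fun c hc hn => ?_⟩
  · have h1 := hR K ζ hζ c (hPk c hc) x
    refine (finsum_congr fun v => ?_).trans h1
    unfold b1
    split_ifs
    · rw [zero_mul]
    · rw [one_mul]
  · obtain ⟨v, h1, h2⟩ := hlam.non c hc hn
    refine ⟨v, ?_, h2⟩
    have hv : ¬ Above p v := fun h => h1 (hlam.above v h)
    have hF : Fact (1 < p) := ⟨hp.one_lt⟩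
    beta_reduce
    rw [if_neg hv]
    exact one_ne_zero

variable {Ω : Type} [Field Ω] [Algebra K Ω] [IsAlgClosure K Ω]

theorem lam_one_of (hp : p.Prime) (hM : MOne p K) (hζ : IsPrimitiveRoot ζ p) (hR : Ro p)
    (hPk : ∀ c : Kˣ, Prim p c → Pk p 1 c) (hz : H57.BRA.Z2 p K) (D : RD K p ζ)
    (L : LDs D.toRD0 Ω) (Q : DP K Ω) (Fr : FR L) (v : Pl K) (hv : v ∉ D.S0) : D.lam v = 1 := by
  have h : ∀ v, v ∉ D.S0 → (if Above p v then (0 : ZMod p) else 1) = 1 := fun v hv =>
    if_neg fun h => hv (D.above v h)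
  rw [← lam_eq hp hM hζ hz D L Q Fr (isrec_one hp hM hζ hR hPk) (fun v hv => h v hv.1) hv]
  exact h v hv

theorem lam_one (hp : p.Prime) (hp2 : p ≠ 2) (hζ : IsPrimitiveRoot ζ p)
    (hz : H57.BRA.Z2 p K) (D : RD K p ζ) (L : LDs D.toRD0 Ω) (Q : DP K Ω) (Fr : FR L) (v : Pl K)
    (hv : v ∉ D.S0) : D.lam v = 1 :=
  lam_one_of hp (mone_odd hp hp2 K) hζ (ro hp hp2) (fun _ h => prim_pk hp hp2 h) hz D L Q Fr v hv

end Pool.Agent.H19.A2
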