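import Pool.Agent.H19.A2.Jr

/-!
# H19-A2-MDT: functions with mean values zero with explicit data

`Mn2H`: the data of `Mn2`. `mn2h_sum`: sums. `mn2_of`.
-/

set_option autoImplicit false
set_option linter.dupNamespace false

open scoped NumberField ComplexConjugate
open IsDedekindDomain
open scoped Classical

noncomputable section

namespace Pool.Agent.H19.A2

open H63.MA H38.BB H38.BG H57.PC H57.BRA H57.GP H77.PC3 H77.WD Pool.Agent.H19.NF
  Pool.Agent.H19.AB H86.AP H77.WE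

variable {K : Type} [Field K] [NumberField K] {Ω : Type} [Field Ω] [Algebra K Ω]
  {p N : ℕ} {ζ : K}

/-- the data of `Mn2` -/
def Mn2H (k : ℕ) {D : RD0 K p ζ} (L : LDs D Ω) (Fr : FR L) {P : Type} [Group P] (c : CL p N P)
    (j₀ : Fin N) (H : Type) [Group H] [Fintype H] (F : H → ℂ) (C : ℝ)
    (X : Finset (Pl K) → (Pl K → P) → ℂ) : Prop :=
  (∀ h : H, h ^ p ^ k = 1) ∧ (∀ g h : H, F (g * h * g⁻¹) = F h) ∧ 1 ≤ C ∧
    ∀ (T : Finset (Pl K)) (γ : Pl K → P), (∀ v ∈ T, v ∉ D.S0) →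
      ∃ co : (Gal(Ω/K) →* H) → ℂ, (∀ Θ, ‖co Θ‖ ≤ C ^ (T.card + 1)) ∧
        (∀ Θ, co Θ ≠ 0 → (∀ j, j ≠ j₀ → ∃ v ∈ T, γ v = c.g j) → mr Θ F = 0) ∧
        ∀ u, D.Gd u → u ∉ T →
          X (insert u T) (Function.update γ u (c.g j₀)) = Ev2 L Fr H F T co u

theorem mn2_of {k : ℕ} {D : RD0 K p ζ} {L : LDs D Ω} {Fr : FR L} {P : Type} [Group P]
    {c : CL p N P} {j₀ : Fin N} {H : Type} [iG : Group H] [iF : Fintype H] {F : H → ℂ} {C : ℝ}
    {X : Finset (Pl K) → (Pl K → P) → ℂ} (h : Mn2H k L Fr c j₀ H F C X) : Mn2 k L Fr c j₀ X :=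
  ⟨H, iG, iF, F, C, h⟩

theorem mn2h_sum {k : ℕ} {D : RD0 K p ζ} {L : LDs D Ω} {Fr : FR L} {P : Type} [Group P]
    {c : CL p N P} {j₀ : Fin N} {H : Type} [Group H] [Fintype H] {F : H → ℂ} {C : ℝ}
    {ι : Type} [Fintype ι] [Nonempty ι] {X : ι → Finset (Pl K) → (Pl K → P) → ℂ}
    (h : ∀ i, Mn2H k L Fr c j₀ H F C (X i)) :
    Mn2H k L Fr c j₀ H F (Fintype.card ι * C) fun T γ => ∑ i, X i T γ := by
  obtain ⟨i₀⟩ := ‹Nonempty ι›
  obtain ⟨h1, h2, h3, -⟩ := h i₀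
  have hc1 : (1 : ℝ) ≤ Fintype.card ι := by
    haveI : Nonempty ι := ⟨i₀⟩
    exact_mod_cast Fintype.card_pos
  refine ⟨h1, h2, one_le_mul_of_one_le_of_one_le hc1 h3, fun T γ hT => ?_⟩
  choose co h4 h5 h6 using fun i => (h i).2.2.2 T γ hT
  refine ⟨fun Θ => ∑ i, co i Θ, fun Θ => ?_, fun Θ hΘ hj => ?_, fun u hu huT => ?_⟩
  · refine (norm_sum_le _ _).trans ((Finset.sum_le_sum fun i _ => h4 i Θ).trans ?_)
    rw [Finset.sum_const, Finset.card_univ, nsmul_eq_mul, mul_pow]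
    refine mul_le_mul_of_nonneg_right ?_ (by positivity)
    exact le_self_pow₀ hc1 (Nat.succ_ne_zero _)
  · obtain ⟨i, -, hi⟩ := Finset.exists_ne_zero_of_sum_ne_zero hΘ
    exact h5 i Θ hi hj
  · show ∑ i, X i (insert u T) (Function.update γ u (c.g j₀)) = _
    rw [Finset.sum_congr rfl fun i _ => h6 i u hu huT]
    unfold Ev2
    rw [Finset.sum_comm]
    refine Finset.sum_congr rfl fun Θ _ => ?_
    rw [Finset.sum_mul]

end Pool.Agent.H19.A2
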