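import Pool.Agent.H19.A2.Exq2
import Pool.Agent.H19.A2.Bet2
import Pool.Agent.H19.A2.Grp2
import Pool.Agent.H19.ST.Mnc
import Pool.Agent.H4.A2.Mnt

/-!
# [H19 A2 MNC2] the main case of the step theorem of AP2 (for one family of types)

State `(b, w' ∘ π)` on `G`, `θ = tz`, `F2` as in H4/AP/Me. As H19/ST/Mnc with `B1` (weight `wt`, family of types `τ`), `D.lam = 1`, no base homomorphism: `κ_β = p^(-r)`.
`onto2g` (H19/A2/Grp2) instead of `jor`.
-/

set_option autoImplicit false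
set_option linter.dupNamespace false

open scoped NumberField ComplexConjugate
open IsDedekindDomain
open scoped Classical

noncomputable section

namespace Pool.Agent.H19.A2

open H63.MA H38.BB H38.BG H57.PC H57.BRA H57.GP H77.PC3 H77.WD Pool.Agent.H19.NF
  Pool.Agent.H19.AB H86.AP H4.AP H77.WE H24.RK Pool.Agent.H19.ST H4.A2

variable {K : Type} [Field K] [NumberField K] {Ω : Type} [Field Ω] [Algebra K Ω]
  [IsAlgClosure K Ω] {p m k N : ℕ} {ζ : K} {P G H Qg : Type} [Group P] [Fintype P] [Group G]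
  [Fintype G] [Group H] [Fintype H] [Group Qg]

private theorem sum_one {X : Type} (S : Finset X) (x₀ : X) (g : X → ℂ) {M : ℝ} (hM : 0 ≤ M)
    (h : ∀ x ∈ S, x ≠ x₀ → g x = 0) (h0 : ‖g x₀‖ ≤ M) : ‖∑ x ∈ S, g x‖ ≤ M := by
  by_cases hx : x₀ ∈ S
  · rw [Finset.sum_eq_single_of_mem x₀ hx fun x hx h' => h x hx h']
    exact h0
  · rw [Finset.sum_eq_zero fun x hxS => h x hxS fun h' => hx (h' ▸ hxS), norm_zero]
    exact hM

theorem mnc2 [NeZero p] [NeZero (p ^ m)] (E : CE p G H) (hk : 0 < k) (hp : p.Prime) (hm : 1 ≤ m)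
    (hp2 : MOne p K) (hζ : IsPrimitiveRoot ζ p) (hz : Zn p (k + 1) K) (D : RD K p ζ)
    (hl1 : ∀ v, v ∉ D.S0 → D.lam v = 1)
    (L : LDs D.toRD0 Ω) (Q : DP K Ω) (Fr : FR L)
    (I : ((Gal(Ω/K) → Gal(Ω/K) → Gal(Ω/K) → ZMod (p ^ m)) ×
      (Pl K → Gal(Ω/K) → Gal(Ω/K) → ZMod (p ^ m))) →+ AddCircle (1 : ℝ))
    (hI : FnR p k m D.toRD0 L Q Fr I) (hP : ∀ x : P, x ^ p ^ k = 1) (c : CL p N P)
    (rP : P →* Qg) (hgen : ∀ S : Subgroup P, S.Normal → (∀ i, c.g i ∈ S) → rP.ker ≤ S)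
    (wt : (Gal(Ω/K) →* Qg) → ℂ) (hwt : ∀ ψ, ‖wt ψ‖ ≤ 1)
    (hwt' : ∀ ψ, wt ψ ≠ 0 → Function.Surjective ψ)
    {τ : Pl K → Gal(Ω/K) →* P} (hτ : ∀ v, H38.ML.FT (τ v))
    (q : P →* G) (hq : Function.Surjective q) (rG : G →* Qg) (hr : rG.comp q = rP)
    (rH : H →* Qg) (hr' : rH.comp E.pi = rG) (j₀ : Fin N) (hj : q (c.g j₀) = E.i 1)
    {b : P → P → ZMod (p ^ m)} {w' : H → H → H → ZMod (p ^ m)}
    (hb : ∀ x y z, d2 b x y z = w' (E.pi (q x)) (E.pi (q y)) (E.pi (q z))) (hw : Nr3 w') :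
    Mn2H k L Fr c j₀ (H × Multiplicative (ZMod p)) (F2 E q b (c.g j₀))
      ((1 + (Bh p H).card) * ((p : ℝ) ^ 2 * Fintype.card P)) fun T γ =>
      B1 L Q Fr I rG wt τ q b (fun x y z => w' (E.pi x) (E.pi y) (E.pi z)) T γ -
      ∑ β ∈ Bh p H, ((p : ℂ) ^ D.r)⁻¹ *
        B1 L Q Fr I rH wt τ (E.pi.comp q) (fun x y => b x y - be (tz p m) E β (q x) (q y))
          (fun x y z => w' x y z + tz p m (β x * E.ee y z)) T γ := by
  have hF : Fact p.Prime := ⟨hp⟩
  have hG : ∀ x : G, x ^ p ^ k = 1 := pow_surj hq hP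
  have hH : ∀ x : H, x ^ p ^ k = 1 := pow_surj (fun h => ⟨E.s h, E.pi_s h⟩) hG
  obtain ⟨Xi, hXf, hXt, hXi, hXu⟩ := xu_fam hp hp2 hζ D L Q Fr
  have hXinj : Function.Injective Xi := by
    intro κ κ' h
    obtain ⟨κ₀, -, hu⟩ := hXu (Xi κ) (hXf κ) (hXt κ)
    rw [hu κ rfl, hu κ' h]
  have hl : ∀ v, v ∉ D.S0 → D.lam v ≠ 0 := fun v hv => by
    rw [hl1 v hv]
    exact one_ne_zero
  obtain ⟨B, hB⟩ : ∃ B : ℝ, B = Fintype.card P := ⟨_, rfl⟩
  have hB1 : 1 ≤ B := by
    rw [hB]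
    exact_mod_cast Fintype.card_pos
  obtain ⟨n, hn⟩ : ∃ n : ℝ, n = (Bh p H).card := ⟨_, rfl⟩
  have hn0 : 0 ≤ n := by
    rw [hn]
    exact Nat.cast_nonneg _
  have hp1 : (1 : ℝ) ≤ p := by exact_mod_cast hp.one_lt.le
  have hC1 : 1 ≤ (p : ℝ) ^ 2 * B := one_le_mul_of_one_le_of_one_le (one_le_pow₀ hp1) hB1
  rw [← hB, ← hn]
  refine ⟨fun x => Prod.ext (hH x.1) (mz_powk hk x.2), fun g h => ?_,
    one_le_mul_of_one_le_of_one_le (by linarith) hC1, fun T γ hT => ?_⟩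
  · unfold F2
    have e1 : (g * h * g⁻¹).1 = g.1 * h.1 * g.1⁻¹ := rfl
    have e2 : (g * h * g⁻¹).2 = h.2 := by
      show g.2 * h.2 * g.2⁻¹ = h.2
      rw [mul_comm g.2, mul_inv_cancel_right]
    rw [e1, e2, v2_cls E q hq hb hw]
  obtain ⟨cR, ρR, hLR, hX⟩ := b1_x E hk hp hp2 hζ hz D.toRD0 L Q Fr I hG hr' wt q hτ hj hq
    hb hw T hT
  -- the families
  let XS' : Finset (Gal(Ω/K) →* H) := XS2 L Q (fun v => E.pi.comp (q.comp (τ v))) T
  let AA : (Gal(Ω/K) →* H) × ((T → ZMod p) × (T → ZMod p) × (Fin D.r → ZMod p)) → ℂ := fun i =>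
    if Lc E L Fr T i.1 then wt (rH.comp i.1) * ec (JR D.toRD0 Q I b w' τ i.1) *
      Af D (ch p) E Fr (cR i.1 i.2.1) (ρR i.1 i.2.1)
      (gw2 E q b L γ i.1 T i.2.1) T i.2.2.1 i.2.2.2 else 0
  let TB : (Gal(Ω/K) →* H) → (H → ZMod p) → ℂ := fun φ' β =>
    wt (rH.comp φ') * (ec (JR D.toRD0 Q I (fun x y => b x y - be (tz p m) E β (q x) (q y))
      (fun x y z => w' x y z + tz p m (β x * E.ee y z)) τ φ') *
      ∏ v ∈ T, Vg (E.pi.comp q)
        (fun x y => b x y - be (tz p m) E β (q x) (q y)) (γ v)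
          (φ' (L.t v)) (φ' (Fr.F v)))
  have nested : ∀ f : (Gal(Ω/K) →* H) × ((T → ZMod p) × (T → ZMod p) × (Fin D.r → ZMod p)) → ℂ,
      ∑ i ∈ XS' ×ˢ Finset.univ, f i =
        ∑ φ' ∈ XS', ∑ a : T → ZMod p, ∑ k : T → ZMod p, ∑ κ : Fin D.r → ZMod p,
          f (φ', a, k, κ) := by
    intro f
    rw [Finset.sum_product]
    refine Finset.sum_congr rfl fun φ' _ => ?_
    rw [Fintype.sum_prod_type]
    refine Finset.sum_congr rfl fun a _ => ?_
    rw [Fintype.sum_prod_type]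
  have hon : ∀ φ' ∈ XS', Unz L T φ' := fun φ' h =>
    ((mem_xs2 hp hζ L Q hH _ T φ').1 h).1
  have hBh : ∀ β ∈ Bh p H, ∀ x y, β (x * y) = β x + β y := fun β h =>
    (Finset.mem_filter.1 h).2
  have hgv : ∀ (φ' : Gal(Ω/K) →* H) (a : T → ZMod p) (v : Pl K) (x : G),
      ‖gw2 E q b L γ φ' T a v x‖ ≤ B := fun φ' a v x => by
    rw [hB]
    exact vb_norm q _ _ _
  have hec : ∀ x : AddCircle (1 : ℝ), ‖ec x‖ = 1 := _root_.H4.AP.ec_norm
  have hpr : (0 : ℝ) < (p : ℝ) ^ D.r := by positivity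
  have hAA : ∀ i, ‖AA i‖ ≤ ((p : ℝ) ^ D.r)⁻¹ * B ^ T.card := by
    intro i
    show ‖(if _ then _ else _ : ℂ)‖ ≤ _
    split_ifs
    · rw [norm_mul, norm_mul, hec, mul_one]
      have h1 := af_norm D hp (ch p) E Fr (cR i.1 i.2.1) (ρR i.1 i.2.1) (hgv i.1 i.2.1) T
        i.2.2.1 i.2.2.2
      calc _ ≤ 1 * (((p : ℝ) ^ D.r)⁻¹ * B ^ T.card) :=
            mul_le_mul (hwt _) h1 (norm_nonneg _) zero_le_one
        _ = _ := one_mul _
    · rw [norm_zero]
      positivity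
  have hκ : ‖((p : ℂ) ^ D.r)⁻¹‖ ≤ 1 := by
    rw [norm_inv, norm_pow, Complex.norm_natCast]
    exact inv_le_one_of_one_le₀ (one_le_pow₀ hp1)
  have hTB : ∀ φ' β, ‖TB φ' β‖ ≤ B ^ T.card := by
    intro φ' β
    show ‖wt _ * (ec _ * ∏ v ∈ T, _)‖ ≤ _
    rw [norm_mul, norm_mul, hec, one_mul, norm_prod, ← Finset.prod_const]
    have h1 : ∏ v ∈ T, ‖Vg (E.pi.comp q)
        (fun x y => b x y - be (tz p m) E β (q x) (q y)) (γ v)
          (φ' (L.t v)) (φ' (Fr.F v))‖ ≤ ∏ _v ∈ T, B := by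
      refine Finset.prod_le_prod (fun _ _ => norm_nonneg _) fun v _ => ?_
      rw [hB]
      exact vb_norm _ _ _ _
    calc _ ≤ 1 * ∏ _v ∈ T, B :=
          mul_le_mul (hwt _) h1 (Finset.prod_nonneg fun _ _ => norm_nonneg _) zero_le_one
      _ = _ := one_mul _
  refine ⟨fun Θ => (∑ i ∈ XS' ×ˢ Finset.univ,
      if Θ = i.1.prod (Lam D Xi T i.2.2.1 i.2.2.2) then AA i else 0) +
      ∑ i ∈ XS' ×ˢ Bh p H, if Θ = i.1.prod (nbh i.2 i.1) then
        -(((p : ℂ) ^ D.r)⁻¹ * TB i.1 i.2) else 0, fun Θ => ?_, fun Θ hΘ hall => ?_,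
        fun u hu huT => ?_⟩
  · -- the bound
    set φ' : Gal(Ω/K) →* H := (MonoidHom.fst H (Multiplicative (ZMod p))).comp Θ with hφ'
    have hfst : ∀ (φ'' : Gal(Ω/K) →* H) (χ : Gal(Ω/K) →* Multiplicative (ZMod p)), φ'' ≠ φ' →
        Θ ≠ φ''.prod χ := by
      intro φ'' χ hne h
      apply hne
      rw [hφ', h]
      rfl
    have hcn : ∀ m : ℕ, Fintype.card (Fin m → ZMod p) = p ^ m := by
      intro m
      rw [Fintype.card_fun, ZMod.card, Fintype.card_fin]
    have hcT : Fintype.card (T → ZMod p) = p ^ T.card := by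
      rw [Fintype.card_fun, ZMod.card, Fintype.card_coe]
    have b1 : ‖∑ i ∈ XS' ×ˢ Finset.univ,
        if Θ = i.1.prod (Lam D Xi T i.2.2.1 i.2.2.2) then AA i else 0‖ ≤
        ((p : ℝ) ^ 2 * B) ^ T.card := by
      rw [nested]
      refine sum_one _ φ' _ (by positivity) (fun φ'' _ hne => ?_) ?_
      · refine Finset.sum_eq_zero fun a _ => Finset.sum_eq_zero fun k _ =>
          Finset.sum_eq_zero fun κ _ => if_neg (hfst φ'' _ hne)
      · have h1 : ∀ a k κ, ‖(if Θ = φ'.prod (Lam D Xi T k κ) then AA (φ', a, k, κ) else 0 : ℂ)‖ ≤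
            ((p : ℝ) ^ D.r)⁻¹ * B ^ T.card := by
          intro a k κ
          split_ifs
          · exact hAA _
          · rw [norm_zero]
            positivity
        refine (norm_sum_le _ _).trans ((Finset.sum_le_sum fun a _ => (norm_sum_le _ _).trans
          (Finset.sum_le_sum fun k _ => (norm_sum_le _ _).trans
            (Finset.sum_le_sum fun κ _ => h1 a k κ))).trans (le_of_eq ?_))
        simp only [Finset.sum_const, Finset.card_univ, hcn, hcT, nsmul_eq_mul]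
        push_cast
        rw [mul_pow, ← pow_mul]
        field_simp
        ring
    have b2 : ‖∑ i ∈ XS' ×ˢ Bh p H, if Θ = i.1.prod (nbh i.2 i.1) then
        -(((p : ℂ) ^ D.r)⁻¹ * TB i.1 i.2) else 0‖ ≤ n * B ^ T.card := by
      rw [Finset.sum_product]
      refine sum_one _ φ' _ (by positivity) (fun φ'' _ hne => ?_) ?_
      · exact Finset.sum_eq_zero fun β _ => if_neg (hfst φ'' _ hne)
      · have h1 : ∀ β, ‖(if Θ = φ'.prod (nbh β φ') then
            -(((p : ℂ) ^ D.r)⁻¹ * TB φ' β) else 0 : ℂ)‖ ≤ B ^ T.card := by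
          intro β
          split_ifs
          · rw [norm_neg, norm_mul]
            calc ‖((p : ℂ) ^ D.r)⁻¹‖ * ‖TB φ' β‖ ≤ 1 * B ^ T.card :=
                  mul_le_mul hκ (hTB φ' β) (norm_nonneg _) zero_le_one
              _ = _ := one_mul _
          · rw [norm_zero]
            positivity
        refine (norm_sum_le _ _).trans ((Finset.sum_le_sum fun β _ => h1 β).trans (le_of_eq ?_))
        rw [Finset.sum_const, nsmul_eq_mul, hn]
    have b3 : B ^ T.card ≤ ((p : ℝ) ^ 2 * B) ^ T.card := by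
      refine pow_le_pow_left₀ (by linarith) ?_ _
      have h1 : 1 ≤ (p : ℝ) ^ 2 := one_le_pow₀ hp1
      nlinarith
    have b4 : n * B ^ T.card ≤ n * ((p : ℝ) ^ 2 * B) ^ T.card := mul_le_mul_of_nonneg_left b3 hn0
    have b5 : (1 + n) * ((p : ℝ) ^ 2 * B) ^ T.card ≤ ((1 + n) * ((p : ℝ) ^ 2 * B)) ^ (T.card + 1) := by
      rw [mul_pow (1 + n)]
      have h1 : 1 + n ≤ (1 + n) ^ (T.card + 1) := by
        have h2 := one_le_pow₀ (n := T.card) (show (1 : ℝ) ≤ 1 + n by linarith)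
        rw [pow_succ]
        nlinarith
      have h3 : ((p : ℝ) ^ 2 * B) ^ T.card ≤ ((p : ℝ) ^ 2 * B) ^ (T.card + 1) :=
        pow_le_pow_right₀ hC1 (Nat.le_succ _)
      exact mul_le_mul h1 h3 (by positivity) (by positivity)
    refine (norm_add_le _ _).trans ?_
    calc _ ≤ ((p : ℝ) ^ 2 * B) ^ T.card + n * B ^ T.card := add_le_add b1 b2
      _ ≤ (1 + n) * ((p : ℝ) ^ 2 * B) ^ T.card := by
        rw [add_mul, one_mul]
        linarith
      _ ≤ _ := b5
  · -- the mean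
    obtain ⟨φ', hφ'⟩ : ∃ φ' : Gal(Ω/K) →* H,
      φ' = (MonoidHom.fst H (Multiplicative (ZMod p))).comp Θ := ⟨_, rfl⟩
    obtain ⟨χ, hχ⟩ : ∃ χ : Gal(Ω/K) →* Multiplicative (ZMod p),
      χ = (MonoidHom.snd H (Multiplicative (ZMod p))).comp Θ := ⟨_, rfl⟩
    have hΘe : Θ = φ'.prod χ := by
      rw [hφ', hχ]
      rfl
    have hpe : ∀ (φ'' : Gal(Ω/K) →* H) (χ' : Gal(Ω/K) →* Multiplicative (ZMod p)),
        Θ = φ''.prod χ' → φ'' = φ' ∧ χ' = χ := by
      intro φ'' χ' h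
      rw [hφ', hχ, h]
      exact ⟨rfl, rfl⟩
    have hcl : φ' ∈ XS' ∧ wt (rH.comp φ') ≠ 0 ∧ ∀ v ∈ T, ∃ σ : P, IsConj σ (γ v) ∧
        E.pi (q σ) = φ' (L.t v) := by
      by_cases hA : ∑ i ∈ XS' ×ˢ Finset.univ,
        (if Θ = i.1.prod (Lam D Xi T i.2.2.1 i.2.2.2) then AA i else 0) = 0
      · have hB : ∑ i ∈ XS' ×ˢ Bh p H, (if Θ = i.1.prod (nbh i.2 i.1) then
            -(((p : ℂ) ^ D.r)⁻¹ * TB i.1 i.2) else 0) ≠ 0 := by
          intro hB
          apply hΘ
          beta_reduce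
          rw [hA, hB, add_zero]
        obtain ⟨i, hi, hne⟩ := Finset.exists_ne_zero_of_sum_ne_zero hB
        by_cases h1 : Θ = i.1.prod (nbh i.2 i.1)
        · rw [if_pos h1] at hne
          rw [← (hpe _ _ h1).1]
          have h2 : TB i.1 i.2 ≠ 0 := fun h => hne (by rw [h, mul_zero, neg_zero])
          refine ⟨(Finset.mem_product.1 hi).1, left_ne_zero_of_mul h2, fun v hv => ?_⟩
          have h3 := (Finset.prod_ne_zero_iff.1
            (right_ne_zero_of_mul (right_ne_zero_of_mul h2))) v hv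
          obtain ⟨σ, x', h4, h5, -, -⟩ := vb_supp (E.pi.comp q) h3
          exact ⟨σ, h4, h5⟩
        · rw [if_neg h1] at hne
          exact absurd rfl hne
      · obtain ⟨i, hi, hne⟩ := Finset.exists_ne_zero_of_sum_ne_zero hA
        by_cases h1 : Θ = i.1.prod (Lam D Xi T i.2.2.1 i.2.2.2)
        · rw [if_pos h1] at hne
          rw [← (hpe _ _ h1).1]
          have h2 : (if Lc E L Fr T i.1 then wt (rH.comp i.1) *
            ec (JR D.toRD0 Q I b w' τ i.1) *
            Af D (ch p) E Fr (cR i.1 i.2.1) (ρR i.1 i.2.1)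
              (gw2 E q b L γ i.1 T i.2.1) T i.2.2.1 i.2.2.2 else 0) ≠ 0 := hne
          by_cases hLc : Lc E L Fr T i.1
          · rw [if_pos hLc] at h2
            refine ⟨(Finset.mem_product.1 hi).1,
              left_ne_zero_of_mul (left_ne_zero_of_mul h2), fun v hv => ?_⟩
            have h3 := right_ne_zero_of_mul h2
            unfold Af at h3
            have h4 := (Finset.prod_ne_zero_iff.1 (right_ne_zero_of_mul h3)) ⟨v, hv⟩
              (Finset.mem_univ _)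
            obtain ⟨a', h5⟩ := fh_ne (left_ne_zero_of_mul h4)
            obtain ⟨σ, x', h6, h7, -, -⟩ := vb_supp q h5
            refine ⟨σ, h6, ?_⟩
            have h8 : sv E L i.1 T i.2.1 v = E.i (i.2.1 ⟨v, hv⟩) * E.s (i.1 (L.t v)) := dif_pos hv
            rw [h7]
            show E.pi (sv E L i.1 T i.2.1 v) = _
            rw [h8, E.pi_mul, E.pi_s]
          · rw [if_neg hLc] at h2
            exact absurd rfl h2
        · rw [if_neg h1] at hne
          exact absurd rfl hne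
    have hsur : Function.Surjective φ' := by
      refine onto2g hp hH (q' := E.pi.comp q) (rP := rP) (rH := rH)
        (fun h => ?_) ?_ hgen (hwt' _ hcl.2.1) fun j => ?_
      · obtain ⟨x, hx⟩ := hq (E.s h)
        exact ⟨x, by rw [MonoidHom.comp_apply, hx, E.pi_s]⟩
      · rw [← MonoidHom.comp_assoc, hr', hr]
      · by_cases hjj : j = j₀
        · refine ⟨1, ?_⟩
          rw [hjj, MonoidHom.comp_apply, hj, E.pi_i, map_one]
        · obtain ⟨v, hvT, hvj⟩ := hall j hjj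
          obtain ⟨σ, h3, h4⟩ := hcl.2.2 v hvT
          refine ⟨L.t v, ?_⟩
          rw [← h4, ← hvj]
          exact (E.pi.comp q).map_isConj h3
    rw [hΘe]
    refine mean_lem hp E q b (c.g j₀) hsur fun β hβ => ?_
    by_contra hcon
    push Not at hcon
    apply hΘ
    have hβm : β ∈ Bh p H := Finset.mem_filter.2 ⟨Finset.mem_univ _, hβ⟩
    have hχβ : χ = nbh β φ' := by
      ext σ
      rw [nbh_apply hβ]
      exact hcon σ
    have hφhon := hon φ' hcl.1
    obtain ⟨hχf, hχu⟩ := nbh_unz L hφhon hβ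
    rw [← hχβ] at hχf hχu
    obtain ⟨k₀, κ₀, hk0⟩ := lam_all D Xi hp hζ L hl (fun ξ h1 h2 => by
      obtain ⟨κ, hκ1, -⟩ := hXu ξ h1 h2
      exact ⟨κ, hκ1⟩) hT χ hχf hχu
    have s1 : ∑ i ∈ XS' ×ˢ Finset.univ,
        (if Θ = i.1.prod (Lam D Xi T i.2.2.1 i.2.2.2) then AA i else 0) =
        ∑ a : T → ZMod p, AA (φ', a, k₀, κ₀) := by
      rw [nested, Finset.sum_eq_single_of_mem φ' hcl.1]
      · refine Finset.sum_congr rfl fun a _ => ?_
        rw [Finset.sum_eq_single_of_mem k₀ (Finset.mem_univ _),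
          Finset.sum_eq_single_of_mem κ₀ (Finset.mem_univ _)]
        · rw [if_pos]
          rw [hΘe, hk0]
        · intro κ _ hne
          refine if_neg fun h => hne ?_
          have h2 := (hpe _ _ h).2
          rw [hk0] at h2
          exact (lam_inj D Xi hp hζ L hl hXt hXinj hT h2).2
        · intro k _ hne
          refine Finset.sum_eq_zero fun κ _ => if_neg fun h => hne ?_
          have h2 := (hpe _ _ h).2
          rw [hk0] at h2
          exact (lam_inj D Xi hp hζ L hl hXt hXinj hT h2).1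
      · intro φ'' _ hne
        exact Finset.sum_eq_zero fun a _ => Finset.sum_eq_zero fun k _ =>
          Finset.sum_eq_zero fun κ _ => if_neg fun h => hne (hpe _ _ h).1
    have s2 : ∑ i ∈ XS' ×ˢ Bh p H, (if Θ = i.1.prod (nbh i.2 i.1) then
        -(((p : ℂ) ^ D.r)⁻¹ * TB i.1 i.2) else 0) = -(((p : ℂ) ^ D.r)⁻¹ * TB φ' β) := by
      rw [Finset.sum_product, Finset.sum_eq_single_of_mem φ' hcl.1,
        Finset.sum_eq_single_of_mem β hβm]
      · rw [if_pos]
        rw [hΘe, hχβ]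
      · intro β' hβ' hne
        refine if_neg fun h => hne ?_
        have h2 := (hpe _ _ h).2
        funext x
        obtain ⟨σ, rfl⟩ := hsur x
        have h3 := congrArg (fun χ' : Gal(Ω/K) →* Multiplicative (ZMod p) =>
          Multiplicative.toAdd (χ' σ)) h2
        beta_reduce at h3
        rw [nbh_apply (hBh β' hβ'), hcon σ] at h3
        exact neg_injective h3
      · intro φ'' _ hne
        exact Finset.sum_eq_zero fun β' _ => if_neg fun h => hne (hpe _ _ h).1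
    have s3 : ∑ a : T → ZMod p, AA (φ', a, k₀, κ₀) = ((p : ℂ) ^ D.r)⁻¹ * TB φ' β :=
      key_be2 E hp hm hp2 hζ D hl1 L Q Fr Xi hXt hXi I hI hG rH wt τ q hq b w' γ hT
        (cR φ') (ρR φ') (hLR φ' hcl.1) hβ fun σ => by rw [← hk0, hcon σ]
    beta_reduce
    rw [s1, s2, s3, add_neg_cancel]
  · -- the values
    rw [ev2_add, ← ev2_fam L Fr (F2 E q b (c.g j₀)) T (XS' ×ˢ Finset.univ)
        (fun i => i.1.prod (Lam D Xi T i.2.2.1 i.2.2.2)) AA ?_ u,
      ← ev2_fam L Fr (F2 E q b (c.g j₀)) T (XS' ×ˢ Bh p H)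
        (fun i => i.1.prod (nbh i.2 i.1)) (fun i => -(((p : ℂ) ^ D.r)⁻¹ * TB i.1 i.2)) ?_ u]
    · have e1 : B1 L Q Fr I rG wt τ q b (fun x y z => w' (E.pi x) (E.pi y) (E.pi z))
          (insert u T) (Function.update γ u (c.g j₀)) =
          ∑ i ∈ XS' ×ˢ Finset.univ, AA i * F2 E q b (c.g j₀)
            (i.1.prod (Lam D Xi T i.2.2.1 i.2.2.2) (Fr.F u)) := by
        rw [hX γ u hu huT, nested]
        refine Finset.sum_congr rfl fun φ' hφ' => Finset.sum_congr rfl fun a _ => ?_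
        by_cases hLc : Lc E L Fr T φ'
        · rw [if_pos hLc, b1_af E hp hp2 hζ D L Q Fr Xi hXi q b (gw2 E q b L γ φ' T a)
            (c.g j₀) T hT φ' (cR φ' a) (ρR φ' a) hu, Finset.mul_sum]
          refine Finset.sum_congr rfl fun k _ => ?_
          rw [Finset.mul_sum]
          refine Finset.sum_congr rfl fun κ _ => ?_
          show _ = (if Lc E L Fr T φ' then _ else _) * _
          rw [if_pos hLc, mul_assoc (wt _ * ec _)]
        · rw [if_neg hLc]
          symm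
          refine Finset.sum_eq_zero fun k _ => Finset.sum_eq_zero fun κ _ => ?_
          show (if Lc E L Fr T φ' then _ else _) * _ = _
          rw [if_neg hLc, zero_mul]
      have e2 : ∀ β ∈ Bh p H, ((p : ℂ) ^ D.r)⁻¹ *
          B1 L Q Fr I rH wt τ (E.pi.comp q)
            (fun x y => b x y - be (tz p m) E β (q x) (q y))
            (fun x y z => w' x y z + tz p m (β x * E.ee y z)) (insert u T)
            (Function.update γ u (c.g j₀)) =
          ∑ φ' ∈ XS', ((p : ℂ) ^ D.r)⁻¹ * TB φ' β * F2 E q b (c.g j₀)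
            (φ'.prod (nbh β φ') (Fr.F u)) := by
        intro β hβ
        rw [b1_be E hp hm hζ D.toRD0 L Q Fr I hG (c.g j₀) rH wt τ q hq hj hb hw (hBh β hβ)
          T γ hu huT, Finset.mul_sum]
        refine Finset.sum_congr rfl fun φ' _ => ?_
        rw [← mul_assoc]
      beta_reduce
      rw [e1, Finset.sum_congr rfl e2, sub_eq_add_neg, Finset.sum_product (s := XS')
        (t := Bh p H), Finset.sum_comm (s := Bh p H), ← Finset.sum_neg_distrib]
      congr 1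
      refine Finset.sum_congr rfl fun φ' _ => ?_
      rw [← Finset.sum_neg_distrib]
      refine Finset.sum_congr rfl fun β _ => ?_
      rw [neg_mul]
    · intro i hi
      exact hs2_nbh hk hp hζ hH L (hon _ (Finset.mem_product.1 hi).1)
        (hBh _ (Finset.mem_product.1 hi).2)
    · intro i hi
      exact hs2_lam hk hp hζ hH D L Xi hXf hXt hT (hon _ (Finset.mem_product.1 hi).1) _ _

end Pool.Agent.H19.A2
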