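import Pool.Agent.H19.A2.Exq2
import Pool.Agent.H19.A2.Cau2
import Pool.Agent.H19.A2.Grp2

/-!
# [H19 A2 NGC2] the case of a class which does not split (for one family of types)

State `(b, κ ∘ π + θ (ν ∪ et))` on `G`, `θ = tz`, `ν` not a coboundary. `W`: a weight on the homomorphisms to `H` which is zero unless `rH ∘ φ'` is onto and `I` vanishes on the restrictions of
`θ ν` to the decomposition groups at `S0` (H19/A2/Zer). `F (x, z) = V2 x * ch z` on the extension `Xt ν` (`Fx`, H19/A2/Grp2).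
PROOF (as H19/ST/Ngc, single instead of pairs): `exq2` with `rG := E.pi`, `rH := MonoidHom.id H`, `wt := W`; the terms with `Lc`, `W φ' ≠ 0` and `br ν (φ' t_v) (φ' F_v) = 0` for all `v ∈ T` (`vb_nu`, as in
`gw_nu` with `lam = 1`): `hF` gives `Tv (pb ν φ')`, `cau2` gives `R`, `C0`; `mf` for the product over `T` (H19/AB/Mf), `Θ = Rx R (Lam k κ)`, coefficient `W φ' * ec C0 * Af`; `co_fib`, `co_bd` (H19/ST/Cof).
Mean: `fh_ne`, `vb_supp` give that `φ' t_v` is conjugate to `π q (γ v)`; `onto2g`, `xt_cent`, `mr_cent`, `fx_cent`.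
-/

set_option autoImplicit false
set_option linter.dupNamespace false

open scoped NumberField ComplexConjugate
open IsDedekindDomain
open scoped Classical

noncomputable section

namespace Pool.Agent.H19.A2

open H63.MA H38.BG H57.PC H57.BRA H57.GP H77.PC3 H77.WD Pool.Agent.H19.NF
  Pool.Agent.H19.AB H86.AP H4.AP H77.WE H24.RK Pool.Agent.H19.ST

variable {K : Type} [Field K] [NumberField K] {Ω : Type} [Field Ω] [Algebra K Ω]
  [IsAlgClosure K Ω] {p m k k₀ N : ℕ} {ζ : K} {P G H Qg : Type} [Group P] [Fintype P] [Group G]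
  [Fintype G] [Group H] [Fintype H] [Group Qg]

theorem ngc2 [NeZero p] [NeZero (p ^ m)] (E : CE p G H) (hk : k₀ + 1 ≤ k) (hp : p.Prime)
    (hm : 1 ≤ m) (hp2 : MOne p K) (hζ : IsPrimitiveRoot ζ p) (hz : Zn p (k + 1) K)
    (D : RD K p ζ) (hl1 : ∀ v, v ∉ D.S0 → D.lam v = 1)
    (L : LDs D.toRD0 Ω) (Q : DP K Ω) (Fr : FR L)
    (I : ((Gal(Ω/K) → Gal(Ω/K) → Gal(Ω/K) → ZMod (p ^ m)) ×
      (Pl K → Gal(Ω/K) → Gal(Ω/K) → ZMod (p ^ m))) →+ AddCircle (1 : ℝ))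
    (hI : FnR p k m D.toRD0 L Q Fr I) (hF : FF p k m D.toRD0 L Q Fr I)
    (hP : ∀ x : P, x ^ p ^ k₀ = 1) (c : CL p N P)
    (rP : P →* Qg) (hgen : ∀ S : Subgroup P, S.Normal → (∀ i, c.g i ∈ S) → rP.ker ≤ S)
    {τ : Pl K → Gal(Ω/K) →* P} (hτ : ∀ v, H38.ML.FT (τ v))
    (q : P →* G) (hq : Function.Surjective q)
    (rH : H →* Qg) (hr : rH.comp (E.pi.comp q) = rP) (j₀ : Fin N) (hj : q (c.g j₀) = E.i 1)
    {b : P → P → ZMod (p ^ m)} {w : G → G → G → ZMod (p ^ m)}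
    {κ : H → H → H → ZMod (p ^ m)} {ν : H → H → ZMod p}
    (hb : ∀ x y z, d2 b x y z = w (q x) (q y) (q z)) (hw : ∀ x y z, w x y z =
      κ (E.pi x) (E.pi y) (E.pi z) + tz p m (ν (E.pi x) (E.pi y) * E.et z)) (hκ : Nr3 κ)
    (hν : Coc p ν) (hns : ¬ ∃ μ : H → ZMod p, ∀ x y, d1 μ x y = ν x y)
    (W : (Gal(Ω/K) →* H) → ℂ) (hW : ∀ φ, ‖W φ‖ ≤ 1)
    (hWs : ∀ φ, W φ ≠ 0 → Function.Surjective (rH.comp φ))
    (hWn : ∀ φ, W φ ≠ 0 → ∀ v ∈ D.S0, I (0, rs D.toRD0 Q (at1 ν φ v)) = 0)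
    [Fintype (Xt ν hν)] :
    Mn2H k L Fr c j₀ (Xt ν hν) (Fx E q b (c.g j₀) hν) ((p : ℝ) ^ 2 * Fintype.card P)
      (B1 L Q Fr I E.pi W τ q b w) := by
  have hF' : Fact p.Prime := ⟨hp⟩
  have hk0 : 0 < k := by omega
  have hν' : Nr2 ν := ⟨hν.l1, hν.r1⟩
  have hG₀ : ∀ x : G, x ^ p ^ k₀ = 1 := by
    intro x
    obtain ⟨y, rfl⟩ := hq x
    rw [← map_pow, hP, map_one]
  have hpi : Function.Surjective E.pi := fun h => ⟨E.s h, E.pi_s h⟩
  have hH₀ : ∀ x : H, x ^ p ^ k₀ = 1 := by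
    intro x
    obtain ⟨y, rfl⟩ := hpi x
    rw [← map_pow, hG₀, map_one]
  have hup : ∀ {R : Type} [Group R] (x : R) (n : ℕ), n ≤ k → x ^ p ^ n = 1 → x ^ p ^ k = 1 := by
    intro R _ x n hn hx
    obtain ⟨d, rfl⟩ := Nat.exists_eq_add_of_le hn
    rw [pow_add, pow_mul, hx, one_pow]
  have hG : ∀ x : G, x ^ p ^ k = 1 := fun x => hup x k₀ (by omega) (hG₀ x)
  have hH : ∀ x : H, x ^ p ^ k = 1 := fun x => hup x k₀ (by omega) (hH₀ x)
  have hX : ∀ x : Xt ν hν, x ^ p ^ k = 1 := fun x => hup x (k₀ + 1) hk (xt_exp2 hν hH₀ x)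
  have hψ : (ch p).IsPrimitive := ch_prim
  obtain ⟨Xi, hXf, hXt, hXi, hXu⟩ := xu_fam hp hp2 hζ D L Q Fr
  have hC1 : (1 : ℝ) ≤ (p : ℝ) ^ 2 * Fintype.card P := by
    have h1 : (1 : ℝ) ≤ p := by exact_mod_cast hp.one_lt.le
    have h2 : (1 : ℝ) ≤ Fintype.card P := by exact_mod_cast Fintype.card_pos
    nlinarith [one_le_pow₀ (n := 2) h1]
  refine ⟨hX, fx_cls E hp hm hq hb hw hκ hν (c.g j₀), hC1, fun T γ hT => ?_⟩
  obtain ⟨cR, ρR, hLR, hexq⟩ := exq2 E hk0 hp hp2 hζ hz D.toRD0 L Q Fr I hG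
    (MonoidHom.id_comp E.pi) W q hτ hj hq hb hw hκ hν' T hT
  -- the condition
  let Qc : (Gal(Ω/K) →* H) → (T → ZMod p) → Prop :=
    fun φ a => Lc E L Fr T φ ∧ W φ ≠ 0 ∧ ∀ v ∈ T, br ν (φ (L.t v)) (φ (Fr.F v)) = 0
  have hcau : ∀ (φ : Gal(Ω/K) →* H) (a : T → ZMod p),
      ∃ (R : Gal(Ω/K) →* Xt ν hν) (C0 : AddCircle (1 : ℝ)),
        φ ∈ XS2 L Q (fun v => E.pi.comp (q.comp (τ v))) T → Qc φ a → H38.ML.FT R ∧
        (∀ σ, (R σ).r = φ σ) ∧ (∀ v, v ∉ D.S0 → (R (L.t v)).z = 0) ∧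
        ∀ u, D.Gd u → D.q u = cR φ a →
          JR D.toRD0 Q I b w τ (tw E (ρR φ a) (kc p ζ Ω (D.pi u))) =
            C0 + ZMod.toAddCircle (tz p m (R (Fr.F u)).z) := by
    intro φ a
    by_cases hcond : φ ∈ XS2 L Q (fun v => E.pi.comp (q.comp (τ v))) T ∧ Qc φ a
    · obtain ⟨h1, h3, h4, h6⟩ := hcond
      have hx := (mem_xs2 hp hζ L Q hH _ T φ).1 h1
      have hTv : Tv (pb ν φ) := by
        refine hF H ν hν φ hH hx.1.1 (fun v hv => ?_) (hWn φ h4)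
        by_cases hvT : v ∈ T
        · have h7 := h6 v hvT
          unfold br at h7
          unfold iv
          linear_combination -h7
        · rw [hx.1.2 v hv hvT]
          unfold iv
          rw [hν.r1, hν.l1, sub_zero]
      obtain ⟨R, C0, r1, r2, r3, r4⟩ := cau2 E hk0 hp hp2 hζ hI hx.1.1 (hLR φ h1 h3 a) hν hX
        hTv (b := b) hw
      exact ⟨R, C0, fun _ _ => ⟨r1, r2, r3, r4⟩⟩
    · exact ⟨1, 0, fun h1 h2 => absurd ⟨h1, h2⟩ hcond⟩
  choose Rf C0f hRC using hcau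
  -- the data
  let S := XS2 L Q (fun v => E.pi.comp (q.comp (τ v))) T
  let f : (Gal(Ω/K) →* H) → ((T → ZMod p) × ((T → ZMod p) × (Fin D.r → ZMod p))) →
      (Gal(Ω/K) →* Xt ν hν) :=
    fun x j => Rx hν (Rf x j.1) (Lam D Xi T j.2.1 j.2.2)
  let A₁ : (Gal(Ω/K) →* H) → (T → ZMod p) → (T → ZMod p) → (Fin D.r → ZMod p) → ℂ :=
    fun φ a k κ => Af D (ch p) E Fr (cR φ a) (ρR φ a) (gw2 E q b L γ φ T a) T k κ
  let cc : (Gal(Ω/K) →* H) → ((T → ZMod p) × ((T → ZMod p) × (Fin D.r → ZMod p))) → ℂ :=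
    fun x j => if Qc x j.1 then W x * ec (C0f x j.1) * A₁ x j.1 j.2.1 j.2.2 else 0
  have hgB : ∀ (φ : Gal(Ω/K) →* H) (a : T → ZMod p)
      (v : Pl K) (x : G), ‖gw2 E q b L γ φ T a v x‖ ≤ Fintype.card P :=
    fun φ a v x => vb_norm q _ _ _
  have hfr : ∀ x ∈ S, ∀ j, cc x j ≠ 0 → ∀ σ, (f x j σ).r = x σ := by
    intro x hx j hne σ
    have hQ : Qc x j.1 := by
      by_contra h
      exact hne (if_neg h)
    exact (hRC x j.1 hx hQ).2.1 σ
  refine ⟨fun Θ => ∑ x ∈ S, ∑ j, if f x j = Θ then cc x j else 0, fun Θ => ?_,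
    fun Θ hΘ hr' => ?_, fun u hu huT => ?_⟩
  · -- the bound
    have hp0 : (0 : ℝ) < p := by exact_mod_cast hp.pos
    have hM : ∀ x ∈ S, ∀ j, ‖cc x j‖ ≤ ((p : ℝ) ^ D.r)⁻¹ * (Fintype.card P : ℝ) ^ T.card := by
      intro x _ j
      show ‖(if Qc x j.1 then W x * ec (C0f x j.1) * A₁ x j.1 j.2.1 j.2.2 else 0 : ℂ)‖ ≤ _
      split_ifs
      · rw [norm_mul, norm_mul, ec_norm, mul_one]
        refine (mul_le_of_le_one_left (norm_nonneg _) (hW x)).trans ?_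
        exact af_norm D hp (ch p) E Fr _ _ (hgB x j.1) T _ _
      · rw [norm_zero]
        positivity
    refine (co_bd S f cc (fun x hx y hy j j' h1 h2 h3 => ?_) (by positivity) hM Θ).trans ?_
    · refine MonoidHom.ext fun σ => ?_
      have h4 := hfr x hx j h2 σ
      rw [h1, hfr y hy j' h3 σ] at h4
      exact h4.symm
    · have h5 : (Fintype.card ((T → ZMod p) × ((T → ZMod p) × (Fin D.r → ZMod p))) : ℝ) =
          (p : ℝ) ^ T.card * ((p : ℝ) ^ T.card * (p : ℝ) ^ D.r) := by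
        simp only [Fintype.card_prod, Fintype.card_pi, ZMod.card, Finset.prod_const,
          Finset.card_univ, Fintype.card_coe, Fintype.card_fin]
        push_cast
        ring
      have h6 : (p : ℝ) ^ D.r ≠ 0 := (pow_pos hp0 _).ne'
      rw [h5]
      have h8 : (p : ℝ) ^ T.card * ((p : ℝ) ^ T.card * (p : ℝ) ^ D.r) *
          (((p : ℝ) ^ D.r)⁻¹ * (Fintype.card P : ℝ) ^ T.card) =
          ((p : ℝ) ^ 2 * Fintype.card P) ^ T.card := by
        rw [mul_pow, ← pow_mul, mul_comm 2 T.card, pow_mul]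
        field_simp
      rw [h8]
      exact pow_le_pow_right₀ hC1 (Nat.le_succ _)
  · -- the mean
    obtain ⟨x, hx, hx2⟩ := Finset.exists_ne_zero_of_sum_ne_zero hΘ
    obtain ⟨j, -, hj2⟩ := Finset.exists_ne_zero_of_sum_ne_zero hx2
    have hfx : f x j = Θ := by
      by_contra h
      exact hj2 (if_neg h)
    rw [if_pos hfx] at hj2
    have hQ : Qc x j.1 := by
      by_contra h
      exact hj2 (if_neg h)
    have hcc : cc x j = W x * ec (C0f x j.1) * A₁ x j.1 j.2.1 j.2.2 := if_pos hQ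
    have hA1 : A₁ x j.1 j.2.1 j.2.2 ≠ 0 := by
      intro h
      apply hj2
      rw [hcc, h, mul_zero]
    have key : ∀ v ∈ T, IsConj (x (L.t v)) (E.pi (q (γ v))) := by
      intro v hv
      have h1 := Finset.prod_ne_zero_iff.1 (right_ne_zero_of_mul hA1) ⟨v, hv⟩ (Finset.mem_univ _)
      obtain ⟨y, hy⟩ := fh_ne (left_ne_zero_of_mul h1)
      obtain ⟨σ, x', h2, h3, -, -⟩ := vb_supp q hy
      rw [← sv_pi E L x j.1 hv, ← h3]
      exact E.pi.map_isConj (q.map_isConj h2)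
    have honto : Function.Surjective x := by
      refine onto2g hp hH (q' := E.pi.comp q) (hpi.comp hq) hr hgen (hWs x hQ.2.1) fun i => ?_
      by_cases hi : i = j₀
      · refine ⟨1, ?_⟩
        rw [hi, map_one, MonoidHom.comp_apply, hj, E.pi_i]
      · obtain ⟨v, hv, hγ⟩ := hr' i hi
        refine ⟨L.t v, ?_⟩
        rw [MonoidHom.comp_apply, ← hγ]
        exact key v hv
    obtain ⟨σ, hσ1, hσ2⟩ := xt_cent hp hν Θ (fun r => by
      obtain ⟨σ, hσ⟩ := honto r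
      refine ⟨σ, ?_⟩
      rw [← hfx, hfr x hx j hj2 σ]
      exact hσ) hns 1
    have hne1 : ch p (1 : ZMod p) ≠ 1 := fun h => one_ne_zero (ch_inj p h)
    refine mr_cent Θ _ (Θ σ) ⟨σ, rfl⟩ hne1 fun y => ?_
    have h3 : Θ σ = ⟨1, 1⟩ := by
      rw [Xt.ext_iff]
      exact ⟨hσ1, hσ2⟩
    rw [h3]
    exact fx_cent E q b (c.g j₀) hν y 1
  · -- the identity
    have hwt : ∀ x ∈ S, ∀ j, cc x j ≠ 0 → f x j ∈ HS2 L (Xt ν hν) T := by
      intro x hx j hne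
      have hQ : Qc x j.1 := by
        by_contra h
        exact hne (if_neg h)
      have hm1 := (mem_xs2 hp hζ L Q hH _ T x).1 hx
      obtain ⟨r1, r2, r3, -⟩ := hRC x j.1 hx hQ
      rw [mem_hs2 hp hζ L hX]
      refine ⟨?_, fun v hv hvT => ?_⟩
      · obtain ⟨F, hF', h2⟩ := ft_prod r1 (lam_ft D Xi hp hζ hXf T j.2.1 j.2.2)
        refine ⟨F, hF', fun u hu => ?_⟩
        have h3 := MonoidHom.mem_ker.1 (h2 hu)
        have h4 : Rf x j.1 u = 1 := congrArg Prod.fst h3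
        have h5 : Lam D Xi T j.2.1 j.2.2 u = 1 := congrArg Prod.snd h3
        rw [MonoidHom.mem_ker]
        show Rx _ _ _ u = 1
        rw [rx_apply, h4, h5]
        rw [Xt.ext_iff]
        refine ⟨rfl, ?_⟩
        show (0 : ZMod p) + Multiplicative.toAdd (1 : Multiplicative (ZMod p)) = 0
        rw [toAdd_one, add_zero]
      · show Rx _ _ _ (L.t v) = 1
        rw [rx_apply, lam_t D Xi hp hζ L hXt hT _ _ hv, dif_neg hvT, r3 v hv, r2]
        rw [Xt.ext_iff]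
        refine ⟨?_, ?_⟩
        · show x (L.t v) = 1
          exact hm1.1.2 v hv hvT
        · show (0 : ZMod p) + 0 = 0
          ring
    have hid := co_fib S (HS2 L (Xt ν hν) T) f cc
      (fun Θ => Fx E q b (c.g j₀) hν (Θ (Fr.F u))) hwt
    unfold Ev2
    rw [hid, hexq γ u hu huT]
    refine Finset.sum_congr rfl fun φ hφ => ?_
    rw [Fintype.sum_prod_type]
    refine Finset.sum_congr rfl fun a _ => ?_
    -- the expansion
    have hmf := mf D Xi hp hp2 hζ hψ E Q Fr hXi (cR φ a) (ρR φ a)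
      (gw2 E q b L γ φ T a) T hT hu
    by_cases hQ : Qc φ a
    · obtain ⟨r1, r2, r3, r4⟩ := hRC φ a hφ hQ
      have hR : ∀ j : (T → ZMod p) × (Fin D.r → ZMod p),
          cc φ (a, j) * Fx E q b (c.g j₀) hν (f φ (a, j) (Fr.F u)) =
          W φ * ec (C0f φ a) * V2 E q b (c.g j₀) (φ (Fr.F u)) * ch p (Rf φ a (Fr.F u)).z *
          (A₁ φ a j.1 j.2 * ch p (Multiplicative.toAdd (Lam D Xi T j.1 j.2 (Fr.F u)))) := by
        intro j
        have h1 : cc φ (a, j) = W φ * ec (C0f φ a) * A₁ φ a j.1 j.2 := if_pos hQ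
        have h2 : f φ (a, j) (Fr.F u) = ⟨φ (Fr.F u),
            (Rf φ a (Fr.F u)).z + Multiplicative.toAdd (Lam D Xi T j.1 j.2 (Fr.F u))⟩ := by
          show Rx _ _ _ (Fr.F u) = _
          rw [rx_apply, r2]
        rw [h1, h2]
        unfold Fx
        rw [AddChar.map_add_eq_mul]
        ring
      rw [Finset.sum_congr rfl fun j _ => hR j, ← Finset.mul_sum]
      have hs1 : ∑ i : (T → ZMod p) × (Fin D.r → ZMod p), A₁ φ a i.1 i.2 *
          ch p (Multiplicative.toAdd (Lam D Xi T i.1 i.2 (Fr.F u))) =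
          if D.q u = cR φ a then ∏ v ∈ T, gw2 E q b L γ φ T a v
            (tw E (ρR φ a) (kc p ζ Ω (D.pi u)) (Fr.F v)) else 0 := by
        rw [hmf, Fintype.sum_prod_type]
      rw [hs1]
      by_cases hqu : D.q u = cR φ a
      · rw [if_pos ⟨hQ.1, hqu⟩, if_pos hqu, MonoidHom.id_comp]
        have h1 := r4 u hu hqu
        have h2 : ec (JR D.toRD0 Q I b w τ (tw E (ρR φ a) (kc p ζ Ω (D.pi u)))) =
            ec (C0f φ a) * ch p (Rf φ a (Fr.F u)).z := by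
          rw [h1, AddChar.map_add_eq_mul, ← tz_ch hp hm]
        rw [h2]
        ring
      · rw [if_neg (fun h => hqu h.2), if_neg hqu, mul_zero]
    · have h0 : ∀ j : (T → ZMod p) × (Fin D.r → ZMod p), cc φ (a, j) = 0 := fun j => if_neg hQ
      rw [Finset.sum_eq_zero fun j _ => by rw [h0, zero_mul]]
      by_cases hc1 : Lc E L Fr T φ ∧ D.q u = cR φ a
      swap
      · rw [if_neg hc1]
      rw [if_pos hc1, MonoidHom.id_comp]
      by_cases hW0 : W φ = 0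
      · rw [hW0, zero_mul]
      by_cases hb1 : ∀ v ∈ T, br ν (φ (L.t v)) (φ (Fr.F v)) = 0
      · exact absurd ⟨hc1.1, hW0, hb1⟩ hQ
      push Not at hb1
      obtain ⟨v, hv, hne⟩ := hb1
      rw [Finset.prod_eq_zero hv, mul_zero, mul_zero]
      by_contra h
      apply hne
      have h1 := vb_nu q hq E hb hκ (tz_inj hp hm) hν' hw h
      rw [sv_pi E L φ a hv] at h1
      have h2 : E.pi (tw E (ρR φ a) (kc p ζ Ω (D.pi u)) (Fr.F v)) = φ (Fr.F v) :=
        DFunLike.congr_fun (lr2_pi E (hLR φ hφ hc1.1 a) (kc p ζ Ω (D.pi u))) (Fr.F v)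
      rwa [h2] at h1

end Pool.Agent.H19.A2
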