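import Pool.Agent.H19.A2.Stf2

/-!
# H19-A2-ST2: the step theorem of AP2

`step2`: another name of `step2_pf` (H19/A2/Stf2). `MOne p K` (`-1` is a `p`-th power) instead of `p ≠ 2`.
`E : CE p G G'` a central extension with kernel of order `p`, generated by the image of a label `c.g j₀`. `rP.ker` is the normal closure of the labels. `(b, w)` a state on `G`. `φ₁` any homomorphism of finite type.
Up to a function with mean values zero (`Mn2`) the sum `BB2` is a combination with positive coefficients of the sums of states on `G'` (possibly none).
-/

set_option autoImplicit false
set_option linter.dupNamespace false

namespace Pool.Agent.H19.A2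

alias step2 := step2_pf

end Pool.Agent.H19.A2
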