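import Pool.Agent.H19.A2.Bet2
import Pool.Agent.H19.ST.Tz

/-!
# [H19 A2 ZER] the cancellation in the sum over the conjugates of the types

`w = κ ∘ π + θ (ν ∪ et)`, `θ = tz`. In the sum over all `a : S0 → rP.ker` the homomorphisms `φ` such that `I` does not vanish on the restriction of `θ (ν (φ' ·, φ' ·))`, `φ' = π ∘ φ`, to the
decomposition group at some `v ∈ S0` cancel.
PROOF: exchange the sums: `∑_a ∑_(φ ∈ XS2 τ_a) X φ * ec (JR τ_a φ) = ∑_φ X φ * ∑_(a : φ of type q ∘ τ_a) ec (JR τ_a φ)` (`φ` in `HS2 L G T`, `mem_xs2`, `mem_hs2`). Fix `φ` and `v₀ ∈ S0` with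
`I (0, rs (at1 ν φ' v₀)) ≠ 0`; `a ↦ a'` with `a' v₀ = y * a v₀` (`y = t`, in `rP.ker` by `ht`) and `a' v = a v` otherwise is a bijection, `q ∘ τ_(a') v = q ∘ τ_a v` for all `v` (`q t = E.i 1` is central),
and `JR τ_(a') φ = JR τ_a φ + ε` with `ε = ± I (0, rs (at1 ν φ' v₀))` independent of `a` (as long as `φ` is of type `q ∘ τ_a`): on `dec (Q.P v₀)`
 `b (y x y⁻¹) (y x' y⁻¹) - b x x' = d1 h x x' ± (homotopy of conjugation of d2 b) y x x'`, `h x = b y x - b (y x y⁻¹) y` up to sign (H19/NF/Coc: `hc`; see also `br_conj`), `d2 b = w ∘ q`, and for `w = κ ∘ π +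
 θ (ν ∪ et)`, `q y = E.i 1`: the homotopy is `± θ (ν (π q x) (π q x'))` (`κ` normalised, `ν` normalised); `fnr_cob` (H19/A2/Jr) for the coboundary of `h ∘ τ_a v₀` (finite level: `hτ`), additivity of `I`.
 So `∑_a = ec ε * ∑_a`, `ec ε ≠ 1` (`ec` is injective: AddCircle.toCircle), the sum is `0`.
-/

set_option autoImplicit false
set_option linter.dupNamespace false

open scoped NumberField ComplexConjugate
open IsDedekindDomain
open scoped Classical

noncomputable section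

namespace Pool.Agent.H19.A2

open H63.MA H38.BB H38.BG H57.PC H57.BRA H57.GP H77.PC3 H77.WD
  Pool.Agent.H19.NF Pool.Agent.H19.AB H86.AP H77.WE H24.RK Pool.Agent.H19.ST

variable {K : Type} [Field K] [NumberField K] {Ω : Type} [Field Ω] [Algebra K Ω]
  [IsAlgClosure K Ω] {p k m : ℕ} {ζ : K} {P G H Qg : Type} [Group P] [Fintype P] [Group G]
  [Finite G] [Group H] [Group Qg]

private theorem zer_ec {x : AddCircle (1 : ℝ)} (hx : x ≠ 0) : ec x ≠ 1 := by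
  intro h
  apply hx
  have h1 : ((AddCircle.toCircle x : Circle) : ℂ) = 1 := h
  have h2 : AddCircle.toCircle x = 1 := by
    apply Circle.ext
    rw [h1, Circle.coe_one]
  rw [← AddCircle.toCircle_zero (T := (1 : ℝ))] at h2
  exact AddCircle.injective_toCircle one_ne_zero h2

omit [Fintype P] in
/-- conjugation of a 2-cochain -/
private theorem zer_conj {M : Type} [AddCommGroup M] (b : P → P → M) (s x x' : P) :
    b (s * x * s⁻¹) (s * x' * s⁻¹) - b x x' =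
      -d1 (fun x => b s x - b (s * x * s⁻¹) s) x x' - (d2 b s x x' - d2 b (s * x * s⁻¹) s x' +
        d2 b (s * x * s⁻¹) (s * x' * s⁻¹) s) := by
  have e1 : s * x * s⁻¹ * s = s * x := by group
  have e2 : s * x * s⁻¹ * (s * x' * s⁻¹) = s * (x * x') * s⁻¹ := by group
  have e3 : s * x' * s⁻¹ * s = s * x' := by group
  unfold d1 d2
  beta_reduce
  rw [e1, e2, e3]
  abel

theorem zer [NeZero p] (E : CE p G H) (hp : p.Prime) (hζ : IsPrimitiveRoot ζ p) {D : RD0 K p ζ}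
    {L : LDs D Ω} {Q : DP K Ω} {Fr : FR L} [NeZero (p ^ m)]
    {I : ((Gal(Ω/K) → Gal(Ω/K) → Gal(Ω/K) → ZMod (p ^ m)) ×
      (Pl K → Gal(Ω/K) → Gal(Ω/K) → ZMod (p ^ m))) →+ AddCircle (1 : ℝ)}
    (hI : FnR p k m D L Q Fr I) (hG : ∀ x : G, x ^ p ^ k = 1) (rP : P →* Qg)
    {φ₁ : Gal(Ω/K) →* P} (h₁ : H38.ML.FT φ₁) (q : P →* G) {t : P} (hj : q t = E.i 1)
    (ht : rP t = 1) {b : P → P → ZMod (p ^ m)} {w : G → G → G → ZMod (p ^ m)}
    {κ : H → H → H → ZMod (p ^ m)} {ν : H → H → ZMod p}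
    (hb : ∀ x y z, d2 b x y z = w (q x) (q y) (q z))
    (hw : ∀ x y z, w x y z = κ (E.pi x) (E.pi y) (E.pi z) +
      tz p m (ν (E.pi x) (E.pi y) * E.et z)) (hκ : Nr3 κ) (hν : Nr2 ν)
    (T : Finset (Pl K)) (X : (Gal(Ω/K) →* G) → ℂ) :
    ∑ a : {v // v ∈ D.S0} → rP.ker,
        ∑ φ ∈ XS2 L Q (fun v => q.comp (cjf D rP φ₁ a v)) T,
          X φ * ec (JR D Q I b w (cjf D rP φ₁ a) φ) =
      ∑ a : {v // v ∈ D.S0} → rP.ker,
        ∑ φ ∈ XS2 L Q (fun v => q.comp (cjf D rP φ₁ a v)) T,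
          if ∀ v ∈ D.S0, I (0, rs D Q (at1 ν (E.pi.comp φ) v)) = 0 then
            X φ * ec (JR D Q I b w (cjf D rP φ₁ a) φ) else 0 := by
  classical
  -- the change of types at one place
  have hcen : ∀ x : G, E.i 1 * x * (E.i 1)⁻¹ = x := fun x => by
    rw [E.cent, mul_inv_cancel_right]
  have hi0 : E.pi (E.i 1) = 1 := E.pi_i 1
  set g0 : ∀ v₀ : {v // v ∈ D.S0}, {v // v ∈ D.S0} → rP.ker :=
    fun v₀ => Pi.mulSingle v₀ ⟨t, MonoidHom.mem_ker.2 ht⟩ with hg0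
  have hcj : ∀ (v₀ : {v // v ∈ D.S0}) (a : {v // v ∈ D.S0} → rP.ker) (σ : Gal(Ω/K)),
      cjf D rP φ₁ (g0 v₀ * a) v₀.1 σ = t * cjf D rP φ₁ a v₀.1 σ * t⁻¹ := by
    intro v₀ a σ
    unfold cjf
    rw [dif_pos v₀.2, dif_pos v₀.2]
    have e1 : ((g0 v₀ * a) ⟨v₀.1, v₀.2⟩ : P) = t * (a ⟨v₀.1, v₀.2⟩ : P) := by
      rw [Pi.mul_apply, Subgroup.coe_mul, hg0]
      dsimp only
      rw [Pi.mulSingle_eq_same]
    show ((g0 v₀ * a) ⟨v₀.1, v₀.2⟩ : P) * φ₁ σ * ((g0 v₀ * a) ⟨v₀.1, v₀.2⟩ : P)⁻¹ = _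
    rw [e1]
    show t * (a ⟨v₀.1, v₀.2⟩ : P) * φ₁ σ * (t * (a ⟨v₀.1, v₀.2⟩ : P))⁻¹ =
      t * ((a ⟨v₀.1, v₀.2⟩ : P) * φ₁ σ * (a ⟨v₀.1, v₀.2⟩ : P)⁻¹) * t⁻¹
    group
  have hcn : ∀ (v₀ : {v // v ∈ D.S0}) (a : {v // v ∈ D.S0} → rP.ker) (v : Pl K), v ≠ v₀.1 →
      cjf D rP φ₁ (g0 v₀ * a) v = cjf D rP φ₁ a v := by
    intro v₀ a v hv
    unfold cjf
    by_cases h : v ∈ D.S0
    · rw [dif_pos h, dif_pos h]
      have e1 : (g0 v₀ * a) ⟨v, h⟩ = a ⟨v, h⟩ := by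
        rw [Pi.mul_apply, hg0]
        dsimp only
        rw [Pi.mulSingle_eq_of_ne, one_mul]
        intro h1
        exact hv (congrArg Subtype.val h1)
      rw [e1]
    · rw [dif_neg h, dif_neg h]
  have hqc : ∀ (v₀ : {v // v ∈ D.S0}) (a : {v // v ∈ D.S0} → rP.ker) (v : Pl K)
      (σ : Gal(Ω/K)), q (cjf D rP φ₁ (g0 v₀ * a) v σ) = q (cjf D rP φ₁ a v σ) := by
    intro v₀ a v σ
    by_cases hv : v = v₀.1
    · subst hv
      rw [hcj, map_mul, map_mul, map_inv, hj, hcen]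
    · rw [hcn v₀ a v hv]
  -- the level of the conjugates
  have hlev : ∀ (a : {v // v ∈ D.S0} → rP.ker) (v : Pl K) (f : P → ZMod (p ^ m)),
      Lev (fun σ => f (cjf D rP φ₁ a v σ)) := by
    intro a v f
    obtain ⟨F, hF, hFk⟩ := h₁
    refine ⟨F, hF, fun σ u hu => ?_⟩
    have h1 : φ₁ u = 1 := MonoidHom.mem_ker.1 (hFk hu)
    have h2 : cjf D rP φ₁ a v u = 1 := by
      unfold cjf
      split_ifs with h
      · show (a ⟨v, h⟩ : P) * φ₁ u * (a ⟨v, h⟩ : P)⁻¹ = 1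
        rw [h1, mul_one, mul_inv_cancel]
      · exact h1
    show f (cjf D rP φ₁ a v (σ * u)) = f (cjf D rP φ₁ a v σ)
    rw [map_mul, h2, mul_one]
  -- the value changes by a constant
  have hJR : ∀ (φ : Gal(Ω/K) →* G) (v₀ : {v // v ∈ D.S0}) (a : {v // v ∈ D.S0} → rP.ker),
      (∀ v ∈ D.S0, ∀ σ ∈ dec (K := K) (Q.P v), φ σ = q (cjf D rP φ₁ a v σ)) →
      JR D Q I b w (cjf D rP φ₁ (g0 v₀ * a)) φ = JR D Q I b w (cjf D rP φ₁ a) φ -
        I (0, rs D Q (at1 ν (E.pi.comp φ) v₀.1)) := by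
    intro φ v₀ a hφ
    set hh : P → ZMod (p ^ m) := fun x => b t x - b (t * x * t⁻¹) t with hhd
    have h1 := fnr_cob hI (fun v σ => if v = v₀.1 then hh (cjf D rP φ₁ a v σ) else 0) (by
      intro v
      by_cases hv : v = v₀.1
      · simp only [if_pos hv]
        exact hlev a v hh
      · simp only [if_neg hv]
        exact lev_const 0)
    have h2 : (pl3 w φ, rs D Q fun v => pl2 b (cjf D rP φ₁ (g0 v₀ * a) v)) =
        (pl3 w φ, rs D Q fun v => pl2 b (cjf D rP φ₁ a v)) -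
          (0, rs D Q (at1 ν (E.pi.comp φ) v₀.1)) -
          (0, rs D Q fun v σ τ =>
            d1 (fun σ => if v = v₀.1 then hh (cjf D rP φ₁ a v σ) else 0) σ τ) := by
      refine Prod.ext ?_ ?_
      · show pl3 w φ = pl3 w φ - 0 - 0
        rw [sub_zero, sub_zero]
      · funext v σ σ'
        simp only [Prod.snd_sub, Pi.sub_apply, rs]
        by_cases hc : v ∈ D.S0 ∧ σ ∈ dec (K := K) (Q.P v) ∧ σ' ∈ dec (K := K) (Q.P v)
        · rw [if_pos hc, if_pos hc, if_pos hc, if_pos hc]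
          obtain ⟨hvS, hσ, hσ'⟩ := hc
          by_cases hv : v = v₀.1
          · subst hv
            have e1 := zer_conj b t (cjf D rP φ₁ a v₀.1 σ) (cjf D rP φ₁ a v₀.1 σ')
            rw [← hcj, ← hcj, hb, hb, hb, hcj, hcj, map_mul, map_mul, map_inv, hj, hcen, map_mul,
              map_mul, map_inv, hj, hcen, hw, hw, hw, hi0, hκ.l, hκ.m, hκ.r, hν.l, hν.r,
              E.et_i', zero_mul, mul_one, map_zero] at e1
            have e2 : at1 ν (E.pi.comp φ) v₀.1 v₀.1 σ σ' =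
                tz p m (ν (E.pi (q (cjf D rP φ₁ a v₀.1 σ))) (E.pi (q (cjf D rP φ₁ a v₀.1 σ')))) := by
              unfold at1
              rw [if_pos rfl, MonoidHom.comp_apply, MonoidHom.comp_apply, hφ v₀.1 hvS σ hσ,
                hφ v₀.1 hvS σ' hσ']
            rw [e2]
            have e3 : d1 (fun σ => if v₀.1 = v₀.1 then hh (cjf D rP φ₁ a v₀.1 σ) else 0) σ σ' =
                d1 hh (cjf D rP φ₁ a v₀.1 σ) (cjf D rP φ₁ a v₀.1 σ') := by
              simp only [d1, if_true, map_mul]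
            rw [e3]
            show b (cjf D rP φ₁ (g0 v₀ * a) v₀.1 σ) (cjf D rP φ₁ (g0 v₀ * a) v₀.1 σ') =
              b (cjf D rP φ₁ a v₀.1 σ) (cjf D rP φ₁ a v₀.1 σ') - _ - _
            rw [hcj, hcj]
            linear_combination e1
          · have e1 : at1 (m := m) ν (E.pi.comp φ) v₀.1 v σ σ' = 0 := by
              unfold at1
              rw [if_neg hv]
            have e2 : d1 (fun σ => if v = v₀.1 then hh (cjf D rP φ₁ a v σ) else 0) σ σ' = 0 := by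
              simp only [d1, if_neg hv]
              ring
            rw [e1, e2, hcn v₀ a v hv, sub_zero, sub_zero]
        · rw [if_neg hc, if_neg hc, if_neg hc, if_neg hc, sub_zero, sub_zero]
    unfold JR
    rw [h2, map_sub, map_sub, h1, sub_zero]
  -- exchange the sums
  have hsum : ∀ f : ({v // v ∈ D.S0} → rP.ker) → (Gal(Ω/K) →* G) → ℂ,
      ∑ a : {v // v ∈ D.S0} → rP.ker,
        ∑ φ ∈ XS2 L Q (fun v => q.comp (cjf D rP φ₁ a v)) T, f a φ =
      ∑ φ ∈ HS2 L G T, ∑ a : {v // v ∈ D.S0} → rP.ker,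
        if ∀ v ∈ D.S0, ∀ σ ∈ dec (K := K) (Q.P v), φ σ = q (cjf D rP φ₁ a v σ) then f a φ
          else 0 := by
    intro f
    rw [Finset.sum_comm]
    refine Finset.sum_congr rfl fun a _ => ?_
    rw [← Finset.sum_filter]
    refine Finset.sum_congr ?_ fun _ _ => rfl
    ext φ
    rw [Finset.mem_filter, mem_xs2 hp hζ L Q hG, mem_hs2 hp hζ L hG]
    rfl
  rw [hsum, hsum]
  refine Finset.sum_congr rfl fun φ _ => ?_
  by_cases hφ : ∀ v ∈ D.S0, I (0, rs D Q (at1 ν (E.pi.comp φ) v)) = 0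
  · refine Finset.sum_congr rfl fun a _ => ?_
    rw [if_pos hφ]
  · have hR : ∑ a : {v // v ∈ D.S0} → rP.ker,
        (if ∀ v ∈ D.S0, ∀ σ ∈ dec (K := K) (Q.P v), φ σ = q (cjf D rP φ₁ a v σ) then
          (if ∀ v ∈ D.S0, I (0, rs D Q (at1 ν (E.pi.comp φ) v)) = 0 then
            X φ * ec (JR D Q I b w (cjf D rP φ₁ a) φ) else 0) else 0) = 0 := by
      refine Finset.sum_eq_zero fun a _ => ?_
      rw [if_neg hφ, ite_self]
    rw [hR]
    push Not at hφ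
    obtain ⟨v, hv, hne⟩ := hφ
    set v₀ : {v // v ∈ D.S0} := ⟨v, hv⟩ with hv₀
    set ε : AddCircle (1 : ℝ) := I (0, rs D Q (at1 ν (E.pi.comp φ) v)) with hε
    set S : ℂ := ∑ a : {v // v ∈ D.S0} → rP.ker,
      (if ∀ v ∈ D.S0, ∀ σ ∈ dec (K := K) (Q.P v), φ σ = q (cjf D rP φ₁ a v σ) then
          X φ * ec (JR D Q I b w (cjf D rP φ₁ a) φ) else 0) with hS
    have h1 : S = ec (-ε) * S := by
      conv_lhs => rw [hS]
      rw [← (Group.mulLeft_bijective (g0 v₀)).sum_comp, hS, Finset.mul_sum]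
      refine Finset.sum_congr rfl fun a _ => ?_
      simp only [hqc]
      by_cases hc : ∀ v ∈ D.S0, ∀ σ ∈ dec (K := K) (Q.P v), φ σ = q (cjf D rP φ₁ a v σ)
      · rw [if_pos hc, if_pos hc, hJR φ v₀ a hc, sub_eq_add_neg, AddChar.map_add_eq_mul]
        ring
      · rw [if_neg hc, if_neg hc, mul_zero]
    have h2 : (1 - ec (-ε)) * S = 0 := by linear_combination h1
    rcases mul_eq_zero.1 h2 with h3 | h3
    · exact absurd (sub_eq_zero.1 h3).symm (zer_ec (neg_ne_zero.2 hne))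
    · exact h3

end Pool.Agent.H19.A2
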