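import Pool.Agent.H19.A2.Mnc2
import Pool.Agent.H19.A2.Ngc2
import Pool.Agent.H19.A2.Zer
import Pool.Agent.H19.A2.Cas2
import Pool.Agent.H19.A2.Chg2

/-!
# H19-A2-STF2: the step theorem of AP2

`step2_pf` (= `step2` of H19/A2/St2): `cas2`, `chg2`, then `mnc2` for every family of conjugates (main case), or `zer` and `ngc2`.
-/

set_option autoImplicit false
set_option linter.dupNamespace false

open scoped NumberField ComplexConjugate
open IsDedekindDomain
open scoped Classical

noncomputable section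

namespace Pool.Agent.H19.A2

open H63.MA H38.BB H38.BG H57.PC H57.BRA H57.GP H77.PC3 H77.WD Pool.Agent.H19.NF
  Pool.Agent.H19.AB H86.AP H77.WE H24.RK Pool.Agent.H19.ST

variable {K : Type} [Field K] [NumberField K] {Ω : Type} [Field Ω] [Algebra K Ω]
  {p m N : ℕ} {ζ : K}

private theorem d2_q {A B M : Type} [Group A] [Group B] [AddCommGroup M] (q : A →* B)
    (c : B → B → M) (x y z : A) :
    d2 (fun x y => c (q x) (q y)) x y z = d2 c (q x) (q y) (q z) := by
  unfold d2
  beta_reduce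
  rw [map_mul, map_mul]

private theorem cjf_ft [IsAlgClosure K Ω] {D : RD0 K p ζ} {P Qg : Type} [Group P] [Group Qg] (rP : P →* Qg)
    {φ₁ : Gal(Ω/K) →* P} (h₁ : H38.ML.FT φ₁) (a : {v // v ∈ D.S0} → rP.ker) (v : Pl K) :
    H38.ML.FT (cjf D rP φ₁ a v) := by
  unfold cjf
  split_ifs
  · exact H38.ML.ft_comp _ _ h₁
  · exact h₁

private theorem mn2h_congr {k : ℕ} {D : RD0 K p ζ} {L : LDs D Ω} {Fr : FR L} {P : Type} [Group P]
    {c : CL p N P} {j₀ : Fin N} {H : Type} [Group H] [Fintype H] {F : H → ℂ} {C : ℝ}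
    {X X' : Finset (Pl K) → (Pl K → P) → ℂ} (h : Mn2H k L Fr c j₀ H F C X)
    (he : ∀ T γ, X' T γ = X T γ) : Mn2H k L Fr c j₀ H F C X' := by
  have : X' = X := funext fun T => funext fun γ => he T γ
  rw [this]
  exact h

/-- the step theorem of AP2 -/
theorem step2_pf [IsAlgClosure K Ω] [NeZero (p ^ m)] {k k₀ : ℕ} (hp : p.Prime)
    (hM1 : MOne p K)
    (hζ : IsPrimitiveRoot ζ p) (hk₀ : k₀ + 1 ≤ k) (hz : Zn p (k + 1) K) (D : RD K p ζ)
    (hl1 : ∀ v, v ∉ D.S0 → D.lam v = 1) (L : LDs D.toRD0 Ω) (Q : DP K Ω) (Fr : FR L)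
    (I : ((Gal(Ω/K) → Gal(Ω/K) → Gal(Ω/K) → ZMod (p ^ m)) ×
      (Pl K → Gal(Ω/K) → Gal(Ω/K) → ZMod (p ^ m))) →+ AddCircle (1 : ℝ))
    (hI : FnR p k m D.toRD0 L Q Fr I) (hF : FF p k m D.toRD0 L Q Fr I)
    {P : Type} [Group P] [Fintype P] (hP : ∀ x : P, x ^ p ^ k₀ = 1) (c : CL p N P)
    {Qg : Type} [Group Qg] (rP : P →* Qg) (hcT : ∀ i, rP (c.g i) = 1)
    (hgen : ∀ S : Subgroup P, S.Normal → (∀ i, c.g i ∈ S) → rP.ker ≤ S)
    (wt : (Gal(Ω/K) →* Qg) → ℂ) (hwt : ∀ ψ, ‖wt ψ‖ ≤ 1)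
    (hwt' : ∀ ψ, wt ψ ≠ 0 → Function.Surjective ψ)
    (φ₁ : Gal(Ω/K) →* P) (h₁ : H38.ML.FT φ₁)
    {G : Type} [Group G] [Fintype G] (q : P →* G) (hq : Function.Surjective q)
    (rG : G →* Qg) (hr : rG.comp q = rP)
    {G' : Type} [Group G'] [Fintype G'] (E : CE p G G') (rG' : G' →* Qg)
    (hr' : rG'.comp E.pi = rG) (j₀ : Fin N) (hj : q (c.g j₀) = E.i 1)
    {l : ℕ} (hl : l + 1 ≤ m) (b : P → P → ZMod (p ^ m)) (w : G → G → G → ZMod (p ^ m))
    (hbw : Sta p m l q b w) :
    ∃ (n : ℕ) (κ : Fin n → ℝ) (bs : Fin n → P → P → ZMod (p ^ m))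
      (ws : Fin n → G' → G' → G' → ZMod (p ^ m)),
      (∀ i, Sta p m (l + 1) (E.pi.comp q) (bs i) (ws i)) ∧ (∀ i, 0 < κ i) ∧
      (b = 0 → w = 0 → ∃ i, bs i = 0 ∧ ws i = 0) ∧
      Mn2 k L Fr c j₀ fun T γ => BB2 L Q Fr I rP rG wt φ₁ q b w T γ -
        ∑ i, (κ i : ℂ) * BB2 L Q Fr I rP rG' wt φ₁ (E.pi.comp q) (bs i) (ws i) T γ := by
  have hFp : Fact p.Prime := ⟨hp⟩
  have hp0 : NeZero p := ⟨hp.ne_zero⟩
  have hm : 1 ≤ m := by omega
  have hk : 0 < k := by omega
  have hPk : ∀ x : P, x ^ p ^ k = 1 := pow_mono (by omega) hP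
  have hG : ∀ x : G, x ^ p ^ k = 1 := pow_surj hq hPk
  have hπ : Function.Surjective E.pi := fun h => ⟨E.s h, E.pi_s h⟩
  have hrH : rG'.comp (E.pi.comp q) = rP := by rw [← MonoidHom.comp_assoc, hr', hr]
  have hτ : ∀ a : {v // v ∈ D.S0} → rP.ker, ∀ v, H38.ML.FT (cjf D.toRD0 rP φ₁ a v) :=
    fun a v => cjf_ft rP h₁ a v
  rcases cas2 hp hl E q hj (c.pow j₀) hbw with
    ⟨c₁, w', hc1, hct, hw, hw1, hwt1, hwd, hz0⟩ | ⟨hne, c₁, κ, ν, hc1, hw, hκ, hν, hns⟩
  · -- the main case
    have hb' : ∀ x y z, d2 (fun x y => b x y - c₁ (q x) (q y)) x y z =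
        w' (E.pi (q x)) (E.pi (q y)) (E.pi (q z)) := by
      intro x y z
      rw [d2_sub, hbw.cob, hw]
      rw [d2_q, add_sub_cancel_right]
    have hww : (fun x y z => w x y z - d2 c₁ x y z) =
        fun x y z => w' (E.pi x) (E.pi y) (E.pi z) := by
      funext x y z
      rw [hw, add_sub_cancel_right]
    have hpz : ∀ a : ZMod p, p ^ (l + 1) • tz p m a = 0 := by
      intro a
      rw [← map_nsmul, nsmul_eq_mul, Nat.cast_pow, ZMod.natCast_self,
        zero_pow (Nat.succ_ne_zero l), zero_mul, map_zero]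
    have hβ1 : ∀ β ∈ Bh p G', β 1 = 0 := by
      intro β hβ
      have h1 := (Finset.mem_filter.1 hβ).2 1 1
      rw [mul_one] at h1
      exact left_eq_add.1 h1
    let e := (Bh p G').equivFin
    refine ⟨(Bh p G').card, fun i => ((p : ℝ) ^ D.r)⁻¹,
      fun i x y => b x y - c₁ (q x) (q y) - be (tz p m) E (e.symm i : G' → ZMod p) (q x) (q y),
      fun i x y z => w' x y z + tz p m ((e.symm i : G' → ZMod p) x * E.ee y z), fun i => ?_,
      fun i => ?_, fun hb0 hw0 => ?_, ?_⟩
    · -- the states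
      obtain ⟨β, hβ, hβe⟩ : ∃ β : G' → ZMod p, β ∈ Bh p G' ∧ (e.symm i : G' → ZMod p) = β :=
        ⟨_, (e.symm i).2, rfl⟩
      rw [show (fun i x y => b x y - c₁ (q x) (q y) -
          be (tz p m) E (e.symm i : G' → ZMod p) (q x) (q y)) i =
          (fun x y => b x y - c₁ (q x) (q y) - be (tz p m) E β (q x) (q y)) from by
        beta_reduce
        rw [hβe], show (fun i x y z => w' x y z +
          tz p m ((e.symm i : G' → ZMod p) x * E.ee y z)) i =
          (fun x y z => w' x y z + tz p m (β x * E.ee y z)) from by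
        beta_reduce
        rw [hβe]]
      show Sta p m (l + 1) (E.pi.comp q)
        (fun x y => b x y - c₁ (q x) (q y) - be (tz p m) E β (q x) (q y))
        (fun x y z => w' x y z + tz p m (β x * E.ee y z))
      have hβh : ∀ x y, β (x * y) = β x + β y := (Finset.mem_filter.1 hβ).2
      have hb1 := hβ1 β hβ
      have hee := ee_nr E
      have hcup : ∀ x y z : G, tz p m (β (E.pi x) * E.ee (E.pi y) (E.pi z)) =
          -d2 (be (tz p m) E β) x y z := by
        intro x y z
        have h1 := cup_et E (θ := tz p m) (ν := fun _ _ => (0 : ZMod p)) (μ := β)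
          (fun x y => by
            unfold d1
            rw [hβh]
            ring) x y z
        rw [zero_mul, map_zero] at h1
        exact eq_neg_of_add_eq_zero_left h1.symm
      refine ⟨⟨fun y => ?_, fun x => ?_⟩, ⟨fun y z => ?_, fun x z => ?_, fun x y => ?_⟩,
        fun x y z => ?_, fun x y z t => ?_, fun x y => ?_, fun x y z => ?_⟩
      · show b 1 y - c₁ (q 1) (q y) - tz p m (β (E.pi (q 1)) * E.et (q y)) = 0
        rw [hbw.nb.l, map_one, hc1.l, map_one, hb1, zero_mul, map_zero, sub_zero, sub_zero]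
      · show b x 1 - c₁ (q x) (q 1) - tz p m (β (E.pi (q x)) * E.et (q 1)) = 0
        rw [hbw.nb.r, map_one, hc1.r, E.et_one, mul_zero, map_zero, sub_zero, sub_zero]
      · show w' 1 y z + tz p m (β 1 * E.ee y z) = 0
        rw [hw1.l, hb1, zero_mul, map_zero, add_zero]
      · show w' x 1 z + tz p m (β x * E.ee 1 z) = 0
        rw [hw1.m, hee.l, mul_zero, map_zero, add_zero]
      · show w' x y 1 + tz p m (β x * E.ee y 1) = 0
        rw [hw1.r, hee.r, mul_zero, map_zero, add_zero]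
      · show d2 (fun x y => (fun x y => b x y - c₁ (q x) (q y)) x y -
          (fun x y => be (tz p m) E β (q x) (q y)) x y) x y z =
          w' (E.pi (q x)) (E.pi (q y)) (E.pi (q z)) +
            tz p m (β (E.pi (q x)) * E.ee (E.pi (q y)) (E.pi (q z)))
        rw [d2_sub, hb', hcup]
        rw [d2_q, sub_eq_add_neg]
      · rw [d3_add, hwd, zero_add]
        have h1 := d3_d2 (fun x y => be (tz p m) E β x y) (E.s x) (E.s y) (E.s z) (E.s t)
        have h2 : ∀ x y z : G, d2 (fun x y => be (tz p m) E β x y) x y z =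
            -tz p m (β (E.pi x) * E.ee (E.pi y) (E.pi z)) := fun x y z => by
          rw [hcup, neg_neg]
        unfold d3 at h1 ⊢
        simp only [h2, map_mul E.pi, E.pi_s] at h1
        linear_combination -h1
      · show p ^ (l + 1) • (b x y - c₁ (q x) (q y) - tz p m (β (E.pi (q x)) * E.et (q y))) = 0
        rw [smul_sub, smul_sub, hct, hpz, pow_succ', mul_smul, hbw.tb, smul_zero, sub_zero,
          sub_zero]
      · show p ^ (l + 1) • (w' x y z + tz p m (β x * E.ee y z)) = 0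
        rw [smul_add, hwt1, hpz, add_zero]
    · -- positivity
      have h1 : (0 : ℝ) < p := by exact_mod_cast hp.pos
      positivity
    · -- the zero state
      obtain ⟨h1, h2⟩ := hz0 hb0 hw0
      have h0 : (0 : G' → ZMod p) ∈ Bh p G' := by
        refine Finset.mem_filter.2 ⟨Finset.mem_univ _, fun x y => ?_⟩
        show (0 : ZMod p) = 0 + 0
        rw [add_zero]
      refine ⟨e ⟨0, h0⟩, ?_, ?_⟩
      · funext x y
        show b x y - c₁ (q x) (q y) -
          be (tz p m) E ((e.symm (e ⟨0, h0⟩) : Bh p G') : G' → ZMod p) (q x) (q y) = 0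
        rw [Equiv.symm_apply_apply, hb0, h1]
        show (0 : ZMod (p ^ m)) - 0 - tz p m (0 * E.et (q y)) = 0
        rw [zero_mul, map_zero, sub_zero, sub_zero]
      · funext x y z
        show w' x y z + tz p m (((e.symm (e ⟨0, h0⟩) : Bh p G') : G' → ZMod p) x * E.ee y z) = 0
        rw [Equiv.symm_apply_apply, h2]
        show (0 : ZMod (p ^ m)) + tz p m (0 * E.ee y z) = 0
        rw [zero_mul, map_zero, add_zero]
    · -- the main term
      have hmn : ∀ a : {v // v ∈ D.S0} → rP.ker, _ := fun a =>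
        mnc2 E hk hp hm hM1 hζ hz D hl1 L Q Fr I hI hPk c rP hgen wt hwt hwt' (hτ a) q hq rG hr
          rG' hr' j₀ hj hb' hw1
      refine mn2_of (mn2h_congr (mn2h_sum hmn) fun T γ => ?_)
      rw [Finset.sum_sub_distrib]
      congr 1
      · unfold BB2
        refine Finset.sum_congr rfl fun a _ => ?_
        rw [chg2 hp hζ hI hG rG wt _ q b w hc1 T γ, hww]
      · unfold BB2
        rw [Finset.sum_comm, ← Finset.sum_coe_sort (Bh p G'), ← Equiv.sum_comp e.symm]
        refine Finset.sum_congr rfl fun i _ => ?_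
        rw [Finset.mul_sum]
        refine Finset.sum_congr rfl fun a _ => ?_
        push_cast
        rfl
  · -- the class does not split
    refine ⟨0, Fin.elim0, Fin.elim0, Fin.elim0, fun i => i.elim0, fun i => i.elim0,
      fun h1 h2 => absurd ⟨h1, h2⟩ hne, ?_⟩
    have hb' : ∀ x y z, d2 (fun x y => b x y - c₁ (q x) (q y)) x y z =
        (fun x y z => w x y z - d2 c₁ x y z) (q x) (q y) (q z) := by
      intro x y z
      rw [d2_sub, hbw.cob, d2_q]
    have hw' : ∀ x y z, (fun x y z => w x y z - d2 c₁ x y z) x y z =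
        κ (E.pi x) (E.pi y) (E.pi z) + tz p m (ν (E.pi x) (E.pi y) * E.et z) := by
      intro x y z
      show w x y z - d2 c₁ x y z = _
      rw [hw, add_sub_cancel_right]
    have hXf : Finite (Xt ν hν) := xt_fin _ _
    have : Fintype (Xt ν hν) := Fintype.ofFinite _
    have hng : ∀ a : {v // v ∈ D.S0} → rP.ker, _ := fun a =>
      ngc2 E hk₀ hp hm hM1 hζ hz D hl1 L Q Fr I hI hF hP c rP hgen (hτ a) q hq rG' hrH j₀ hj
        (b := fun x y => b x y - c₁ (q x) (q y)) (w := fun x y z => w x y z - d2 c₁ x y z)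
        hb' hw' hκ hν hns
        (fun φ => if ∀ v ∈ D.S0, I (0, rs D.toRD0 Q (at1 ν φ v)) = 0 then wt (rG'.comp φ) else 0)
        (fun φ => by
          split_ifs
          · exact hwt _
          · rw [norm_zero]
            exact zero_le_one)
        (fun φ h => by
          by_cases h1 : ∀ v ∈ D.S0, I (0, rs D.toRD0 Q (at1 ν φ v)) = 0
          · rw [if_pos h1] at h
            exact hwt' _ h
          · rw [if_neg h1] at h
            exact absurd rfl h)
        (fun φ h => by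
          by_contra h1
          exact h (if_neg h1))
    refine mn2_of (mn2h_congr (mn2h_sum hng) fun T γ => ?_)
    rw [Finset.univ_eq_empty, Finset.sum_empty, sub_zero]
    rw [chg2' hp hζ hI hG rP rG wt φ₁ q b w hc1 T γ]
    have hz1 := zer E hp hζ hI hG rP h₁ q hj (hcT j₀) hb' hw' hκ ⟨hν.l1, hν.r1⟩ T
      fun φ => wt (rG.comp φ) * ∏ v ∈ T, Vg q (fun x y => b x y - c₁ (q x) (q y)) (γ v)
        (φ (L.t v)) (φ (Fr.F v))
    unfold BB2 B1
    have e1 : ∀ (a b c : ℂ), a * (b * c) = a * c * b := fun a b c => by ring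
    simp only [e1]
    rw [hz1]
    refine Finset.sum_congr rfl fun a _ => Finset.sum_congr rfl fun φ _ => ?_
    have e2 : rG.comp φ = rG'.comp (E.pi.comp φ) := by rw [← MonoidHom.comp_assoc, hr']
    split_ifs
    · rw [e2]
    · rw [zero_mul, zero_mul]

end Pool.Agent.H19.A2
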